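import Pool.Agent.V5helper93.NS.Bes2

/-! # Flows along round pipes: absolutely convergent Bessel series -/

set_option autoImplicit false
set_option linter.all false

open MeasureTheory Set Filter Topology
open scoped ENNReal

namespace Pool.Agent.V5helper93.NS

open Pool.Agent.Y308.BC

variable {n : ℕ}

lemma g1_bound {m : ℕ} (hm : 1 ≤ m) {α : ℕ → ℝ → ℝ} {K D S : ℝ} {I : Set ℝ} (hD : 0 ≤ D)
    (hK : 0 ≤ K) (hS : 1 ≤ S) (hb : ∀ i, ∀ t ∈ I, |α i t| ≤ K * wD D i) {t s : ℝ} (ht : t ∈ I)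
    (hs : |s| ≤ S) : |g1 m α t s| ≤ ∑' i, K * maj (4 * S * D) i := by
  unfold g1
  rw [← Real.norm_eq_abs]
  exact tsum_of_norm_bounded (sm hm hD hK hS hb).hasSum fun i => r1 hm hD hK hS hb ht hs i

/-- **Flows along round pipes with profiles given by Bessel series.** -/
theorem pipe4 (J : Finset (Fin n)) (hJ : 1 ≤ J.card) {Ω W : Set (Sp n)} (hΩo : IsOpen Ω)
    (hΩb : Bornology.IsBounded Ω) {B T : ℝ} (hB : 0 < B) (hT : 0 < T)
    (hΩ : ∀ x ∈ Ω, rho J x < B) (hW : ∀ x ∈ W, rho J x = B) (c l : Fin n → ℕ → ℝ)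
    (hc : ∀ i, Summable fun k => |c i k|) (hl : ∀ i k, 0 ≤ l i k)
    (hz : ∀ i k, c i k * bes J.card (l i k * B) = 0) :
    ∃ u p, IsTrajectory Ω W T
        (fun x i => if i ∈ J then 0 else ∑' k, c i k * bes J.card (l i k * rho J x)) u p ∧
      ∀ x, u T x = 0 := by
  set σ := T / 2 with hσd
  have hσ : 0 < σ := half_pos hT
  have hT2 : T = 2 * σ := by rw [hσd]; ring
  have g0eq : ∀ i t s, t ≤ σ → g0 J.card (At (c i) (l i) σ) t s =
      ∑' j, bt (c i) (l i) j t * (s ^ j / cc J.card j) := by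
    intro i t s ht
    unfold g0
    simp_rw [At_left hσ _ ht]
  have g1eq : ∀ i t s, t ≤ σ → g1 J.card (At (c i) (l i) σ) t s =
      ∑' j, bt (c i) (l i) j t * ((j : ℝ) * s ^ (j - 1) / cc J.card j) := by
    intro i t s ht
    unfold g1
    simp_rw [At_left hσ _ ht]
  refine pipe_gen J hJ hΩo hΩb hB hT hΩ hW (fun i => At (c i) (l i) σ)
    (fun i t0 ht0 => At_bound (hc i) (hl i) hσ ht0)
    (fun i k t ht => At_deriv (hc i) (hl i) hσ k ht)
    (fun i k => by rw [hT2]; exact At_end hσ k)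
    (fun i s => ∑' k, c i k * bes J.card (l i k * s)) (σ0 := σ) hσ (fun i => ?_) (fun i => ?_)
  · refine ⟨_, init_tendsto (hc i) (hl i), fun t ht s hs => ?_⟩
    rw [g0eq i t s ht.2, g0eq i t B ht.2]
    exact init_le (hc i) (hl i) hJ ht.1 hs.1 (hz i)
  · obtain ⟨K, D, hK, hD, hb⟩ := At_bound (hc i) (hl i) hσ (half_pos hσ)
    have hS : 1 ≤ B + 1 := by linarith
    set M := ∑' j, K * maj (4 * (B + 1) * D) j with hM
    refine ⟨fun t => (∑' k, |c i k|) *
      (∑' k, |c i k| * (l i k * Real.exp (-(l i k * (2 * t))))) + 4 * B * M ^ 2, ?_, ?_⟩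
    · refine Integrable.add ((H_int (hc i) (hl i) hT).const_mul _) ?_
      exact integrableOn_const (by simp)
    · intro t ht s hs
      have h0 : 0 ≤ (∑' k, |c i k|) *
          ∑' k, |c i k| * (l i k * Real.exp (-(l i k * (2 * t)))) :=
        mul_nonneg (tsum_nonneg fun k => abs_nonneg _) (tsum_nonneg fun k =>
          mul_nonneg (abs_nonneg _) (mul_nonneg (hl i k) (Real.exp_pos _).le))
      have h1 : 0 ≤ 4 * B * M ^ 2 := by positivity
      rcases le_or_gt t σ with h | h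
      · rw [g1eq i t s h]
        have := en_le (hc i) (hl i) hJ ht.1 hs.1
        linarith
      · have h2 := g1_bound hJ hD hK hS hb (t := t) (s := s)
          (by simp only [mem_Ioi]; linarith) (by rw [abs_of_nonneg hs.1]; linarith [hs.2])
        have h3 : g1 J.card (At (c i) (l i) σ) t s ^ 2 ≤ M ^ 2 := by
          rw [← sq_abs]
          exact pow_le_pow_left₀ (abs_nonneg _) h2 2
        have h4 : 4 * s * g1 J.card (At (c i) (l i) σ) t s ^ 2 ≤ 4 * B * M ^ 2 := by
          have := hs.2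
          have := hs.1
          gcongr
        linarith

/-- the same with conditions for `i ∉ J` only -/
theorem pipe5 (J : Finset (Fin n)) (hJ : 1 ≤ J.card) {Ω W : Set (Sp n)} (hΩo : IsOpen Ω)
    (hΩb : Bornology.IsBounded Ω) {B T : ℝ} (hB : 0 < B) (hT : 0 < T)
    (hΩ : ∀ x ∈ Ω, rho J x < B) (hW : ∀ x ∈ W, rho J x = B) (c l : Fin n → ℕ → ℝ)
    (hc : ∀ i, i ∉ J → Summable fun k => |c i k|) (hl : ∀ i, i ∉ J → ∀ k, 0 ≤ l i k)
    (hz : ∀ i, i ∉ J → ∀ k, bes J.card (l i k * B) = 0) :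
    ∃ u p, IsTrajectory Ω W T
        (fun x i => if i ∈ J then 0 else ∑' k, c i k * bes J.card (l i k * rho J x)) u p ∧
      ∀ x, u T x = 0 := by
  obtain ⟨u, p, h1, h2⟩ := pipe4 J hJ hΩo hΩb hB hT hΩ hW
    (fun i k => if i ∈ J then 0 else c i k) (fun i k => if i ∈ J then 0 else l i k)
    (fun i => by
      by_cases hi : i ∈ J
      · simp only [if_pos hi, abs_zero]; exact summable_zero
      · simp only [if_neg hi]; exact hc i hi)
    (fun i k => by
      by_cases hi : i ∈ J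
      · simp only [if_pos hi]; exact le_rfl
      · simp only [if_neg hi]; exact hl i hi k)
    (fun i k => by
      by_cases hi : i ∈ J
      · simp only [if_pos hi, zero_mul]
      · simp only [if_neg hi]; rw [hz i hi k, mul_zero])
  refine ⟨u, p, ?_, h2⟩
  convert h1 using 1
  funext x i
  by_cases hi : i ∈ J
  · simp only [if_pos hi]
  · simp only [if_neg hi]

end Pool.Agent.V5helper93.NS
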