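import Pool.Agent.V5helper93.NS.PipeGen

/-! # Bessel functions and free flows -/

set_option autoImplicit false
set_option linter.all false

open MeasureTheory Set Filter Topology
open scoped ENNReal

namespace Pool.Agent.V5helper93.NS

open Pool.Agent.Y308.BC

/-- the radial eigenfunction: `∑ (-z)^i / c_i` -/
noncomputable def bes (m : ℕ) (z : ℝ) : ℝ := ∑' i, (-z) ^ i / cc m i

/-- the tower of `bes` -/
def al0 : ℕ → ℝ → ℝ := fun i _ => (-1) ^ i

lemma one_le_wD (i : ℕ) {D : ℝ} (hD : 1 ≤ D) : 1 ≤ wD D i := by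
  unfold wD
  have h1 : (1:ℝ) ≤ i.factorial := by exact_mod_cast Nat.one_le_iff_ne_zero.2 (Nat.factorial_ne_zero i)
  have h2 : (1:ℝ) ≤ √(i.factorial) := Real.one_le_sqrt.2 h1
  have h3 : (1:ℝ) ≤ D ^ i := one_le_pow₀ hD
  have h4 : (1:ℝ) ≤ i + 1 := by linarith [Nat.cast_nonneg (α := ℝ) i]
  have h5 : (1:ℝ) ≤ i.factorial * √(i.factorial) := by nlinarith
  have h6 : (1:ℝ) ≤ (i.factorial * √(i.factorial)) * D ^ i := by nlinarith
  nlinarith

lemma al0_b (I : Set ℝ) : ∀ i, ∀ t ∈ I, |al0 i t| ≤ 1 * wD 1 i := by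
  intro i t _
  unfold al0
  rw [abs_pow, abs_neg, abs_one, one_pow, one_mul]
  exact one_le_wD i le_rfl

lemma g0_al0 (m : ℕ) (s : ℝ) : g0 m al0 0 s = bes m s := by
  unfold g0 bes al0
  refine tsum_congr fun i => ?_
  rw [neg_pow s]; ring

/-- the derivative -/
noncomputable def bes1 (m : ℕ) (z : ℝ) : ℝ := g1 m al0 0 z

section
variable {m : ℕ} (hm : 1 ≤ m)
include hm

lemma bes_d (z : ℝ) : HasDerivAt (bes m) (bes1 m z) z := by
  have h := g0_ds hm zero_le_one zero_le_one (S := |z| + 1) (by linarith [abs_nonneg z])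
    (al0_b univ) (t := 0) (mem_univ _) (s := z) (by linarith)
  have e : g0 m al0 0 = bes m := by funext s; exact g0_al0 m s
  rw [e] at h
  exact h

lemma bes1_d (z : ℝ) : HasDerivAt (bes1 m) (g2 m al0 0 z) z :=
  g1_ds hm zero_le_one zero_le_one (S := |z| + 1) (by linarith [abs_nonneg z])
    (al0_b univ) (t := 0) (mem_univ _) (s := z) (by linarith)

lemma bes_ode (z : ℝ) : 4 * z * g2 m al0 0 z + 2 * m * bes1 m z = -bes m z := by
  have h := radial hm zero_le_one zero_le_one (S := |z| + 1) (by linarith [abs_nonneg z])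
    (al0_b univ) (t := 0) (mem_univ _) (s := z) (by linarith)
  rw [show bes1 m z = g1 m al0 0 z from rfl, h, ← g0_al0]
  unfold gt g0 al0
  rw [← tsum_neg]
  refine tsum_congr fun i => ?_
  rw [pow_succ]; ring

omit hm in
lemma bes_zero (m : ℕ) : bes m 0 = 1 := by
  unfold bes
  rw [tsum_eq_single 0]
  · simp [cc]
  · intro k hk
    rw [neg_zero, zero_pow hk, zero_div]

lemma bes_energy {z : ℝ} (hz : 0 ≤ z) : bes m z ^ 2 + 4 * z * bes1 m z ^ 2 ≤ 1 := by
  have hd : ∀ z : ℝ, HasDerivAt (fun z => bes m z ^ 2 + 4 * z * bes1 m z ^ 2)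
      (4 * (1 - m) * bes1 m z ^ 2) z := by
    intro z
    have h1 := (bes_d hm z).pow 2
    have h2 := ((hasDerivAt_id z).const_mul 4).mul ((bes1_d hm z).pow 2)
    refine (h1.add h2).congr_deriv ?_
    have h3 := bes_ode hm z
    have h4 : bes m z = -(4 * z * g2 m al0 0 z + 2 * m * bes1 m z) := by linarith
    simp only [Nat.cast_ofNat, id]
    rw [h4]
    norm_num
    ring
  have ha : AntitoneOn (fun z => bes m z ^ 2 + 4 * z * bes1 m z ^ 2) (Ici 0) := by
    refine antitoneOn_of_deriv_nonpos (convex_Ici 0)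
      (fun z _ => (hd z).continuousAt.continuousWithinAt)
      (fun z _ => (hd z).differentiableAt.differentiableWithinAt) fun z _ => ?_
    rw [(hd z).deriv]
    have : (1:ℝ) ≤ m := by exact_mod_cast hm
    nlinarith [sq_nonneg (bes1 m z)]
  have h := ha (self_mem_Ici) hz hz
  simp only [bes_zero, mul_zero, zero_mul, add_zero, one_pow] at h
  exact h

lemma bes_le {z : ℝ} (hz : 0 ≤ z) : |bes m z| ≤ 1 := by
  have h := bes_energy hm hz
  have h2 : 0 ≤ 4 * z * bes1 m z ^ 2 := by positivity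
  rw [abs_le_one_iff_mul_self_le_one]
  nlinarith

end

/-- the free tower -/
noncomputable def bt (c l : ℕ → ℝ) (i : ℕ) (t : ℝ) : ℝ :=
  ∑' k, c k * ((-l k) ^ i * Real.exp (-(l k * t)))

lemma pe {x t t0 : ℝ} (hx : 0 ≤ x) (ht0 : 0 < t0) (ht : t0 ≤ t) (i : ℕ) :
    x ^ i * Real.exp (-(x * t)) ≤ i.factorial * (1 / t0) ^ i := by
  have h1 := Real.pow_div_factorial_le_exp (x * t0) (mul_nonneg hx ht0.le) i
  have hf : (0:ℝ) < i.factorial := by positivity
  rw [div_le_iff₀ hf] at h1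
  have h2 : Real.exp (-(x * t)) ≤ Real.exp (-(x * t0)) :=
    Real.exp_le_exp.2 (by nlinarith)
  calc x ^ i * Real.exp (-(x * t)) ≤ x ^ i * Real.exp (-(x * t0)) := by gcongr
    _ = (x * t0) ^ i * Real.exp (-(x * t0)) * (1 / t0) ^ i := by
        rw [mul_pow, one_div, inv_pow]; field_simp
    _ ≤ (Real.exp (x * t0) * i.factorial) * Real.exp (-(x * t0)) * (1 / t0) ^ i := by gcongr
    _ = _ := by
        rw [Real.exp_neg]; field_simp

section
variable {c l : ℕ → ℝ} (hc : Summable fun k => |c k|) (hl : ∀ k, 0 ≤ l k)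
include hl

lemma bt_term {t t0 : ℝ} (ht0 : 0 < t0) (ht : t0 ≤ t) (i k : ℕ) :
    |c k * ((-l k) ^ i * Real.exp (-(l k * t)))| ≤ |c k| * (i.factorial * (1 / t0) ^ i) := by
  rw [abs_mul, abs_mul, abs_pow, abs_neg, abs_of_nonneg (hl k), abs_of_pos (Real.exp_pos _)]
  have := pe (hl k) ht0 ht i
  gcongr

include hc

lemma bt_bound {t t0 : ℝ} (ht0 : 0 < t0) (ht : t0 ≤ t) (i : ℕ) :
    |bt c l i t| ≤ (∑' k, |c k|) * (i.factorial * (1 / t0) ^ i) := by
  have hs := hc.mul_right (i.factorial * (1 / t0) ^ i)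
  have h3 : Summable fun k => c k * ((-l k) ^ i * Real.exp (-(l k * t))) :=
    Summable.of_norm_bounded hs (bt_term hl ht0 ht i)
  have h4 := norm_tsum_le_tsum_norm h3.norm
  have h5 := Summable.tsum_le_tsum (bt_term hl ht0 ht i) h3.norm hs
  rw [tsum_mul_right] at h5
  exact h4.trans h5

lemma bt_deriv {t : ℝ} (ht : 0 < t) (i : ℕ) : HasDerivAt (bt c l i) (bt c l (i + 1) t) t := by
  unfold bt
  refine hasDerivAt_tsum_of_isPreconnected
    (u := fun k => |c k| * ((i + 1).factorial * (1 / (t / 2)) ^ (i + 1)))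
    (g := fun k t => c k * ((-l k) ^ i * Real.exp (-(l k * t))))
    (g' := fun k t => c k * ((-l k) ^ (i + 1) * Real.exp (-(l k * t))))
    (hc.mul_right _) isOpen_Ioi (isPreconnected_Ioi (a := t / 2)) (fun k y _ => ?_)
    (fun k y hy => bt_term hl (half_pos ht) (le_of_lt hy) (i + 1) k)
    (y₀ := t) (by simp only [mem_Ioi]; linarith) ?_ (by simp only [mem_Ioi]; linarith)
  · have h1 : HasDerivAt (fun t => -(l k * t)) (-(l k * 1)) y :=
      ((hasDerivAt_id y).const_mul (l k)).neg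
    refine ((h1.exp.const_mul ((-l k) ^ i)).const_mul (c k)).congr_deriv ?_
    rw [pow_succ]; ring
  · exact Summable.of_norm_bounded (hc.mul_right _) (bt_term hl ht le_rfl i)

end

/-- the controlled tower -/
noncomputable def At (c l : ℕ → ℝ) (σ : ℝ) (i : ℕ) (t : ℝ) : ℝ :=
  tw (fun j τ => bt c l j (τ + σ)) σ i (t - σ)

lemma tw_left (b : ℕ → ℝ → ℝ) {σ : ℝ} (hσ : 0 < σ) (i : ℕ) {t : ℝ} (ht : t ≤ 0) :
    tw b σ i t = b i t := by
  have ht' : t / σ ≤ 0 := div_nonpos_of_nonpos_of_nonneg ht hσ.le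
  unfold tw
  rw [Finset.sum_eq_single (0, i)]
  · simp [cut_left ht']
  · rintro ⟨a, l⟩ hab hne
    rw [Finset.HasAntidiagonal.mem_antidiagonal] at hab
    simp only at hab
    have ha : a ≠ 0 := by
      rintro rfl
      apply hne
      rw [zero_add] at hab
      rw [hab]
    obtain ⟨a', rfl⟩ := Nat.exists_eq_succ_of_ne_zero ha
    simp only
    rw [cut_left' ht']; ring
  · intro h
    exact absurd (Finset.HasAntidiagonal.mem_antidiagonal.2 (zero_add i)) h

section
variable {c l : ℕ → ℝ} (hc : Summable fun k => |c k|) (hl : ∀ k, 0 ≤ l k) {σ : ℝ} (hσ : 0 < σ)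
include hσ

lemma At_left (i : ℕ) {t : ℝ} (ht : t ≤ σ) : At c l σ i t = bt c l i t := by
  unfold At
  rw [tw_left _ hσ i (by linarith), sub_add_cancel]

lemma At_end (i : ℕ) : At c l σ i (2 * σ) = 0 := tw_end _ hσ i (by linarith)

include hc hl

lemma At_deriv (i : ℕ) {t : ℝ} (ht : 0 < t) : HasDerivAt (At c l σ i) (At c l σ (i + 1) t) t := by
  have h0 : ∀ j, HasDerivAt (fun τ => bt c l j (τ + σ)) (bt c l (j + 1) (t - σ + σ)) (t - σ) := by
    intro j
    have h1 : HasDerivAt (bt c l j) (bt c l (j + 1) (t - σ + σ)) (t - σ + σ) :=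
      bt_deriv hc hl (by linarith) j
    have h2 := HasDerivAt.comp (t - σ) (h := fun τ : ℝ => τ + σ) h1
      ((hasDerivAt_id (t - σ)).add_const σ)
    exact h2.congr_deriv (by ring)
  have h1 := tw_deriv_at (b := fun j τ => bt c l j (τ + σ)) h0 σ i
  have h2 := HasDerivAt.comp t (h := fun t : ℝ => t - σ) h1 ((hasDerivAt_id t).sub_const σ)
  exact h2.congr_deriv (by rw [mul_one]; rfl)

lemma At_bound {t0 : ℝ} (ht0 : 0 < t0) : ∃ K D : ℝ, 0 ≤ K ∧ 0 ≤ D ∧
    ∀ k, ∀ t ∈ Ioi t0, |At c l σ k t| ≤ K * wD D k := by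
  have hCc := Cc_pos
  have hC : 0 ≤ ∑' k, |c k| := tsum_nonneg fun k => abs_nonneg _
  refine ⟨Cc * ∑' k, |c k|, max (7 / σ) (1 / t0), by positivity,
    le_trans (by positivity) (le_max_left _ _), fun k t ht => ?_⟩
  refine tw_le hσ hC (le_max_left _ _) (fun j => ?_) k
  have e : t - σ + σ = t := by ring
  simp only [e]
  refine (bt_bound hc hl ht0 (le_of_lt ht) j).trans ?_
  have : (1 / t0) ^ j ≤ (max (7 / σ) (1 / t0)) ^ j :=
    pow_le_pow_left₀ (by positivity) (le_max_right _ _) j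
  gcongr

end

end Pool.Agent.V5helper93.NS
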