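import Pool.Agent.V5helper93.NS.Bes

/-! # Free flows: initial value and energy -/

set_option autoImplicit false
set_option linter.all false

open MeasureTheory Set Filter Topology
open scoped ENNReal

namespace Pool.Agent.V5helper93.NS

open Pool.Agent.Y308.BC

lemma u_sum {a : ℝ} (ha : 0 ≤ a) :
    Summable fun i : ℕ => (i.factorial * a ^ i) / ((2 * i).factorial : ℝ) := by
  refine Summable.of_nonneg_of_le (fun i => by positivity) (fun i => ?_) (maj_summable ha)
  unfold maj wD
  have h1 : (1:ℝ) ≤ i.factorial := by exact_mod_cast Nat.one_le_iff_ne_zero.2 (Nat.factorial_ne_zero i)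
  have h2 : (1:ℝ) ≤ √(i.factorial) := Real.one_le_sqrt.2 h1
  have h4 : (1:ℝ) ≤ i + 1 := by linarith [Nat.cast_nonneg (α := ℝ) i]
  have h5 : (i.factorial : ℝ) * a ^ i ≤ (i + 1) * ((i.factorial * √(i.factorial)) * a ^ i) := by
    have h6 : (1:ℝ) ≤ (i + 1) * √(i.factorial) := by nlinarith
    have h7 : 0 ≤ (i.factorial : ℝ) * a ^ i := by positivity
    nlinarith
  gcongr

lemma cs_tsum {a y : ℕ → ℝ} (ha : ∀ k, 0 ≤ a k) (hs : Summable a)
    (h1 : Summable fun k => a k * y k) (h2 : Summable fun k => a k * y k ^ 2) :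
    (∑' k, a k * y k) ^ 2 ≤ (∑' k, a k) * ∑' k, a k * y k ^ 2 := by
  have h3 : ∀ θ : ℝ, 0 ≤ (∑' k, a k) * (θ * θ) + (-2 * ∑' k, a k * y k) * θ +
      ∑' k, a k * y k ^ 2 := by
    intro θ
    have h4 : (∑' k, a k) * (θ * θ) + (-2 * ∑' k, a k * y k) * θ + ∑' k, a k * y k ^ 2 =
        ∑' k, a k * (y k - θ) ^ 2 := by
      have e1 : ∀ k, a k * (y k - θ) ^ 2 = a k * (θ * θ) + a k * y k * (-2 * θ) + a k * y k ^ 2 := by
        intro k; ring
      simp_rw [e1]
      rw [((hs.mul_right _).add (h1.mul_right _)).tsum_add h2,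
        (hs.mul_right _).tsum_add (h1.mul_right _), tsum_mul_right, tsum_mul_right]
      ring
    rw [h4]
    exact tsum_nonneg fun k => mul_nonneg (ha k) (sq_nonneg _)
  have h5 := discrim_le_zero h3
  unfold discrim at h5
  nlinarith

section
variable {c l : ℕ → ℝ} (hc : Summable fun k => |c k|) (hl : ∀ k, 0 ≤ l k)
include hc hl

lemma swap {t : ℝ} (ht : 0 < t) {q : ℕ → ℝ} {Q : ℝ} (hQ : 0 ≤ Q)
    (hq : ∀ i, |q i| ≤ Q ^ i / (2 * i).factorial) :
    ∑' i, bt c l i t * q i =
      ∑' k, c k * Real.exp (-(l k * t)) * ∑' i, (-l k) ^ i * q i := by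
  have hu := u_sum (a := 1 / t * Q) (by positivity)
  have hprod := hu.mul_of_nonneg hc (fun i => by
    show (0:ℝ) ≤ _
    positivity) (fun k => abs_nonneg _)
  have hF : Summable (Function.uncurry fun i k : ℕ =>
      c k * ((-l k) ^ i * Real.exp (-(l k * t))) * q i) := by
    refine Summable.of_norm_bounded hprod fun x => ?_
    show |c x.2 * ((-l x.2) ^ x.1 * Real.exp (-(l x.2 * t))) * q x.1| ≤ _
    rw [abs_mul]
    calc |c x.2 * ((-l x.2) ^ x.1 * Real.exp (-(l x.2 * t)))| * |q x.1| ≤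
        (|c x.2| * (x.1.factorial * (1 / t) ^ x.1)) * (Q ^ x.1 / (2 * x.1).factorial) := by
          have e1 := bt_term hl ht le_rfl x.1 x.2 (c := c)
          have e2 := hq x.1
          gcongr
      _ = _ := by
          show _ = (x.1.factorial * (1 / t * Q) ^ x.1) / ((2 * x.1).factorial : ℝ) * |c x.2|
          rw [mul_pow]; ring
  have h1 : ∀ i, bt c l i t * q i = ∑' k, c k * ((-l k) ^ i * Real.exp (-(l k * t))) * q i := by
    intro i
    unfold bt
    rw [tsum_mul_right]
  simp_rw [h1]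
  rw [← hF.tsum_comm]
  refine tsum_congr fun k => ?_
  rw [← tsum_mul_left]
  refine tsum_congr fun i => ?_
  ring

lemma free0 {m : ℕ} (hm : 1 ≤ m) {t : ℝ} (ht : 0 < t) (s : ℝ) :
    ∑' i, bt c l i t * (s ^ i / cc m i) =
      ∑' k, c k * Real.exp (-(l k * t)) * bes m (l k * s) := by
  rw [swap hc hl ht (Q := |s|) (abs_nonneg _) (fun i => ?_)]
  · refine tsum_congr fun k => ?_
    congr 1
    unfold bes
    refine tsum_congr fun i => ?_
    rw [← neg_mul, mul_pow]; ring
  · rw [abs_div, abs_pow, abs_of_pos (cc_pos hm i)]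
    have h2 := cc_ge hm i
    have h3 := cc_pos hm i
    gcongr

lemma free1 {m : ℕ} (hm : 1 ≤ m) {t : ℝ} (ht : 0 < t) (s : ℝ) :
    ∑' i, bt c l i t * ((i : ℝ) * s ^ (i - 1) / cc m i) =
      ∑' k, c k * Real.exp (-(l k * t)) * (l k * bes1 m (l k * s)) := by
  rw [swap hc hl ht (Q := 2 * max |s| 1) (by positivity) (fun i => ?_)]
  · refine tsum_congr fun k => ?_
    congr 1
    unfold bes1 g1 al0
    rw [← tsum_mul_left]
    refine tsum_congr fun i => ?_
    rcases i with _ | i
    · simp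
    · rw [Nat.add_sub_cancel, mul_pow, neg_pow (l k) (i + 1), pow_succ (l k) i]; ring
  · rw [abs_div, abs_mul, abs_pow, Nat.abs_cast, abs_of_pos (cc_pos hm i), mul_pow]
    have h2 := cc_ge hm i
    have h3 := cc_pos hm i
    have h4 := pw (S := max |s| 1) (le_max_right _ _) (s := s) (le_max_left _ _) (i - 1) i
      (Nat.sub_le _ _)
    have h5 := two_ge i
    gcongr

/-- the initial value -/
lemma init_le {m : ℕ} (hm : 1 ≤ m) {t s B : ℝ} (ht : 0 < t) (hs : 0 ≤ s)
    (hB : ∀ k, c k * bes m (l k * B) = 0) :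
    |(∑' i, bt c l i t * (s ^ i / cc m i)) - (∑' i, bt c l i t * (B ^ i / cc m i)) -
      ∑' k, c k * bes m (l k * s)| ≤ ∑' k, |c k| * (1 - Real.exp (-(l k * t))) := by
  rw [free0 hc hl hm ht, free0 hc hl hm ht]
  have hz : ∀ k, c k * Real.exp (-(l k * t)) * bes m (l k * B) = 0 := fun k => by
    rw [mul_right_comm, hB, zero_mul]
  simp_rw [hz]
  simp only [tsum_zero, sub_zero]
  have he : ∀ k, Real.exp (-(l k * t)) ≤ 1 := fun k => by
    rw [Real.exp_le_one_iff]
    have := mul_nonneg (hl k) ht.le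
    linarith
  have hb : ∀ k, |bes m (l k * s)| ≤ 1 := fun k => bes_le hm (mul_nonneg (hl k) hs)
  have s1 : Summable fun k => c k * Real.exp (-(l k * t)) * bes m (l k * s) := by
    refine Summable.of_norm_bounded hc fun k => ?_
    rw [Real.norm_eq_abs, abs_mul, abs_mul, abs_of_pos (Real.exp_pos _)]
    calc |c k| * Real.exp (-(l k * t)) * |bes m (l k * s)| ≤ |c k| * 1 * 1 := by
          have := he k
          have := hb k
          gcongr
      _ = |c k| := by ring
  have s2 : Summable fun k => c k * bes m (l k * s) := by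
    refine Summable.of_norm_bounded hc fun k => ?_
    rw [Real.norm_eq_abs, abs_mul]
    have := hb k
    have := abs_nonneg (c k)
    nlinarith
  rw [← s1.tsum_sub s2]
  have hle : ∀ k, ‖c k * Real.exp (-(l k * t)) * bes m (l k * s) - c k * bes m (l k * s)‖ ≤
      |c k| * (1 - Real.exp (-(l k * t))) := by
    intro k
    have e1 : c k * Real.exp (-(l k * t)) * bes m (l k * s) - c k * bes m (l k * s) =
        -(c k * (1 - Real.exp (-(l k * t))) * bes m (l k * s)) := by ring
    have e2 : 0 ≤ 1 - Real.exp (-(l k * t)) := by linarith [he k]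
    rw [e1, norm_neg, Real.norm_eq_abs, abs_mul, abs_mul, abs_of_nonneg e2]
    have h5 := hb k
    have h6 : 0 ≤ |c k| * (1 - Real.exp (-(l k * t))) := by positivity
    nlinarith
  have s3 : Summable fun k => |c k| * (1 - Real.exp (-(l k * t))) := by
    refine Summable.of_nonneg_of_le (fun k => ?_) (fun k => ?_) hc
    · have : 0 ≤ 1 - Real.exp (-(l k * t)) := by linarith [he k]
      positivity
    · have := Real.exp_pos (-(l k * t))
      have := abs_nonneg (c k)
      nlinarith
  exact tsum_of_norm_bounded s3.hasSum hle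

lemma init_tendsto : Tendsto (fun t : ℝ => ∑' k, |c k| * (1 - Real.exp (-(l k * t)))) (𝓝[>] 0)
    (𝓝 0) := by
  have h := tendsto_tsum_of_dominated_convergence (𝓕 := 𝓝[>] (0:ℝ))
    (f := fun t k => |c k| * (1 - Real.exp (-(l k * t)))) (g := fun _ => (0:ℝ))
    (bound := fun k => |c k|) hc (fun k => ?_) ?_
  · simpa using h
  · have h1 : Continuous fun t : ℝ => |c k| * (1 - Real.exp (-(l k * t))) := by fun_prop
    have h2 := h1.tendsto 0
    simp only [mul_zero, neg_zero, Real.exp_zero, sub_self] at h2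
    exact h2.mono_left nhdsWithin_le_nhds
  · filter_upwards [self_mem_nhdsWithin] with t ht k
    have ht' : (0:ℝ) < t := ht
    have h3 : Real.exp (-(l k * t)) ≤ 1 := by
      rw [Real.exp_le_one_iff]
      have := mul_nonneg (hl k) ht'.le
      linarith
    have h4 := Real.exp_pos (-(l k * t))
    have h5 : 0 ≤ 1 - Real.exp (-(l k * t)) := by linarith
    rw [Real.norm_eq_abs, abs_mul, abs_abs, abs_of_nonneg h5]
    have := abs_nonneg (c k)
    nlinarith

/-- the energy bound -/
lemma en_le {m : ℕ} (hm : 1 ≤ m) {t s : ℝ} (ht : 0 < t) (hs : 0 ≤ s) :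
    4 * s * (∑' i, bt c l i t * ((i : ℝ) * s ^ (i - 1) / cc m i)) ^ 2 ≤
      (∑' k, |c k|) * ∑' k, |c k| * (l k * Real.exp (-(l k * (2 * t)))) := by
  rw [free1 hc hl hm ht]
  set y : ℕ → ℝ := fun k => √(4 * s) * |Real.exp (-(l k * t)) * (l k * bes1 m (l k * s))| with hy
  have hy2 : ∀ k, y k ^ 2 ≤ l k * Real.exp (-(l k * (2 * t))) := by
    intro k
    have h1 := bes_energy hm (mul_nonneg (hl k) hs)
    have h2 : 4 * (l k * s) * bes1 m (l k * s) ^ 2 ≤ 1 := by
      nlinarith [sq_nonneg (bes m (l k * s))]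
    have h3 : y k ^ 2 = (Real.exp (-(l k * t)) ^ 2 * l k) * (4 * (l k * s) * bes1 m (l k * s) ^ 2) := by
      simp only [hy]
      rw [mul_pow, Real.sq_sqrt (by positivity), sq_abs]; ring
    have h4 : Real.exp (-(l k * t)) ^ 2 = Real.exp (-(l k * (2 * t))) := by
      rw [← Real.exp_nat_mul]; congr 1; push_cast; ring
    rw [h3, h4]
    have h5 : 0 ≤ Real.exp (-(l k * (2 * t))) * l k := mul_nonneg (Real.exp_pos _).le (hl k)
    nlinarith
  have hb : ∀ k, l k * Real.exp (-(l k * (2 * t))) ≤ 1 / (2 * t) := by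
    intro k
    have := pe (hl k) (by linarith : 0 < 2 * t) le_rfl 1
    simpa using this
  have hY : ∀ k, y k ≤ √(1 / (2 * t)) := fun k =>
    Real.le_sqrt_of_sq_le ((hy2 k).trans (hb k))
  have hy0 : ∀ k, 0 ≤ y k := fun k => by simp only [hy]; positivity
  have s1 : Summable fun k => |c k| * y k :=
    Summable.of_nonneg_of_le (fun k => mul_nonneg (abs_nonneg _) (hy0 k))
      (fun k => mul_le_mul_of_nonneg_left (hY k) (abs_nonneg _)) (hc.mul_right _)
  have s3 : Summable fun k => |c k| * (l k * Real.exp (-(l k * (2 * t)))) :=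
    Summable.of_nonneg_of_le (fun k => mul_nonneg (abs_nonneg _)
      (mul_nonneg (hl k) (Real.exp_pos _).le))
      (fun k => mul_le_mul_of_nonneg_left (hb k) (abs_nonneg _)) (hc.mul_right _)
  have s2 : Summable fun k => |c k| * y k ^ 2 :=
    Summable.of_nonneg_of_le (fun k => by positivity)
      (fun k => mul_le_mul_of_nonneg_left (hy2 k) (abs_nonneg _)) s3
  have e1 : |√(4 * s) * ∑' k, c k * Real.exp (-(l k * t)) * (l k * bes1 m (l k * s))| ≤
      ∑' k, |c k| * y k := by
    rw [← tsum_mul_left, ← Real.norm_eq_abs]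
    refine tsum_of_norm_bounded s1.hasSum fun k => le_of_eq ?_
    simp only [hy]
    rw [Real.norm_eq_abs]
    simp only [abs_mul, abs_of_nonneg (Real.sqrt_nonneg _)]
    ring
  have e2 : 4 * s * (∑' k, c k * Real.exp (-(l k * t)) * (l k * bes1 m (l k * s))) ^ 2 =
      |√(4 * s) * ∑' k, c k * Real.exp (-(l k * t)) * (l k * bes1 m (l k * s))| ^ 2 := by
    rw [sq_abs, mul_pow, Real.sq_sqrt (by positivity)]
  rw [e2]
  have h0 : 0 ≤ ∑' k, |c k| := tsum_nonneg fun k => abs_nonneg _
  calc _ ≤ (∑' k, |c k| * y k) ^ 2 := pow_le_pow_left₀ (abs_nonneg _) e1 2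
    _ ≤ (∑' k, |c k|) * ∑' k, |c k| * y k ^ 2 := cs_tsum (fun k => abs_nonneg _) hc s1 s2
    _ ≤ _ := mul_le_mul_of_nonneg_left (Summable.tsum_le_tsum
        (fun k => mul_le_mul_of_nonneg_left (hy2 k) (abs_nonneg _)) s2 s3) h0

lemma H_int {T : ℝ} (hT : 0 < T) : IntegrableOn
    (fun t => ∑' k, |c k| * (l k * Real.exp (-(l k * (2 * t))))) (Ioo 0 T) := by
  have ha : Summable fun k => |(|c k|)| := by simpa using hc
  have hl2 : ∀ k, 0 ≤ 2 * l k := fun k => mul_nonneg zero_le_two (hl k)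
  have h1 : IntegrableOn (fun t => -(2⁻¹ * bt (fun k => |c k|) (fun k => 2 * l k) 1 t)) (Ioc 0 T) := by
    refine intervalIntegral.integrableOn_deriv_of_nonneg
      (g := fun t => -(2⁻¹ * bt (fun k => |c k|) (fun k => 2 * l k) 0 t)) ?_ ?_ ?_
    · refine ContinuousOn.neg (continuousOn_const.mul ?_)
      unfold bt
      refine continuousOn_tsum (u := fun k => |c k|) (fun k => by fun_prop) hc fun k t ht => ?_
      rw [pow_zero, one_mul, Real.norm_eq_abs, abs_mul, abs_abs, abs_of_pos (Real.exp_pos _)]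
      have h3 : Real.exp (-(2 * l k * t)) ≤ 1 := by
        rw [Real.exp_le_one_iff]
        have := mul_nonneg (hl2 k) ht.1
        linarith
      have := abs_nonneg (c k)
      nlinarith
    · intro t ht
      exact ((bt_deriv ha hl2 ht.1 0).const_mul _).neg
    · intro t ht
      unfold bt
      rw [← mul_neg, ← tsum_neg]
      refine mul_nonneg (by norm_num) (tsum_nonneg fun k => ?_)
      rw [pow_one]
      have := mul_nonneg (abs_nonneg (c k)) (mul_nonneg (hl2 k) (Real.exp_pos (-(2 * l k * t))).le)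
      linarith
  refine (h1.mono_set Ioo_subset_Ioc_self).congr_fun (fun t _ => ?_) measurableSet_Ioo
  show -(2⁻¹ * bt (fun k => |c k|) (fun k => 2 * l k) 1 t) = _
  unfold bt
  rw [← tsum_mul_left, ← tsum_neg]
  refine tsum_congr fun k => ?_
  rw [pow_one, show -(2 * l k * t) = -(l k * (2 * t)) by ring]
  ring

end

end Pool.Agent.V5helper93.NS
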