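import Pool.Agent.V5helper93.NS.Scale

/-! # Profiles between two walls, driven by the pressure gradient -/

set_option autoImplicit false
set_option linter.all false

open MeasureTheory Set Filter Topology
open scoped ENNReal Interval

namespace Pool.Agent.V5helper93.NS

open Pool.Agent.Y308.BC

section
variable {α : ℕ → ℝ → ℝ} {K D : ℝ} {I : Set ℝ} (hD : 0 ≤ D) (hK : 0 ≤ K)
  (hb : ∀ i, ∀ t ∈ I, |α i t| ≤ K * wD D i)
include hD hK hb

lemma hs_cont2 (hc : ∀ i, ContinuousOn (α i) I) :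
    ContinuousOn (fun q : ℝ × ℝ => hs α q.1 q.2) (I ×ˢ Icc (-1) 1) := by
  unfold hs
  refine continuousOn_tsum (u := fun i => 2 * K * maj (8 * D) i) (fun i => ?_) (S8 hD hK hb)
    fun i q hq => t0_le hD hK hb hq.1 ((abs_le.2 hq.2).trans (by norm_num)) i
  exact ((hc i).comp continuousOn_fst fun q hq => hq.1).mul (by fun_prop)

lemma hsx_cont2 (hc : ∀ i, ContinuousOn (α i) I) :
    ContinuousOn (fun q : ℝ × ℝ => hsx α q.1 q.2) (I ×ˢ Icc (-1) 1) := by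
  unfold hsx
  refine continuousOn_tsum (u := fun i => 2 * K * maj (8 * D) i) (fun i => ?_) (S8 hD hK hb)
    fun i q hq => t1_le hD hK hb hq.1 ((abs_le.2 hq.2).trans (by norm_num)) i
  exact ((hc i).comp continuousOn_fst fun q hq => hq.1).mul (by fun_prop)

lemma hsxx_cont2 (hc : ∀ i, ContinuousOn (α i) I) :
    ContinuousOn (fun q : ℝ × ℝ => hsxx α q.1 q.2) (I ×ˢ Icc (-1) 1) := by
  unfold hsxx
  refine continuousOn_tsum (u := fun i => 2 * K * maj (8 * D) (i + 1)) (fun i => ?_)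
    (S8' hD hK hb)
    fun i q hq => t2_le hD hK hb hq.1 ((abs_le.2 hq.2).trans (by norm_num)) i
  exact ((hc (i + 1)).comp continuousOn_fst fun q hq => hq.1).mul (by fun_prop)

end

lemma glue' {f : ℝ × ℝ → ℝ} {S : Set ℝ}
    (h : ∀ s0, 0 < s0 → ContinuousOn f (Ioi s0 ×ˢ S)) : ContinuousOn f (Ioi 0 ×ˢ S) := by
  intro q hq
  have hq1 : (0:ℝ) < q.1 := hq.1
  refine ((h (q.1 / 2) (half_pos hq1)) q ⟨by simp only [mem_Ioi]; linarith, hq.2⟩).mono_of_mem_nhdsWithin ?_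
  rw [mem_nhdsWithin]
  exact ⟨Ioi (q.1 / 2) ×ˢ univ, isOpen_Ioi.prod isOpen_univ,
    ⟨by simp only [mem_Ioi]; linarith, mem_univ _⟩, fun p hp => ⟨hp.1.1, hp.2.2⟩⟩

section
variable {c : ℝ → ℝ} (hcM : MemLp c 2 mu) {σ : ℝ} (hσ : 0 < σ)
include hcM hσ

lemma w_cont2 : ContinuousOn (fun q : ℝ × ℝ => w c σ q.1 q.2) (Ioi 0 ×ˢ Icc (-1) 1) := by
  obtain ⟨B, hB, hb⟩ := cf_bdd hcM
  exact glue' fun s0 hs0 => hs_cont2 (Dnn hB hb hσ) (Knn hB hb hσ)
    (fun i s (hs : s ∈ Ioi s0) => A_le hB hb hσ hs0 i (le_of_lt hs))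
    (fun i => A_contOn hB hb hσ hs0 i)

lemma wx_cont2 : ContinuousOn (fun q : ℝ × ℝ => wx c σ q.1 q.2) (Ioi 0 ×ˢ Icc (-1) 1) := by
  obtain ⟨B, hB, hb⟩ := cf_bdd hcM
  exact glue' fun s0 hs0 => hsx_cont2 (Dnn hB hb hσ) (Knn hB hb hσ)
    (fun i s (hs : s ∈ Ioi s0) => A_le hB hb hσ hs0 i (le_of_lt hs))
    (fun i => A_contOn hB hb hσ hs0 i)

lemma wxx_cont2 : ContinuousOn (fun q : ℝ × ℝ => wxx c σ q.1 q.2) (Ioi 0 ×ˢ Icc (-1) 1) := by
  obtain ⟨B, hB, hb⟩ := cf_bdd hcM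
  exact glue' fun s0 hs0 => hsxx_cont2 (Dnn hB hb hσ) (Knn hB hb hσ)
    (fun i s (hs : s ∈ Ioi s0) => A_le hB hb hσ hs0 i (le_of_lt hs))
    (fun i => A_contOn hB hb hσ hs0 i)

end

/-- the wall shear -/
noncomputable def z (c : ℝ → ℝ) (σ t s : ℝ) : ℝ := w c σ (4 * t) (1 - 2 * s)
/-- the channel profile -/
noncomputable def vB (c : ℝ → ℝ) (σ t y : ℝ) : ℝ := ∫ s in (0:ℝ)..y, z c σ t s

lemma in11 {s : ℝ} (h : s ∈ Icc (0:ℝ) 1) : 1 - 2 * s ∈ Icc (-1:ℝ) 1 :=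
  ⟨by linarith [h.2], by linarith [h.1]⟩

lemma abs11 {s : ℝ} (h : s ∈ Icc (0:ℝ) 1) : |1 - 2 * s| < 2 := by
  have := in11 h
  rw [abs_lt]; constructor <;> linarith [this.1, this.2]

section
variable {c : ℝ → ℝ} (hcM : MemLp c 2 mu) {σ : ℝ} (hσ : 0 < σ)
include hcM hσ

lemma z_cont : ContinuousOn (fun q : ℝ × ℝ => z c σ q.1 q.2) (Ioi 0 ×ˢ Icc 0 1) :=
  (w_cont2 hcM hσ).comp (f := fun q : ℝ × ℝ => (4 * q.1, 1 - 2 * q.2)) (by fun_prop)
    fun q hq => ⟨by have := hq.1; simp only [mem_Ioi] at this ⊢; linarith, in11 hq.2⟩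

lemma z_slice {t : ℝ} (h0 : 0 < t) : ContinuousOn (z c σ t) (Icc 0 1) :=
  slice (z_cont hcM hσ) (S := Ioi 0) h0

lemma z_ii {t : ℝ} (h0 : 0 < t) {a b : ℝ} (ha : a ∈ Icc (0:ℝ) 1) (hb : b ∈ Icc (0:ℝ) 1) :
    IntervalIntegrable (z c σ t) volume a b := by
  apply ContinuousOn.intervalIntegrable
  refine (z_slice hcM hσ h0).mono ?_
  intro x hx
  rw [mem_uIcc] at hx
  rcases hx with hx | hx
  · exact ⟨ha.1.trans hx.1, hx.2.trans hb.2⟩
  · exact ⟨hb.1.trans hx.1, hx.2.trans ha.2⟩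

lemma z_dy {t y : ℝ} (h0 : 0 < t) (hy : y ∈ Icc (0:ℝ) 1) :
    HasDerivAt (z c σ t) (-2 * wx c σ (4 * t) (1 - 2 * y)) y := by
  obtain ⟨B, hB, hb⟩ := cf_bdd hcM
  have e1 : HasDerivAt (fun s : ℝ => 1 - 2 * s) (-2) y := by
    simpa using ((hasDerivAt_id y).const_mul 2).const_sub 1
  have e2 := HasDerivAt.comp y (h := fun s : ℝ => 1 - 2 * s)
    (w_dx hB hb hσ (by linarith : 0 < 4 * t) (abs11 hy)) e1
  exact e2.congr_deriv (by ring)

lemma wx_dy {t y : ℝ} (h0 : 0 < t) (hy : y ∈ Icc (0:ℝ) 1) :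
    HasDerivAt (fun s => -2 * wx c σ (4 * t) (1 - 2 * s)) (4 * wxx c σ (4 * t) (1 - 2 * y)) y := by
  obtain ⟨B, hB, hb⟩ := cf_bdd hcM
  have e1 : HasDerivAt (fun s : ℝ => 1 - 2 * s) (-2) y := by
    simpa using ((hasDerivAt_id y).const_mul 2).const_sub 1
  have e2 := (HasDerivAt.comp y (h := fun s : ℝ => 1 - 2 * s)
    (w_dxx hB hb hσ (by linarith : 0 < 4 * t) (abs11 hy)) e1).const_mul (-2)
  exact e2.congr_deriv (by ring)

lemma z_dt {t y : ℝ} (h0 : 0 < t) (hy : y ∈ Icc (0:ℝ) 1) :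
    HasDerivAt (fun t => z c σ t y) (4 * wxx c σ (4 * t) (1 - 2 * y)) t := by
  obtain ⟨B, hB, hb⟩ := cf_bdd hcM
  have e1 : HasDerivAt (fun s : ℝ => 4 * s) 4 t := by
    simpa using (hasDerivAt_id t).const_mul 4
  have e2 := HasDerivAt.comp t (h := fun s : ℝ => 4 * s)
    (w_dt hB hb hσ (by linarith : 0 < 4 * t) (abs11 hy).le) e1
  exact e2.congr_deriv (by ring)

lemma vB_dy {t y : ℝ} (h0 : 0 < t) (hy : y ∈ Ioo (0:ℝ) 1) :
    HasDerivAt (vB c σ t) (z c σ t y) y := by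
  refine intervalIntegral.integral_hasDerivAt_right
    (z_ii hcM hσ h0 ⟨le_rfl, zero_le_one⟩ (Ioo_subset_Icc_self hy)) ?_ ?_
  · exact ((z_slice hcM hσ h0).mono Ioo_subset_Icc_self).stronglyMeasurableAtFilter isOpen_Ioo y hy
  · exact (z_dy hcM hσ h0 (Ioo_subset_Icc_self hy)).continuousAt

lemma wxx_int {t y : ℝ} (h0 : 0 < t) (hy : y ∈ Icc (0:ℝ) 1) :
    ∫ s in (0:ℝ)..y, 4 * wxx c σ (4 * t) (1 - 2 * s) =
      -2 * wx c σ (4 * t) (1 - 2 * y) + 2 * wx c σ (4 * t) 1 := by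
  have hsub : ∀ s ∈ uIcc 0 y, s ∈ Icc (0:ℝ) 1 := by
    intro s hs
    rw [uIcc_of_le hy.1] at hs
    exact ⟨hs.1, hs.2.trans hy.2⟩
  rw [intervalIntegral.integral_eq_sub_of_hasDerivAt
    (f := fun s => -2 * wx c σ (4 * t) (1 - 2 * s))
    (fun s hs => wx_dy hcM hσ h0 (hsub s hs))]
  · simp only [mul_zero, sub_zero]; ring
  · apply ContinuousOn.intervalIntegrable
    have h1 : ContinuousOn (fun s => wxx c σ (4 * t) (1 - 2 * s)) (Icc 0 1) :=
      (wxx_cont2 hcM hσ).comp (f := fun s : ℝ => (4 * t, 1 - 2 * s)) (by fun_prop)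
        fun s hs => ⟨by simp only [mem_Ioi]; linarith, in11 hs⟩
    exact (h1.const_mul 4 |> fun h => h).mono hsub

lemma vB_dt {t y : ℝ} (h0 : 0 < t) (hy : y ∈ Icc (0:ℝ) 1) :
    HasDerivAt (fun t => vB c σ t y)
      (-2 * wx c σ (4 * t) (1 - 2 * y) + 2 * wx c σ (4 * t) 1) t := by
  rw [← wxx_int hcM hσ h0 hy]
  obtain ⟨C, hC⟩ := ((isCompact_Icc (a := 4 * (t / 2)) (b := 4 * (2 * t))).prod
    (isCompact_Icc (a := (-1:ℝ)) (b := 1))).exists_bound_of_continuousOn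
    ((wxx_cont2 hcM hσ).mono (prod_mono (fun s hs => by
      have := hs.1; simp only [mem_Ioi]; linarith) le_rfl))
  have hI : Ι 0 y ⊆ Icc (0:ℝ) 1 := by
    intro s hs
    rw [uIoc_of_le hy.1] at hs
    exact ⟨hs.1.le, hs.2.trans hy.2⟩
  refine (intervalIntegral.hasDerivAt_integral_of_dominated_loc_of_deriv_le
    (F := fun t s => z c σ t s) (F' := fun t s => 4 * wxx c σ (4 * t) (1 - 2 * s))
    (s := Icc (t / 2) (2 * t)) (bound := fun _ => 4 * C)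
    (Icc_mem_nhds (by linarith) (by linarith)) ?_ (z_ii hcM hσ h0 ⟨le_rfl, zero_le_one⟩ hy)
    ?_ ?_ intervalIntegrable_const ?_).2
  · filter_upwards [Ioi_mem_nhds h0] with t' ht'
    exact ((z_slice hcM hσ ht').mono hI).aestronglyMeasurable measurableSet_uIoc
  · have h1 : ContinuousOn (fun s => 4 * wxx c σ (4 * t) (1 - 2 * s)) (Icc 0 1) := by
      have h1 : ContinuousOn (fun s => wxx c σ (4 * t) (1 - 2 * s)) (Icc 0 1) :=
        (wxx_cont2 hcM hσ).comp (f := fun s : ℝ => (4 * t, 1 - 2 * s)) (by fun_prop)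
          fun s hs => ⟨by simp only [mem_Ioi]; linarith, in11 hs⟩
      exact continuousOn_const.mul h1
    exact (h1.mono hI).aestronglyMeasurable measurableSet_uIoc
  · refine Eventually.of_forall fun s hs t' ht' => ?_
    rw [norm_mul]
    have := hC (4 * t', 1 - 2 * s) ⟨⟨by linarith [ht'.1], by linarith [ht'.2]⟩, in11 (hI hs)⟩
    have h4 : ‖(4:ℝ)‖ = 4 := by norm_num
    rw [h4]
    linarith
  · exact Eventually.of_forall fun s hs t' ht' =>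
      z_dt hcM hσ (by linarith [ht'.1]) (hI hs)

lemma vB_cont : ContinuousOn (fun q : ℝ × ℝ => vB c σ q.1 q.2) (Ioi 0 ×ˢ Icc 0 1) := by
  refine glue' fun s0 hs0 => ?_
  set Z : ℝ → ℝ → ℝ := fun t s => z c σ (max t s0) (max 0 (min s 1)) with hZ
  have hZc : Continuous (Function.uncurry Z) := by
    have h1 : Continuous fun q : ℝ × ℝ => ((max q.1 s0, max 0 (min q.2 1)) : ℝ × ℝ) := by fun_prop
    have h6 : MapsTo (fun q : ℝ × ℝ => ((max q.1 s0, max 0 (min q.2 1)) : ℝ × ℝ)) univ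
        (Ioi (0:ℝ) ×ˢ Icc (0:ℝ) 1) := fun q _ =>
      ⟨lt_of_lt_of_le hs0 (le_max_right _ _), le_max_left _ _,
        max_le zero_le_one (min_le_right _ _)⟩
    have h5 := ContinuousOn.comp (z_cont hcM hσ) h1.continuousOn h6
    rw [continuousOn_univ] at h5
    exact h5
  have h2 : Continuous fun q : ℝ × ℝ => ∫ s in (0:ℝ)..q.2, Z q.1 s := by
    refine intervalIntegral.continuous_parametric_intervalIntegral_of_continuous
      (f := fun (q : ℝ × ℝ) s => Z q.1 s) ?_ continuous_snd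
    exact hZc.comp (f := fun p : (ℝ × ℝ) × ℝ => (p.1.1, p.2)) (by fun_prop)
  refine h2.continuousOn.congr fun q hq => ?_
  unfold vB
  refine intervalIntegral.integral_congr fun s hs => ?_
  rw [uIcc_of_le hq.2.1] at hs
  have h3 : max q.1 s0 = q.1 := max_eq_left (le_of_lt hq.1)
  have h4 : max 0 (min s 1) = s := by
    rw [min_eq_left (hs.2.trans hq.2.2), max_eq_right hs.1]
  show z c σ q.1 s = z c σ (max q.1 s0) (max 0 (min s 1))
  rw [h3, h4]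

omit hcM hσ in
lemma z_refl (t s : ℝ) : z c σ t (1 - s) = -z c σ t s := by
  unfold z
  rw [← w_odd]
  congr 1; ring

omit hcM hσ in
lemma vB_one (t : ℝ) : vB c σ t 1 = 0 := by
  unfold vB
  have h1 := intervalIntegral.integral_comp_sub_left (a := (0:ℝ)) (b := 1) (z c σ t) 1
  rw [sub_self, sub_zero] at h1
  simp_rw [z_refl] at h1
  rw [intervalIntegral.integral_neg] at h1
  linarith

end

end Pool.Agent.V5helper93.NS
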