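import Pool.Agent.V5helper93.NS.Channel

/-! # The profile between two walls: initial value and energy -/

set_option autoImplicit false
set_option linter.all false

open MeasureTheory Set Filter Topology
open scoped ENNReal Interval

namespace Pool.Agent.V5helper93.NS

open Pool.Agent.Y308.BC

lemma mp_refl1 : MeasurePreserving (fun x : ℝ => 1 - x) mu mu := by
  have h := (Measure.measurePreserving_sub_left (volume : Measure ℝ) 1).restrict_preimage
    (measurableSet_Ioo (a := (0:ℝ)) (b := 1))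
  rw [preimage_const_sub_Ioo, sub_self, sub_zero] at h
  exact h

/-- the data of the half channel -/
noncomputable def cB (g : ℝ → ℝ) (x : ℝ) : ℝ := g ((1 - x) / 2)

lemma cB_mem {g : ℝ → ℝ} (hg : MemLp g 2 mu) : MemLp (cB g) 2 mu := by
  have m := mp_div (l := 2) two_pos 1
  have h0 : MemLp g 2 (ENNReal.ofReal 2 • volume.restrict (Ioo (0:ℝ) 1)) :=
    hg.smul_measure ENNReal.ofReal_ne_top
  have h1 := h0.comp_measurePreserving m
  have h2 : MemLp (g ∘ fun y : ℝ => y / 2) 2 mu :=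
    h1.mono_measure (Measure.restrict_mono (Ioo_subset_Ioo le_rfl (by norm_num)) le_rfl)
  exact h2.comp_measurePreserving mp_refl1

section
variable {g : ℝ → ℝ} (hg : MemLp g 2 mu) (ho : ∀ s ∈ Ioo (0:ℝ) 1, g (1 - s) = -g s)
  {σ : ℝ} (hσ : 0 < σ)
include hg hσ

lemma zg_mem {t : ℝ} (h0 : 0 < t) : MemLp (fun s => z (cB g) σ t s - g s) 2 mu :=
  (memLp_cont (z_slice (cB_mem hg) hσ h0)).sub hg

omit hg hσ in
lemma half1 (t : ℝ) : ∫ s in (0:ℝ)..(1/2), (z (cB g) σ t s - g s) ^ 2 =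
    2⁻¹ * ∫ x in (0:ℝ)..1, (w (cB g) σ (4 * t) x - cB g x) ^ 2 := by
  have h1 := intervalIntegral.integral_comp_sub_mul (a := (0:ℝ)) (b := 1/2) (c := 2)
    (fun x => (w (cB g) σ (4 * t) x - cB g x) ^ 2) (by norm_num) 1
  have e1 : (1:ℝ) - 2 * (1 / 2) = 0 := by norm_num
  rw [e1, mul_zero, sub_zero, smul_eq_mul] at h1
  rw [← h1]
  refine intervalIntegral.integral_congr fun s _ => ?_
  have e2 : cB g (1 - 2 * s) = g s := by
    unfold cB; congr 1; ring
  show (z (cB g) σ t s - g s) ^ 2 = (w (cB g) σ (4 * t) (1 - 2 * s) - cB g (1 - 2 * s)) ^ 2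
  rw [e2]; rfl

include ho in
omit hg hσ in
lemma half2 (t : ℝ) : ∫ s in (1/2:ℝ)..1, (z (cB g) σ t s - g s) ^ 2 =
    ∫ s in (0:ℝ)..(1/2), (z (cB g) σ t s - g s) ^ 2 := by
  have h1 := intervalIntegral.integral_comp_sub_left (a := (1/2:ℝ)) (b := 1)
    (fun s => (z (cB g) σ t s - g s) ^ 2) 1
  have e1 : (1:ℝ) - 1 / 2 = 1 / 2 := by norm_num
  rw [sub_self, e1] at h1
  rw [← h1]
  have hne : ∀ᵐ s : ℝ ∂volume, s ≠ 1 := by simp [ae_iff]
  refine intervalIntegral.integral_congr_ae ?_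
  filter_upwards [hne] with s hs hs2
  rw [uIoc_of_le (by norm_num)] at hs2
  have h2 := ho s ⟨by linarith [hs2.1], lt_of_le_of_ne hs2.2 hs⟩
  rw [z_refl, h2]; ring

include ho in
lemma N_eq {t : ℝ} (h0 : 0 < t) : ∫ s in (0:ℝ)..1, (z (cB g) σ t s - g s) ^ 2 =
    ∫ x in (0:ℝ)..1, (w (cB g) σ (4 * t) x - cB g x) ^ 2 := by
  have hi := ii_sq (zg_mem hg hσ h0)
  have i1 : IntervalIntegrable (fun s => (z (cB g) σ t s - g s) ^ 2) volume 0 (1/2) :=
    hi.mono_set (by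
      rw [uIcc_of_le (by norm_num), uIcc_of_le zero_le_one]
      exact Icc_subset_Icc le_rfl (by norm_num))
  have i2 : IntervalIntegrable (fun s => (z (cB g) σ t s - g s) ^ 2) volume (1/2) 1 :=
    hi.mono_set (by
      rw [uIcc_of_le (by norm_num), uIcc_of_le zero_le_one]
      exact Icc_subset_Icc (by norm_num) le_rfl)
  rw [← intervalIntegral.integral_add_adjacent_intervals i1 i2, half2 ho, half1]
  ring

omit hg hσ in
lemma prim_sq_le {h : ℝ → ℝ} (hh : MemLp h 2 mu) {y : ℝ} (hy : y ∈ Icc (0:ℝ) 1) :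
    (∫ s in (0:ℝ)..y, h s) ^ 2 ≤ ∫ s in (0:ℝ)..1, h s ^ 2 := by
  rw [int_upto h hy, ii_mu]
  refine (cs hh (mem_ind y)).trans ?_
  have h1 : ∫ a, (Iic y).indicator (fun _ => (1:ℝ)) a ^ 2 ∂mu ≤ ∫ a, (1:ℝ) ∂mu := by
    refine integral_mono (sq_int (mem_ind y)) (integrable_const _) fun a => ?_
    by_cases ha : a ∈ Iic y
    · simp [indicator_of_mem ha]
    · simp [indicator_of_notMem ha]
  have h2 : ∫ a, (1:ℝ) ∂mu = 1 := by
    simp [Measure.real]
  rw [h2] at h1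
  have h3 : 0 ≤ ∫ a, h a ^ 2 ∂mu := integral_nonneg fun _ => sq_nonneg _
  nlinarith

lemma v_sub {t y : ℝ} (h0 : 0 < t) (hy : y ∈ Icc (0:ℝ) 1) :
    (vB (cB g) σ t y - ∫ s in (0:ℝ)..y, g s) ^ 2 ≤
      ∫ s in (0:ℝ)..1, (z (cB g) σ t s - g s) ^ 2 := by
  have i1 := z_ii (cB_mem hg) hσ h0 ⟨le_rfl, zero_le_one⟩ hy
  have i2 : IntervalIntegrable g volume 0 y := (ii_one hg).mono_set (by
    rw [uIcc_of_le hy.1, uIcc_of_le zero_le_one]
    exact Icc_subset_Icc le_rfl hy.2)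
  unfold vB
  rw [← intervalIntegral.integral_sub i1 i2]
  exact prim_sq_le (zg_mem hg hσ h0) hy

/-- the slope bounds the solution -/
lemma w_sq_le {c : ℝ → ℝ} (hcM : MemLp c 2 mu) {t x : ℝ} (h0 : 0 < t) (hx : x ∈ Icc (0:ℝ) 1) :
    w c σ t x ^ 2 ≤ ∫ s in (0:ℝ)..1, wx c σ t s ^ 2 := by
  obtain ⟨B, hB, hb⟩ := cf_bdd hcM
  have h1 : w c σ t x = ∫ s in (0:ℝ)..x, wx c σ t s := by
    rw [intervalIntegral.integral_eq_sub_of_hasDerivAt (f := w c σ t)]
    · rw [w_zero, sub_zero]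
    · intro s hs
      rw [uIcc_of_le hx.1] at hs
      exact w_dx hB hb hσ h0 (by rw [abs_of_nonneg hs.1]; linarith [hs.2, hx.2])
    · apply ContinuousOn.intervalIntegrable
      refine (wx_slice hcM hσ h0).mono ?_
      rw [uIcc_of_le hx.1]
      exact Icc_subset_Icc le_rfl hx.2
  rw [h1]
  exact prim_sq_le (memLp_cont (wx_slice hcM hσ h0)) hx

lemma z_sq_le {c : ℝ → ℝ} (hcM : MemLp c 2 mu) {t s : ℝ} (h0 : 0 < t) (hs : s ∈ Icc (0:ℝ) 1) :
    z c σ t s ^ 2 ≤ ∫ s in (0:ℝ)..1, wx c σ (4 * t) s ^ 2 := by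
  rcases le_total s (1/2) with h | h
  · exact w_sq_le hg hσ hcM (by linarith) ⟨by linarith, by linarith [hs.1]⟩
  · have h1 : z c σ t s ^ 2 = w c σ (4 * t) (2 * s - 1) ^ 2 := by
      unfold z
      have : (1 - 2 * s : ℝ) = -(2 * s - 1) := by ring
      rw [this, w_odd]; ring
    rw [h1]
    exact w_sq_le hg hσ hcM (by linarith) ⟨by linarith, by linarith [hs.2]⟩

lemma z_energy {c : ℝ → ℝ} (hcM : MemLp c 2 mu) :
    IntegrableOn (fun q : ℝ × ℝ => z c σ q.1 q.2 ^ 2) (Ioo 0 (σ / 2) ×ˢ Ioo 0 1) := by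
  have h1 := energy hcM hσ (2 * σ)
  unfold IntegrableOn at h1
  rw [Measure.volume_eq_prod, ← Measure.prod_restrict] at h1
  have h2 := h1.integral_prod_left
  have m := mp_div (l := 1 / 4) (by norm_num) (2 * σ)
  have h3 : Integrable (fun t => ∫ y, wx c σ t y ^ 2 ∂(volume.restrict (Ioo (0:ℝ) 1)))
      (ENNReal.ofReal (1 / 4) • volume.restrict (Ioo 0 (2 * σ))) :=
    h2.smul_measure ENNReal.ofReal_ne_top
  have h4 := (m.integrable_comp_emb (emb_div (by norm_num))).2 h3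
  have h5 := h4.comp_fst (volume.restrict (Ioo (0:ℝ) 1))
  have e1 : (1 / 4 * (2 * σ) : ℝ) = σ / 2 := by ring
  rw [e1, Measure.prod_restrict, ← Measure.volume_eq_prod] at h5
  refine Integrable.mono' h5 ?_ ?_
  · exact (((z_cont hcM hσ).pow 2).mono (prod_mono (fun t ht => ht.1)
      Ioo_subset_Icc_self)).aestronglyMeasurable (measurableSet_Ioo.prod measurableSet_Ioo)
  · refine ae_restrict_of_forall_mem (measurableSet_Ioo.prod measurableSet_Ioo) fun q hq => ?_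
    rw [Real.norm_eq_abs, abs_of_nonneg (sq_nonneg _)]
    have h6 := z_sq_le hg hσ hcM (t := q.1) hq.1.1 (Ioo_subset_Icc_self hq.2)
    have e2 : q.1 / (1 / 4) = 4 * q.1 := by ring
    show z c σ q.1 q.2 ^ 2 ≤ ∫ y, wx c σ (q.1 / (1 / 4)) y ^ 2 ∂mu
    rw [e2, ← ii_mu]
    exact h6

include ho in
/-- two walls -/
lemma profileB : Profile 1 (σ / 2) {0, 1} (fun y => ∫ s in (0:ℝ)..y, g s) (vB (cB g) σ)
    (z (cB g) σ) (fun t y => -2 * wx (cB g) σ (4 * t) (1 - 2 * y))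
    (fun t => 2 * wx (cB g) σ (4 * t) 1) := by
  have hcM := cB_mem hg
  refine ⟨?_, ?_, ?_, ?_, ?_, ?_, ?_, ?_, ?_, ?_⟩
  · exact (vB_cont hcM hσ).mono (prod_mono Ioc_subset_Ioi_self le_rfl)
  · exact fun t ht y hy => vB_dy hcM hσ ht.1 hy
  · exact fun t ht y hy => z_dy hcM hσ ht.1 (Ioo_subset_Icc_self hy)
  · exact fun t ht y hy => (wx_dy hcM hσ ht.1 (Ioo_subset_Icc_self hy)).continuousAt.continuousWithinAt
  · exact fun t ht y hy => vB_dt hcM hσ ht.1 (Ioo_subset_Icc_self hy)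
  · intro t ht y hy
    rcases hy with rfl | hy
    · unfold vB; exact intervalIntegral.integral_same
    · rw [mem_singleton_iff.1 hy]; exact vB_one t
  · have e2 : Tendsto (fun t : ℝ => 4 * t) (𝓝[>] 0) (𝓝[>] 0) := by
      refine tendsto_nhdsWithin_iff.2 ⟨?_, ?_⟩
      · have : Tendsto (fun t : ℝ => 4 * t) (𝓝 0) (𝓝 (4 * 0)) :=
          (continuous_const.mul continuous_id).tendsto 0
        rw [mul_zero] at this
        exact this.mono_left nhdsWithin_le_nhds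
      · filter_upwards [self_mem_nhdsWithin] with t ht
        have : (0:ℝ) < t := ht
        simp only [mem_Ioi]; linarith
    have h1 := ENNReal.tendsto_ofReal ((w_init hσ hcM).comp e2)
    rw [ENNReal.ofReal_zero] at h1
    refine tendsto_of_tendsto_of_tendsto_of_le_of_le' tendsto_const_nhds h1
      (Eventually.of_forall fun _ => bot_le) ?_
    filter_upwards [self_mem_nhdsWithin] with t ht
    have h2 : ∫⁻ y in Ioo (0:ℝ) 1, ENNReal.ofReal ((vB (cB g) σ t y - ∫ s in (0:ℝ)..y, g s) ^ 2) ≤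
        ∫⁻ y in Ioo (0:ℝ) 1, ENNReal.ofReal
          (∫ s in (0:ℝ)..1, (z (cB g) σ t s - g s) ^ 2) :=
      setLIntegral_mono measurable_const fun y hy =>
        ENNReal.ofReal_le_ofReal (v_sub hg hσ ht (Ioo_subset_Icc_self hy))
    refine h2.trans (le_of_eq ?_)
    rw [N_eq hg ho hσ ht]
    simp
  · intro y hy
    unfold vB z
    have e1 : 4 * (σ / 2) = 2 * σ := by ring
    rw [e1]
    simp_rw [w_late (cB g) hσ le_rfl]
    simp
  · exact z_energy hg hσ hcM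
  · have h1 := intervalIntegral.continuousOn_primitive_interval' (ii_one hg) left_mem_uIcc
    rw [uIcc_of_le zero_le_one] at h1
    exact (h1.mono Ioo_subset_Icc_self).aemeasurable measurableSet_Ioo

end

end Pool.Agent.V5helper93.NS
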