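import Mathlib

/-! # Controlled trajectories of the Navier-Stokes system with no-slip walls -/

set_option autoImplicit false

open MeasureTheory Set Filter Topology

namespace Pool.Agent.V5helper93.NS

/-- The space `ℝⁿ`. -/
abbrev Sp (n : ℕ) := Fin n → ℝ

/-- The partial derivative `∂_j f (x)`. -/
noncomputable def pd {n : ℕ} (j : Fin n) (f : Sp n → ℝ) (x : Sp n) : ℝ :=
  fderiv ℝ f x (Pi.single j 1)

/-- `u` (with the pressure `p`) is a trajectory on `[0, T]` of the Navier-Stokes system with unit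
viscosity in `Ω ⊆ ℝⁿ`, with no-slip condition on the walls `W` and initial value `u₀`; no condition
is imposed on the rest of the boundary. -/
structure IsTrajectory {n : ℕ} (Ω W : Set (Sp n)) (T : ℝ) (u₀ : Sp n → Sp n)
    (u : ℝ → Sp n → Sp n) (p : ℝ → Sp n → ℝ) : Prop where
  /-- for positive times `u` is continuous up to the boundary -/
  cont : ContinuousOn (fun q : ℝ × Sp n => u q.1 q.2) (Ioc 0 T ×ˢ closure Ω)
  /-- `u(t, ·)` is twice continuously differentiable in `Ω` -/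
  smooth : ∀ t ∈ Ioc 0 T, ContDiffOn ℝ 2 (u t) Ω
  /-- `u` is differentiable in the time -/
  smooth_t : ∀ t ∈ Ioc 0 T, ∀ x ∈ Ω, DifferentiableAt ℝ (fun s => u s x) t
  /-- the pressure is differentiable -/
  smooth_p : ∀ t ∈ Ioc 0 T, DifferentiableOn ℝ (p t) Ω
  /-- `∂_t u + (u · ∇) u - Δ u + ∇ p = 0` -/
  eqn : ∀ t ∈ Ioc 0 T, ∀ x ∈ Ω, ∀ i, deriv (fun s => u s x i) t
    + ∑ j, u t x j * pd j (fun y => u t y i) x
    - ∑ j, pd j (pd j fun y => u t y i) x + pd i (p t) x = 0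
  /-- `div u = 0` -/
  div : ∀ t ∈ Ioc 0 T, ∀ x ∈ Ω, ∑ j, pd j (fun y => u t y j) x = 0
  /-- `u = 0` on the walls -/
  noslip : ∀ t ∈ Ioc 0 T, ∀ x ∈ W, u t x = 0
  /-- `u(t, ·)` tends to `u₀` in `L²(Ω)` as `t` tends to `0` -/
  init : Tendsto (fun t => ∫⁻ x in Ω, ENNReal.ofReal (∑ i, (u t x i - u₀ x i) ^ 2)) (𝓝[>] 0) (𝓝 0)
  /-- `∇ u` is in `L²((0, T) × Ω)` -/
  energy : ∀ i j, IntegrableOn (fun q : ℝ × Sp n => pd j (fun y => u q.1 y i) q.2 ^ 2)
    (Ioo 0 T ×ˢ Ω)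

end Pool.Agent.V5helper93.NS
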