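import Pool.Agent.V5helper93.NS.Tower

/-! # Towers with entire initial values -/

set_option autoImplicit false
set_option linter.all false

open MeasureTheory Set Filter Topology
open scoped ENNReal

namespace Pool.Agent.V5helper93.NS

open Pool.Agent.Y308.BC

lemma tw_deriv_at {b : ℕ → ℝ → ℝ} {t : ℝ} (hb : ∀ l, HasDerivAt (b l) (b (l + 1) t) t) (σ : ℝ)
    (i : ℕ) : HasDerivAt (tw b σ i) (tw b σ (i + 1) t) t := by
  set f : ℕ → ℕ → ℝ := fun a l => ((σ⁻¹) ^ a * cut a (t / σ)) * b l t with hf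
  have h1 : ∀ ij ∈ Finset.HasAntidiagonal.antidiagonal i, HasDerivAt (fun t => (i.choose ij.1 : ℝ) *
      (((σ⁻¹) ^ ij.1 * cut ij.1 (t / σ)) * b ij.2 t))
      ((i.choose ij.1 : ℝ) * (f (ij.1 + 1) ij.2 + f ij.1 (ij.2 + 1))) t := by
    intro ij _
    have e1 : HasDerivAt (fun t => t / σ) (1 / σ) t := (hasDerivAt_id t).div_const σ
    have e2 : HasDerivAt (fun t => cut ij.1 (t / σ)) (cut (ij.1 + 1) (t / σ) * (1 / σ)) t :=
      HasDerivAt.comp t (h := fun t => t / σ) (cut_deriv ij.1 (t / σ)) e1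
    refine (((e2.const_mul ((σ⁻¹) ^ ij.1)).mul (hb ij.2)).const_mul
      (i.choose ij.1 : ℝ)).congr_deriv ?_
    simp only [hf]
    rw [pow_succ]; ring
  have h2 := HasDerivAt.fun_sum h1
  refine h2.congr_deriv ?_
  have h4 : tw b σ (i + 1) t = ∑ ij ∈ Finset.HasAntidiagonal.antidiagonal (i + 1),
    ((i + 1).choose ij.1 : ℝ) * f ij.1 ij.2 := rfl
  rw [h4, Finset.sum_antidiagonal_choose_succ_mul, ← Finset.sum_add_distrib]
  refine Finset.sum_congr rfl fun ij hij => ?_
  have h5 : i.choose ij.2 = i.choose ij.1 := by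
    rw [Finset.HasAntidiagonal.mem_antidiagonal] at hij
    exact (Nat.choose_symm_of_eq_add hij.symm).symm
  rw [h5]; ring

/-- the derivatives of the power series `∑ β k t ^ k / k!` -/
noncomputable def be (β : ℕ → ℝ) (l : ℕ) (t : ℝ) : ℝ := ∑' k, β (k + l) * (t ^ k / k.factorial)

section
variable {β : ℕ → ℝ} {C D : ℝ} (hC : 0 ≤ C) (hD : 0 < D)
  (hβ : ∀ l, |β l| ≤ C * (D ^ l * l.factorial))
include hC hD hβ

lemma be_term {t : ℝ} (ht : |t| ≤ 1 / (2 * D)) (l k : ℕ) :
    |β (k + l) * (t ^ k / k.factorial)| ≤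
      (C * (D ^ l * l.factorial)) * (((k + l).choose l : ℝ) * (1 / 2) ^ k) := by
  rw [abs_mul, abs_div, abs_pow, Nat.abs_cast]
  have h1 : D * |t| ≤ 1 / 2 := by
    calc D * |t| ≤ D * (1 / (2 * D)) := by gcongr
      _ = 1 / 2 := by field_simp
  have h2 : ((k + l).factorial : ℝ) = (k + l).choose l * k.factorial * l.factorial := by
    have := Nat.add_choose_mul_factorial_mul_factorial k l

    exact_mod_cast this.symm
  have h3 : (0:ℝ) < k.factorial := by positivity
  calc |β (k + l)| * (|t| ^ k / k.factorial) ≤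
      (C * (D ^ (k + l) * (k + l).factorial)) * (|t| ^ k / k.factorial) := by
        have := hβ (k + l)
        gcongr
    _ = (C * (D ^ l * l.factorial)) * (((k + l).choose l : ℝ) * (D * |t|) ^ k) := by
        rw [h2, pow_add, mul_pow]; field_simp
    _ ≤ _ := by gcongr

omit hC hD hβ in
lemma geo_ch (l : ℕ) : Summable fun k : ℕ => ((k + l).choose l : ℝ) * (1 / 2) ^ k :=
  summable_choose_mul_geometric_of_norm_lt_one l (by norm_num)

lemma be_bound {t : ℝ} (ht : |t| ≤ 1 / (2 * D)) (l : ℕ) :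
    |be β l t| ≤ (2 * C) * (l.factorial * (2 * D) ^ l) := by
  have hs := (geo_ch l).mul_left (C * (D ^ l * l.factorial))
  have h3 : Summable fun k => β (k + l) * (t ^ k / k.factorial) :=
    Summable.of_norm_bounded hs (be_term hC hD hβ ht l)
  have h4 := norm_tsum_le_tsum_norm h3.norm
  have h5 := Summable.tsum_le_tsum (be_term hC hD hβ ht l) h3.norm hs
  have h6 : ∑' k : ℕ, ((k + l).choose l : ℝ) * (1 / 2) ^ k = 2 ^ (l + 1) := by
    rw [tsum_choose_mul_geometric_of_norm_lt_one l (by norm_num)]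
    have : (1 - 1 / 2 : ℝ) = 2⁻¹ := by norm_num
    rw [this, inv_pow, one_div, inv_inv]
  rw [tsum_mul_left, h6] at h5
  unfold be
  refine (h4.trans h5).trans (le_of_eq ?_)
  rw [mul_pow, pow_succ]; ring

lemma be_deriv {t : ℝ} (ht : |t| < 1 / (2 * D)) (l : ℕ) :
    HasDerivAt (be β l) (be β (l + 1) t) t := by
  have htI : t ∈ Ioo (-(1 / (2 * D))) (1 / (2 * D)) := abs_lt.1 ht
  have hr : 0 < 1 / (2 * D) := by positivity
  have hterm : ∀ (y : ℝ) (k : ℕ), β (k + 1 + l) * (((k + 1 : ℕ) : ℝ) * y ^ (k + 1 - 1) /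
      (k + 1).factorial) = β (k + (l + 1)) * (y ^ k / k.factorial) := by
    intro y k
    rw [Nat.add_sub_cancel, Nat.factorial_succ, show k + 1 + l = k + (l + 1) by ring]
    have : (k.factorial : ℝ) ≠ 0 := by positivity
    push_cast
    field_simp
  set v : ℕ → ℝ := fun k => (C * (D ^ (l + 1) * (l + 1).factorial)) *
    (((k - 1 + (l + 1)).choose (l + 1) : ℝ) * (1 / 2) ^ (k - 1)) with hv
  have hvs : Summable v := by
    rw [← summable_nat_add_iff 1]
    exact (geo_ch (l + 1)).mul_left (C * (D ^ (l + 1) * (l + 1).factorial))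
  have hle : ∀ (k : ℕ), ∀ y ∈ Ioo (-(1 / (2 * D))) (1 / (2 * D)),
      ‖β (k + l) * ((k : ℝ) * y ^ (k - 1) / k.factorial)‖ ≤ v k := by
    intro k y hy
    rcases k with _ | k
    · simp only [Nat.cast_zero, zero_mul, zero_div, mul_zero, norm_zero, hv]
      positivity
    · rw [hterm]
      exact be_term hC hD hβ (abs_lt.2 hy).le (l + 1) k
  have h := hasDerivAt_tsum_of_isPreconnected (u := v)
    (g := fun k y => β (k + l) * (y ^ k / k.factorial))
    (g' := fun k y => β (k + l) * ((k : ℝ) * y ^ (k - 1) / k.factorial))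
    hvs isOpen_Ioo isPreconnected_Ioo
    (fun k y _ => ((hasDerivAt_pow k y).div_const _).const_mul _) hle
    (y₀ := 0) ⟨by linarith, hr⟩
    (Summable.of_norm_bounded ((geo_ch l).mul_left (C * (D ^ l * l.factorial)))
      (be_term hC hD hβ (by rw [abs_zero]; exact hr.le) l)) htI
  refine h.congr_deriv ?_
  have hsum : Summable fun k => β (k + l) * ((k : ℝ) * t ^ (k - 1) / k.factorial) :=
    Summable.of_norm_bounded hvs fun k => hle k t htI
  rw [hsum.tsum_eq_zero_add]
  simp_rw [hterm]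
  simp only [Nat.cast_zero, zero_mul, zero_div, mul_zero, zero_add]
  rfl

omit hC hD hβ in
lemma be_zero (β : ℕ → ℝ) (l : ℕ) : be β l 0 = β l := by
  unfold be
  rw [tsum_eq_single 0]
  · simp
  · intro k hk
    rw [zero_pow hk]; simp

/-- **The tower of an entire profile.** -/
lemma exists_tower {T : ℝ} (hT : 0 < T) : ∃ (α : ℕ → ℝ → ℝ) (K D' : ℝ), 0 ≤ K ∧
    0 ≤ D' ∧ (∀ i, ∀ t ∈ Ioo (-(min T (1 / (8 * D)))) (T + 1), |α i t| ≤ K * wD D' i) ∧
    (∀ i, ∀ t ∈ Ioo (-(min T (1 / (8 * D)))) (T + 1), HasDerivAt (α i) (α (i + 1) t) t) ∧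
    (∀ i, α i 0 = β i) ∧ ∀ i, α i T = 0 := by
  set σ := min T (1 / (8 * D)) with hσd
  have hσ : 0 < σ := lt_min hT (by positivity)
  have hσT : σ ≤ T := min_le_left _ _
  have hσD : 2 * σ < 1 / (2 * D) := by
    have h1 : σ ≤ 1 / (8 * D) := min_le_right _ _
    have h2 : 2 * (1 / (8 * D)) < 1 / (2 * D) := by
      rw [show 2 * (1 / (8 * D)) = 1 / (4 * D) by field_simp; norm_num]
      apply one_div_lt_one_div_of_lt (by positivity)
      linarith
    linarith
  have hCc := Cc_pos
  refine ⟨tw (be β) σ, Cc * (2 * C), max (7 / σ) (2 * D), by positivity,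
    le_trans (by positivity) (le_max_left _ _), ?_, ?_, ?_, ?_⟩
  · intro i t ht
    rcases lt_or_ge t (2 * σ) with h | h
    · have habs : |t| ≤ 1 / (2 * D) := by
        rw [abs_le]; constructor
        · linarith [ht.1]
        · linarith
      refine tw_le hσ (by positivity) (le_max_left _ _) (fun l => ?_) i
      refine (be_bound hC hD hβ habs l).trans ?_
      have : (2 * D) ^ l ≤ (max (7 / σ) (2 * D)) ^ l :=
        pow_le_pow_left₀ (by positivity) (le_max_right _ _) l
      gcongr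
    · rw [tw_end _ hσ i (by linarith), abs_zero]
      have h1 : 0 ≤ max (7 / σ) (2 * D) := le_trans (by positivity) (le_max_left _ _)
      have := wD_nonneg h1 i
      positivity
  · intro i t ht
    rcases lt_or_ge t (2 * σ) with h | h
    · have habs : |t| < 1 / (2 * D) := by
        rw [abs_lt]; constructor
        · linarith [ht.1]
        · linarith
      exact tw_deriv_at (fun l => be_deriv hC hD hβ habs l) σ i
    · rw [tw_end _ hσ (i + 1) (by linarith)]
      have h1 : tw (be β) σ i =ᶠ[𝓝 t] fun _ => 0 := by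
        filter_upwards [Ioi_mem_nhds (by linarith : σ < t)] with s hs
        exact tw_end _ hσ i (le_of_lt hs)
      exact (hasDerivAt_const t (0:ℝ)).congr_of_eventuallyEq h1
  · intro i
    rw [tw_zero, be_zero]
  · intro i
    exact tw_end _ hσ i hσT

end

lemma cc_le {m : ℕ} (hm : 1 ≤ m) (i : ℕ) :
    cc m i ≤ (4 * m) ^ i * ((i.factorial : ℝ) * i.factorial) := by
  induction i with
  | zero => simp [cc]
  | succ i ih =>
    have h0 := cc_pos hm i
    have hm' : (1:ℝ) ≤ m := by exact_mod_cast hm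
    have h1 : (2 * (i:ℝ) + m) ≤ 2 * m * (i + 1) := by nlinarith [Nat.cast_nonneg (α := ℝ) i]
    show cc m i * (2 * (i + 1) * (2 * i + m)) ≤ _
    calc cc m i * (2 * (i + 1) * (2 * i + m)) ≤
        ((4 * m) ^ i * ((i.factorial : ℝ) * i.factorial)) * (2 * (i + 1) * (2 * m * (i + 1))) := by
          gcongr
      _ = _ := by
          rw [pow_succ, Nat.factorial_succ]; push_cast; ring

end Pool.Agent.V5helper93.NS
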