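import Pool.Agent.V5helper93.NS.Pipe2

/-! # Entire functions of exponential type -/

set_option autoImplicit false
set_option linter.all false

open MeasureTheory Set Filter Topology
open scoped ENNReal

namespace Pool.Agent.V5helper93.NS

/-- the real parts of the Taylor coefficients at zero -/
noncomputable def tc (f : ℂ → ℂ) (l : ℕ) : ℝ :=
  (((l.factorial : ℕ) : ℂ)⁻¹ * iteratedDeriv l f 0).re

lemma tc_bound {f : ℂ → ℂ} (hf : Differentiable ℂ f) {C r : ℝ}
    (hfC : ∀ z, ‖f z‖ ≤ C * Real.exp (r * ‖z‖)) (l : ℕ) :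
    |tc f l| ≤ C * (Real.exp r) ^ l / l.factorial := by
  have hfac : (0:ℝ) < l.factorial := by positivity
  have h1 : |tc f l| ≤ ‖iteratedDeriv l f 0‖ / l.factorial := by
    unfold tc
    refine (Complex.abs_re_le_norm _).trans (le_of_eq ?_)
    rw [norm_mul, norm_inv, Complex.norm_natCast]
    ring
  have hC : 0 ≤ C := by
    have := (norm_nonneg (f 0)).trans (hfC 0)
    simpa using this
  refine h1.trans ?_
  rcases Nat.eq_zero_or_pos l with rfl | hl
  · simpa using hfC 0
  · have hl' : (0:ℝ) < l := by exact_mod_cast hl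
    have h2 := Complex.norm_iteratedDeriv_le_of_forall_mem_sphere_norm_le (c := 0) (R := l)
      (C := C * Real.exp (r * l)) (f := f) l hl' hf.diffContOnCl (fun z hz => by
        have hz' : ‖z‖ = l := by simpa using hz
        have := hfC z
        rwa [hz'] at this)
    have h3 : (l.factorial : ℝ) ≤ (l:ℝ) ^ l := by exact_mod_cast Nat.factorial_le_pow l
    have h4 : Real.exp (r * l) = Real.exp r ^ l := by
      rw [← Real.exp_nat_mul, mul_comm]
    rw [h4] at h2
    calc ‖iteratedDeriv l f 0‖ / l.factorial ≤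
        (l.factorial * (C * Real.exp r ^ l) / (l:ℝ) ^ l) / l.factorial := by gcongr
      _ = C * Real.exp r ^ l / (l:ℝ) ^ l := by field_simp
      _ ≤ _ := by gcongr

lemma tc_sum {f : ℂ → ℂ} (hf : Differentiable ℂ f) (s : ℝ) :
    ∑' l, tc f l * s ^ l = (f (s : ℂ)).re := by
  have h1 := Complex.hasSum_re (Complex.hasSum_taylorSeries_of_entire hf 0 (s : ℂ))
  rw [← h1.tsum_eq]
  refine tsum_congr fun l => ?_
  unfold tc
  rw [← Complex.re_mul_ofReal]
  congr 1
  rw [sub_zero, smul_eq_mul, smul_eq_mul]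
  push_cast
  ring

variable {n : ℕ}

/-- **Flows along round pipes with profiles of exponential type.** -/
theorem pipe3 (J : Finset (Fin n)) (hJ : 1 ≤ J.card) {Ω W : Set (Sp n)} (hΩo : IsOpen Ω)
    (hΩb : Bornology.IsBounded Ω) {B T : ℝ} (hB : 0 < B) (hT : 0 < T)
    (hΩ : ∀ x ∈ Ω, rho J x < B) (hW : ∀ x ∈ W, rho J x = B) (f : Fin n → ℂ → ℂ) {C r : ℝ}
    (hf : ∀ i, i ∉ J → Differentiable ℂ (f i))
    (hfC : ∀ i, i ∉ J → ∀ z, ‖f i z‖ ≤ C * Real.exp (r * ‖z‖))
    (hf0 : ∀ i, i ∉ J → (f i (B : ℂ)).re = 0) :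
    ∃ u p, IsTrajectory Ω W T (fun x i => if i ∈ J then 0 else (f i (rho J x : ℂ)).re) u p ∧
      ∀ x, u T x = 0 := by
  have key : ∀ C' : ℝ, 0 ≤ C' → (∀ i, i ∉ J → ∀ z, ‖f i z‖ ≤ C' * Real.exp (r * ‖z‖)) →
      ∃ u p, IsTrajectory Ω W T (fun x i => if i ∈ J then 0 else (f i (rho J x : ℂ)).re) u p ∧
      ∀ x, u T x = 0 := by
    intro C' hC' hfC'
    obtain ⟨u, p, h1, h2⟩ := pipe2 J hJ hΩo hΩb hB hT hΩ hW
      (fun i l => if i ∈ J then 0 else tc (f i) l) hC' (Real.exp_pos r).le (fun i l => by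
        by_cases hi : i ∈ J
        · simp only [if_pos hi, abs_zero]; positivity
        · simp only [if_neg hi]
          exact tc_bound (hf i hi) (hfC' i hi) l) (fun i => by
        by_cases hi : i ∈ J
        · simp [if_pos hi]
        · simp only [if_neg hi]
          rw [tc_sum (hf i hi), hf0 i hi])
    refine ⟨u, p, ?_, h2⟩
    convert h1 using 1
    funext x i
    by_cases hi : i ∈ J
    · simp [hi]
    · simp only [if_neg hi]
      rw [tc_sum (hf i hi)]
  by_cases hn : ∃ i, i ∉ J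
  · obtain ⟨i, hi⟩ := hn
    refine key C ?_ hfC
    have := (norm_nonneg (f i 0)).trans (hfC i hi 0)
    simpa using this
  · push Not at hn
    exact key 0 le_rfl fun i hi => absurd (hn i) hi

end Pool.Agent.V5helper93.NS
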