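import Pool.Agent.Y308.BC.Flat

/-! # Null control of the heat equation on `(0,1)`: one classical solution for all positive times -/

set_option autoImplicit false
set_option linter.all false

open MeasureTheory Set Real Filter Topology intervalIntegral
open scoped ENNReal NNReal

namespace Pool.Agent.V5helper93.NS

open Pool.Agent.Y308.BC

variable {c : ℝ → ℝ} {m : ℝ}

/-- the derivatives of the flat output, on the whole time axis -/
noncomputable def A (c : ℝ → ℝ) (σ : ℝ) (i : ℕ) (t : ℝ) : ℝ := al c σ i (t - σ)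

lemma A_deriv (hm : 0 ≤ m) (hc : ∀ n, |cf (es n) c| ≤ m) {σ : ℝ} (i : ℕ) {t : ℝ} (ht : 0 < t) :
    HasDerivAt (A c σ i) (A c σ (i + 1) t) t := by
  have h := al_deriv hm hc (σ := σ) i (t := t - σ) (by linarith)
  exact h.comp_sub_const t σ

lemma A_le (hm : 0 ≤ m) (hc : ∀ n, |cf (es n) c| ≤ m) {σ : ℝ} (hσ : 0 < σ) {s0 : ℝ}
    (hs0 : 0 < s0) (i : ℕ) {t : ℝ} (ht : s0 ≤ t) :
    |A c σ i t| ≤ (Cc * (√2 * (8 / s0 ^ 2 * ∑' n, dd n)) * m) * wD (max (7 / σ) (2 / s0)) i := by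
  unfold A al
  set D := max (7 / σ) (2 / s0) with hD
  have hD7 : 7 / σ ≤ D := le_max_left _ _
  have hD2 : 2 / s0 ≤ D := le_max_right _ _
  refine (Finset.abs_sum_le_sum_abs _ _).trans ?_
  have hCc := Cc_pos
  have hdd := ddsum_nonneg
  have hD0 : 0 ≤ D := le_trans (by positivity) hD7
  set K := Cc * (√2 * (8 / s0 ^ 2 * ∑' n, dd n)) with hK
  have h1 : ∀ ij ∈ Finset.HasAntidiagonal.antidiagonal i, |(i.choose ij.1 : ℝ) *
      (((σ⁻¹) ^ ij.1 * cut ij.1 ((t - σ) / σ)) * bt c ij.2 (t - σ + σ))| ≤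
      (K * m) * ((i.factorial * √(i.factorial)) * D ^ i) := by
    intro ij hij
    rw [Finset.HasAntidiagonal.mem_antidiagonal] at hij
    rw [abs_mul, abs_mul, abs_mul, abs_of_nonneg (by positivity : (0:ℝ) ≤ (i.choose ij.1 : ℝ)),
      abs_of_nonneg (by positivity : (0:ℝ) ≤ (σ⁻¹) ^ ij.1)]
    have e1 := cut_bound ij.1 ((t - σ) / σ)
    have e2 := bt_le hm hc ij.2 hs0 (by linarith : s0 ≤ t - σ + σ)
    have e3 : (i.choose ij.1 : ℝ) * ij.1.factorial * ij.2.factorial = i.factorial := by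
      have h5 : ij.1 ≤ i := by omega
      have h6 := Nat.choose_mul_factorial_mul_factorial h5
      have h7 : i - ij.1 = ij.2 := by omega
      rw [h7] at h6
      exact_mod_cast h6
    have e4 : √(ij.1.factorial : ℝ) ≤ √(i.factorial) := by
      apply Real.sqrt_le_sqrt
      exact_mod_cast Nat.factorial_le (by omega)
    have e5 : (2 / s0) ^ ij.2 ≤ D ^ ij.2 := pow_le_pow_left₀ (by positivity) hD2 _
    have e7 : (7 * σ⁻¹) ^ ij.1 ≤ D ^ ij.1 :=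
      pow_le_pow_left₀ (by positivity) (by rw [← div_eq_mul_inv]; exact hD7) _
    have e6 : D ^ i = D ^ ij.1 * D ^ ij.2 := by
      rw [← pow_add, hij]
    calc (i.choose ij.1 : ℝ) * ((σ⁻¹) ^ ij.1 * |cut ij.1 ((t - σ) / σ)| * |bt c ij.2 (t - σ + σ)|) ≤
        (i.choose ij.1 : ℝ) * ((σ⁻¹) ^ ij.1 *
          (Cc * (7 ^ ij.1 * (ij.1.factorial * √(ij.1.factorial)))) *
          ((√2 * (8 / s0 ^ 2 * ∑' n, dd n)) * m *
            (ij.2.factorial * (2 / s0) ^ ij.2))) := by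
          gcongr
      _ ≤ (i.choose ij.1 : ℝ) * ((σ⁻¹) ^ ij.1 *
          (Cc * (7 ^ ij.1 * (ij.1.factorial * √(i.factorial)))) *
          ((√2 * (8 / s0 ^ 2 * ∑' n, dd n)) * m *
            (ij.2.factorial * D ^ ij.2))) := by
          gcongr
      _ = (K * m) * (((i.choose ij.1 : ℝ) * ij.1.factorial * ij.2.factorial) *
          √(i.factorial) * (((7 * σ⁻¹) ^ ij.1) * D ^ ij.2)) := by
          rw [hK, mul_pow]; ring
      _ ≤ (K * m) * (((i.choose ij.1 : ℝ) * ij.1.factorial * ij.2.factorial) *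
          √(i.factorial) * (D ^ ij.1 * D ^ ij.2)) := by
          gcongr
      _ = _ := by rw [e3, ← e6]
  refine (Finset.sum_le_sum h1).trans (le_of_eq ?_)
  rw [Finset.sum_const, Finset.Nat.card_antidiagonal, nsmul_eq_mul]
  unfold wD; push_cast; ring

lemma A_early (c : ℝ → ℝ) {σ : ℝ} (hσ : 0 < σ) (i : ℕ) {t : ℝ} (ht : t ≤ σ) :
    A c σ i t = bt c i t := by
  unfold A al
  have hle : (t - σ) / σ ≤ 0 := div_nonpos_of_nonpos_of_nonneg (by linarith) hσ.le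
  rw [Finset.sum_eq_single (0, i)]
  · simp [cut_left hle]
  · rintro ⟨a, b⟩ hab hne
    rw [Finset.HasAntidiagonal.mem_antidiagonal] at hab
    simp only at hab
    have ha : a ≠ 0 := by
      rintro rfl
      apply hne
      rw [zero_add] at hab
      rw [hab]
    obtain ⟨a', rfl⟩ := Nat.exists_eq_succ_of_ne_zero ha
    rw [cut_left' hle]; ring
  · intro h
    exact absurd (Finset.HasAntidiagonal.mem_antidiagonal.2 (zero_add i)) h

lemma A_late (c : ℝ → ℝ) {σ : ℝ} (hσ : 0 < σ) (i : ℕ) {t : ℝ} (ht : 2 * σ ≤ t) :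
    A c σ i t = 0 := al_end c hσ i (by linarith)

/-- the controlled solution and its derivatives -/
noncomputable def w (c : ℝ → ℝ) (σ t x : ℝ) : ℝ := hs (A c σ) t x
noncomputable def wx (c : ℝ → ℝ) (σ t x : ℝ) : ℝ := hsx (A c σ) t x
noncomputable def wxx (c : ℝ → ℝ) (σ t x : ℝ) : ℝ := hsxx (A c σ) t x

lemma w_early (hm : 0 ≤ m) (hc : ∀ n, |cf (es n) c| ≤ m) {σ t x : ℝ} (hσ : 0 < σ) (h0 : 0 < t)
    (ht : t ≤ σ) (hx : x ∈ Icc (0:ℝ) 1) : w c σ t x = SS c t x := by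
  rw [← hs_init hm hc h0 hx]
  unfold w hs
  simp_rw [A_early c hσ _ ht, al_zero]

lemma w_late (c : ℝ → ℝ) {σ t : ℝ} (hσ : 0 < σ) (ht : 2 * σ ≤ t) (x : ℝ) : w c σ t x = 0 := by
  unfold w hs
  simp_rw [A_late c hσ _ ht]
  simp

lemma wx_late (c : ℝ → ℝ) {σ t : ℝ} (hσ : 0 < σ) (ht : 2 * σ ≤ t) (x : ℝ) : wx c σ t x = 0 := by
  unfold wx hsx
  simp_rw [A_late c hσ _ ht]
  simp

lemma w_zero (c : ℝ → ℝ) (σ t : ℝ) : w c σ t 0 = 0 := by
  unfold w hs; simp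

lemma w_odd (c : ℝ → ℝ) (σ t x : ℝ) : w c σ t (-x) = -w c σ t x := by
  unfold w hs
  rw [← tsum_neg]
  congr 1
  funext i
  rw [Odd.neg_pow ⟨i, rfl⟩]; ring

section
variable (hm : 0 ≤ m) (hc : ∀ n, |cf (es n) c| ≤ m) {σ : ℝ} (hσ : 0 < σ)
include hm hc hσ

lemma Dnn {s0 : ℝ} : 0 ≤ max (7 / σ) (2 / s0) := le_trans (by positivity) (le_max_left _ _)

lemma Knn {s0 : ℝ} : 0 ≤ Cc * (√2 * (8 / s0 ^ 2 * ∑' n, dd n)) * m := by
  have := Cc_pos
  have := ddsum_nonneg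
  positivity

lemma w_dx {t x : ℝ} (ht : 0 < t) (hx : |x| < 2) : HasDerivAt (w c σ t) (wx c σ t x) x :=
  hs_dx (Dnn hm hc hσ) (Knn hm hc hσ)
    (fun i s (hs : s ∈ Ioi (t / 2)) => A_le hm hc hσ (half_pos ht) i (le_of_lt hs))
    (by simp only [mem_Ioi]; linarith) hx

lemma w_dxx {t x : ℝ} (ht : 0 < t) (hx : |x| < 2) : HasDerivAt (wx c σ t) (wxx c σ t x) x :=
  hs_dxx (Dnn hm hc hσ) (Knn hm hc hσ)
    (fun i s (hs : s ∈ Ioi (t / 2)) => A_le hm hc hσ (half_pos ht) i (le_of_lt hs))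
    (by simp only [mem_Ioi]; linarith) hx

lemma w_dt {t x : ℝ} (ht : 0 < t) (hx : |x| ≤ 2) :
    HasDerivAt (fun s => w c σ s x) (wxx c σ t x) t :=
  hs_dt (Dnn hm hc hσ) (Knn hm hc hσ)
    (fun i s (hs : s ∈ Ioi (t / 2)) => A_le hm hc hσ (half_pos ht) i (le_of_lt hs))
    isOpen_Ioi isPreconnected_Ioi
    (fun i s hs => A_deriv hm hc i (lt_trans (half_pos ht) hs))
    (by simp only [mem_Ioi]; linarith) hx

lemma A_contOn {s0 : ℝ} (hs0 : 0 < s0) (i : ℕ) : ContinuousOn (A c σ i) (Ioi s0) :=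
  fun t ht => (A_deriv hm hc i (lt_trans hs0 ht)).continuousAt.continuousWithinAt

omit hm hc hσ in
lemma glue {f : ℝ × ℝ → ℝ}
    (h : ∀ s0, 0 < s0 → ContinuousOn f (Ioi s0 ×ˢ Icc (0:ℝ) 1)) :
    ContinuousOn f (Ioi 0 ×ˢ Icc (0:ℝ) 1) := by
  intro q hq
  have hq1 : (0:ℝ) < q.1 := hq.1
  refine ((h (q.1 / 2) (half_pos hq1)) q ⟨by simp only [mem_Ioi]; linarith, hq.2⟩).mono_of_mem_nhdsWithin ?_
  rw [mem_nhdsWithin]
  exact ⟨Ioi (q.1 / 2) ×ˢ univ, isOpen_Ioi.prod isOpen_univ,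
    ⟨by simp only [mem_Ioi]; linarith, mem_univ _⟩, fun p hp => ⟨hp.1.1, hp.2.2⟩⟩

lemma w_cont : ContinuousOn (fun q : ℝ × ℝ => w c σ q.1 q.2) (Ioi 0 ×ˢ Icc 0 1) :=
  glue fun s0 hs0 => hs_cont (Dnn hm hc hσ) (Knn hm hc hσ)
    (fun i s (hs : s ∈ Ioi s0) => A_le hm hc hσ hs0 i (le_of_lt hs))
    (fun i => A_contOn hm hc hσ hs0 i)

lemma wx_cont : ContinuousOn (fun q : ℝ × ℝ => wx c σ q.1 q.2) (Ioi 0 ×ˢ Icc 0 1) :=
  glue fun s0 hs0 => hsx_cont (Dnn hm hc hσ) (Knn hm hc hσ)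
    (fun i s (hs : s ∈ Ioi s0) => A_le hm hc hσ hs0 i (le_of_lt hs))
    (fun i => A_contOn hm hc hσ hs0 i)

lemma wxx_cont : ContinuousOn (fun q : ℝ × ℝ => wxx c σ q.1 q.2) (Ioi 0 ×ˢ Icc 0 1) :=
  glue fun s0 hs0 => hsxx_cont (Dnn hm hc hσ) (Knn hm hc hσ)
    (fun i s (hs : s ∈ Ioi s0) => A_le hm hc hσ hs0 i (le_of_lt hs))
    (fun i => A_contOn hm hc hσ hs0 i)

omit hm hc in
lemma w_init (hcM : MemLp c 2 mu) :
    Tendsto (fun t => ∫ x in (0:ℝ)..1, (w c σ t x - c x) ^ 2) (𝓝[>] 0) (𝓝 0) := by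
  obtain ⟨B, hB, hb⟩ := cf_bdd hcM
  refine (SS_tendsto hcM).congr' ?_
  filter_upwards [Ioc_mem_nhdsGT hσ] with t ht
  refine intervalIntegral.integral_congr fun x hx => ?_
  rw [uIcc_of_le zero_le_one] at hx
  show (SS c t x - c x) ^ 2 = (w c σ t x - c x) ^ 2
  rw [w_early hB hb hσ ht.1 ht.2 hx]

end

end Pool.Agent.V5helper93.NS
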