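import Pool.Agent.V5helper93.NS.Heat1

/-! # The energy of the controlled solution -/

set_option autoImplicit false
set_option linter.all false

open MeasureTheory Set Real Filter Topology intervalIntegral
open scoped ENNReal NNReal

namespace Pool.Agent.V5helper93.NS

open Pool.Agent.Y308.BC

variable {c : ℝ → ℝ}

lemma slice {f : ℝ → ℝ → ℝ} {S : Set ℝ}
    (hf : ContinuousOn (fun q : ℝ × ℝ => f q.1 q.2) (S ×ˢ Icc 0 1)) {t : ℝ} (ht : t ∈ S) :
    ContinuousOn (f t) (Icc 0 1) :=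
  hf.comp (f := fun x => (t, x)) (by fun_prop) (fun _ hx => ⟨ht, hx⟩)

section
variable (hcM : MemLp c 2 mu) {σ : ℝ} (hσ : 0 < σ)
include hcM hσ

lemma w_one {t : ℝ} (h0 : 0 < t) (ht : t ≤ σ) : w c σ t 1 = 0 := by
  obtain ⟨B, hB, hb⟩ := cf_bdd hcM
  rw [w_early hB hb hσ h0 ht ⟨zero_le_one, le_rfl⟩, SS_right]

lemma cf_w {t : ℝ} (h0 : 0 < t) (ht : t ≤ σ) (n : ℕ) :
    cf (es n) (w c σ t) = Real.exp (-(lam n) * t) * cf (es n) c := by
  obtain ⟨B, hB, hb⟩ := cf_bdd hcM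
  rw [← SS_cf hcM h0 n]
  unfold cf
  refine intervalIntegral.integral_congr fun x hx => ?_
  rw [uIcc_of_le zero_le_one] at hx
  show w c σ t x * es n x = SS c t x * es n x
  rw [w_early hB hb hσ h0 ht hx]

lemma wx_slice {t : ℝ} (h0 : 0 < t) : ContinuousOn (wx c σ t) (Icc 0 1) := by
  obtain ⟨B, hB, hb⟩ := cf_bdd hcM
  exact slice (wx_cont hB hb hσ) h0

lemma w_slice {t : ℝ} (h0 : 0 < t) : ContinuousOn (w c σ t) (Icc 0 1) := by
  obtain ⟨B, hB, hb⟩ := cf_bdd hcM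
  exact slice (w_cont hB hb hσ) h0

lemma cf_wx_zero {t : ℝ} (h0 : 0 < t) (ht : t ≤ σ) : cf (ecf 0) (wx c σ t) = 0 := by
  obtain ⟨B, hB, hb⟩ := cf_bdd hcM
  unfold cf
  simp_rw [ecf_zero, mul_one]
  rw [intervalIntegral.integral_eq_sub_of_hasDerivAt (f := w c σ t)]
  · rw [w_one hcM hσ h0 ht, w_zero, sub_zero]
  · intro x hx
    rw [uIcc_of_le zero_le_one] at hx
    exact w_dx hB hb hσ h0 (by rw [abs_of_nonneg hx.1]; linarith [hx.2])
  · apply ContinuousOn.intervalIntegrable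
    rw [uIcc_of_le zero_le_one]
    exact wx_slice hcM hσ h0

lemma cf_wx_succ {t : ℝ} (h0 : 0 < t) (ht : t ≤ σ) (n : ℕ) :
    cf (ecf (n + 1)) (wx c σ t) = kk n * (Real.exp (-(lam n) * t) * cf (es n) c) := by
  obtain ⟨B, hB, hb⟩ := cf_bdd hcM
  have h1 := intervalIntegral.integral_mul_deriv_eq_deriv_mul (a := 0) (b := 1)
    (u := ec n) (v := w c σ t) (u' := fun x => -(kk n) * es n x) (v' := wx c σ t)
    (fun x _ => hasDerivAt_ec n x)
    (fun x hx => by
      rw [uIcc_of_le zero_le_one] at hx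
      exact w_dx hB hb hσ h0 (by rw [abs_of_nonneg hx.1]; linarith [hx.2]))
    (by apply Continuous.intervalIntegrable; fun_prop)
    (by
      apply ContinuousOn.intervalIntegrable
      rw [uIcc_of_le zero_le_one]
      exact wx_slice hcM hσ h0)
  rw [w_one hcM hσ h0 ht, w_zero, mul_zero, mul_zero, sub_zero, zero_sub] at h1
  rw [← cf_w hcM hσ h0 ht n]
  unfold cf
  have e1 : ∀ x, wx c σ t x * ecf (n + 1) x = ec n x * wx c σ t x := by
    intro x; rw [ecf_succ]; ring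
  simp_rw [e1]
  rw [h1, ← intervalIntegral.integral_neg, ← intervalIntegral.integral_const_mul]
  refine intervalIntegral.integral_congr fun x _ => ?_
  show -(-(kk n) * es n x * w c σ t x) = kk n * (w c σ t x * es n x)
  ring

lemma wx_sq {t : ℝ} (h0 : 0 < t) (ht : t ≤ σ) :
    HasSum (fun n => lam n * (Real.exp (-(lam n) * t) * cf (es n) c) ^ 2)
      (∫ x in (0:ℝ)..1, wx c σ t x ^ 2) := by
  have h1 := hasSum_ecf (memLp_cont (wx_slice hcM hσ h0))
  rw [← hasSum_nat_add_iff' 1] at h1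
  rw [Finset.sum_range_one, cf_wx_zero hcM hσ h0 ht] at h1
  simp only [ne_eq, OfNat.ofNat_ne_zero, not_false_eq_true, zero_pow, sub_zero] at h1
  refine h1.congr_fun ?_ |> fun h => h
  intro n
  rw [cf_wx_succ hcM hσ h0 ht]
  unfold lam; ring

end

end Pool.Agent.V5helper93.NS
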