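import Pool.Agent.V5helper93.NS.Heat2

/-! # Integrability of the square of the slope -/

set_option autoImplicit false
set_option linter.all false

open MeasureTheory Set Real Filter Topology intervalIntegral
open scoped ENNReal NNReal

namespace Pool.Agent.V5helper93.NS

open Pool.Agent.Y308.BC

variable {c : ℝ → ℝ}

lemma g_int (l a σ : ℝ) (hσ : 0 ≤ σ) :
    ∫ t in (0:ℝ)..σ, l * (Real.exp (-l * t) * a) ^ 2 ≤ a ^ 2 := by
  have h1 : ∀ t ∈ uIcc 0 σ, HasDerivAt (fun t => -((Real.exp (-l * t) * a) ^ 2) / 2)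
      (l * (Real.exp (-l * t) * a) ^ 2) t := by
    intro t _
    have e1 : HasDerivAt (fun t => -l * t) (-l) t := by
      simpa using (hasDerivAt_id t).const_mul (-l)
    refine (((e1.exp.mul_const a).pow 2).neg.div_const 2).congr_deriv ?_
    simp only [Nat.cast_ofNat, Nat.add_one_sub_one, pow_one]
    ring
  rw [intervalIntegral.integral_eq_sub_of_hasDerivAt h1
    (by apply Continuous.intervalIntegrable; fun_prop)]
  simp only [mul_zero, Real.exp_zero, one_mul]
  nlinarith [sq_nonneg (Real.exp (-l * σ) * a), sq_nonneg a]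

section
variable (hcM : MemLp c 2 mu) {σ : ℝ} (hσ : 0 < σ)
include hcM hσ

lemma D_cont : ContinuousOn (fun t => ∫ x in (0:ℝ)..1, wx c σ t x ^ 2) (Ioi 0) := by
  obtain ⟨B, hB, hb⟩ := cf_bdd hcM
  exact cont_param' (f := fun s x => wx c σ s x ^ 2) ((wx_cont hB hb hσ).pow 2)

lemma D_int : Integrable (fun t => ∫ x in (0:ℝ)..1, wx c σ t x ^ 2)
    (volume.restrict (Ioc 0 σ)) := by
  refine ⟨((D_cont hcM hσ).mono Ioc_subset_Ioi_self).aestronglyMeasurable measurableSet_Ioc, ?_⟩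
  rw [hasFiniteIntegral_iff_ofReal (Eventually.of_forall fun t =>
    intervalIntegral.integral_nonneg zero_le_one fun x _ => sq_nonneg _)]
  have h1 : ∫⁻ t in Ioc 0 σ, ENNReal.ofReal (∫ x in (0:ℝ)..1, wx c σ t x ^ 2) =
      ∫⁻ t in Ioc 0 σ, ∑' n, ENNReal.ofReal (lam n * (Real.exp (-(lam n) * t) * cf (es n) c) ^ 2) := by
    refine setLIntegral_congr_fun measurableSet_Ioc fun t ht => ?_
    have h2 := wx_sq hcM hσ ht.1 ht.2
    show ENNReal.ofReal _ = _
    rw [← h2.tsum_eq, ENNReal.ofReal_tsum_of_nonneg (fun n => ?_) h2.summable]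
    have := lam_pos n
    positivity
  rw [h1, lintegral_tsum (fun n => by
    apply Measurable.aemeasurable
    apply ENNReal.measurable_ofReal.comp
    fun_prop)]
  have h3 : ∀ n, ∫⁻ t in Ioc 0 σ, ENNReal.ofReal (lam n * (Real.exp (-(lam n) * t) *
      cf (es n) c) ^ 2) ≤ ENNReal.ofReal (cf (es n) c ^ 2) := by
    intro n
    have hl := lam_pos n
    rw [← ofReal_integral_eq_lintegral_ofReal]
    · apply ENNReal.ofReal_le_ofReal
      rw [← intervalIntegral.integral_of_le hσ.le]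
      exact g_int _ _ _ hσ.le
    · have : Continuous fun t : ℝ => lam n * (Real.exp (-(lam n) * t) * cf (es n) c) ^ 2 := by
        fun_prop
      exact this.integrableOn_Ioc
    · exact Eventually.of_forall fun t => by positivity
  refine (ENNReal.tsum_le_tsum h3).trans_lt ?_
  rw [← ENNReal.ofReal_tsum_of_nonneg (fun n => sq_nonneg _) (hasSum_es hcM).summable]
  exact ENNReal.ofReal_lt_top

lemma E_early : IntegrableOn (fun q : ℝ × ℝ => wx c σ q.1 q.2 ^ 2) (Ioc 0 σ ×ˢ Ioo 0 1) := by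
  obtain ⟨B, hB, hb⟩ := cf_bdd hcM
  have hc : ContinuousOn (fun q : ℝ × ℝ => wx c σ q.1 q.2 ^ 2) (Ioc 0 σ ×ˢ Ioo (0:ℝ) 1) :=
    ((wx_cont hB hb hσ).pow 2).mono (prod_mono Ioc_subset_Ioi_self Ioo_subset_Icc_self)
  have hmeas := hc.aestronglyMeasurable (μ := volume) (measurableSet_Ioc.prod measurableSet_Ioo)
  unfold IntegrableOn
  rw [Measure.volume_eq_prod, ← Measure.prod_restrict] at hmeas ⊢
  rw [integrable_prod_iff hmeas]
  constructor
  · refine ae_restrict_of_forall_mem measurableSet_Ioc fun t ht => ?_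
    have h1 := (wx_slice hcM hσ ht.1).pow 2
    exact (h1.integrableOn_compact isCompact_Icc).mono_set Ioo_subset_Icc_self
  · refine (D_int hcM hσ).congr (Eventually.of_forall fun t => ?_)
    show _ = ∫ y in Ioo (0:ℝ) 1, ‖wx c σ t y ^ 2‖
    have h2 : ∀ y, ‖wx c σ t y ^ 2‖ = wx c σ t y ^ 2 := fun y => by
      rw [Real.norm_eq_abs, abs_of_nonneg (sq_nonneg _)]
    simp_rw [h2]
    rw [ioo_int]

/-- the slope is square integrable -/
lemma energy (T : ℝ) : IntegrableOn (fun q : ℝ × ℝ => wx c σ q.1 q.2 ^ 2) (Ioo 0 T ×ˢ Ioo 0 1) := by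
  obtain ⟨B, hB, hb⟩ := cf_bdd hcM
  have h1 := E_early hcM hσ
  have h2 : IntegrableOn (fun q : ℝ × ℝ => wx c σ q.1 q.2 ^ 2) (Icc σ T ×ˢ Icc (0:ℝ) 1) := by
    refine ContinuousOn.integrableOn_compact (isCompact_Icc.prod isCompact_Icc) ?_
    exact ((wx_cont hB hb hσ).pow 2).mono (prod_mono (fun t ht => hσ.trans_le ht.1) le_rfl)
  refine (h1.union h2).mono_set ?_
  rintro ⟨t, x⟩ ⟨ht, hx⟩
  rcases le_total t σ with h | h
  · exact Or.inl ⟨⟨ht.1, h⟩, hx⟩
  · exact Or.inr ⟨⟨h, ht.2.le⟩, Ioo_subset_Icc_self hx⟩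

end

end Pool.Agent.V5helper93.NS
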