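import Pool.Agent.V5helper93.NS.Channel2

/-! # Null control of shear flows between no-slip walls -/

set_option autoImplicit false
set_option linter.all false

open MeasureTheory Set Filter Topology
open scoped ENNReal Interval

namespace Pool.Agent.V5helper93.NS

open Pool.Agent.Y308.BC

lemma scale_mem {l : ℝ} (hl : 0 < l) {f : ℝ → ℝ} (hf : MemLp f 2 (volume.restrict (Ioo 0 l))) :
    MemLp (fun x => f (l * x)) 2 mu := by
  have m := mp_div (l := 1 / l) (by positivity) l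
  have e1 : 1 / l * l = 1 := by field_simp
  rw [e1] at m
  have h0 : MemLp f 2 (ENNReal.ofReal (1 / l) • volume.restrict (Ioo 0 l)) :=
    hf.smul_measure ENNReal.ofReal_ne_top
  have h1 := h0.comp_measurePreserving m
  have e2 : (f ∘ fun y : ℝ => y / (1 / l)) = fun x => f (l * x) := by
    funext x
    simp only [Function.comp]
    congr 1
    field_simp
  rw [e2] at h1
  exact h1

variable {d : ℕ} {Ω W : Set (Sp (d + 1))} {l T : ℝ}

lemma IsTrajectory.congr_init {u₀ u₁ : Sp (d + 1) → Sp (d + 1)} {u : ℝ → Sp (d + 1) → Sp (d + 1)}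
    {p : ℝ → Sp (d + 1) → ℝ} (hΩ : IsOpen Ω) (h : IsTrajectory Ω W T u₀ u p)
    (h0 : ∀ x ∈ Ω, u₀ x = u₁ x) : IsTrajectory Ω W T u₁ u p := by
  refine ⟨h.cont, h.smooth, h.smooth_t, h.smooth_p, h.eqn, h.div, h.noslip, ?_, h.energy⟩
  refine h.init.congr fun t => ?_
  refine setLIntegral_congr_fun hΩ.measurableSet fun x hx => ?_
  show ENNReal.ofReal (∑ i, (u t x i - u₀ x i) ^ 2) = ENNReal.ofReal (∑ i, (u t x i - u₁ x i) ^ 2)
  rw [h0 x hx]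

/-- from profiles to trajectories -/
lemma finish (hΩo : IsOpen Ω) (hΩb : Bornology.IsBounded Ω) (hΩ : ∀ x ∈ Ω, x 0 ∈ Ioo 0 l)
    (hT : 0 < T) {W₀ : Set ℝ} (hW : ∀ x ∈ W, x 0 ∈ W₀) {f : Fin (d + 1) → ℝ → ℝ}
    (hf0 : ∀ y, f 0 y = 0)
    (h : ∀ i, ∃ (f' : ℝ → ℝ) (v vy vyy : ℝ → ℝ → ℝ) (P : ℝ → ℝ), Profile l T W₀ f' v vy vyy P ∧
      ∀ y ∈ Ioo 0 l, f' y = f i y) :
    ∃ u p, IsTrajectory Ω W T (fun x i => f i (x 0)) u p ∧ ∀ x ∈ closure Ω, u T x = 0 := by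
  classical
  have h' : ∀ i, ∃ (f' : ℝ → ℝ) (v vy vyy : ℝ → ℝ → ℝ) (P : ℝ → ℝ), Profile l T W₀ f' v vy vyy P ∧
      (∀ y ∈ Ioo 0 l, f' y = f i y) ∧ (i = 0 → ∀ t y, v t y = 0) := by
    intro i
    by_cases hi : i = 0
    · refine ⟨fun _ => 0, fun _ _ => 0, fun _ _ => 0, fun _ _ => 0, fun _ => 0,
        Profile.zero l T W₀, fun y _ => ?_, fun _ _ _ => rfl⟩
      rw [hi, hf0]
    · obtain ⟨f', v, vy, vyy, P, h1, h2⟩ := h i
      exact ⟨f', v, vy, vyy, P, h1, h2, fun h3 => absurd h3 hi⟩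
  choose f' v vy vyy P hP hf' hv using h'
  obtain ⟨h1, h2⟩ := traj hΩo hΩb hΩ hW hP (fun t y => hv 0 rfl t y) hT
  refine ⟨_, _, h1.congr_init hΩo (fun x hx => ?_), fun x hx => ?_⟩
  · funext i
    exact hf' i _ (hΩ x hx)
  · funext i
    exact h2 x hx i

/-- one flat wall -/
theorem one_wall (hΩo : IsOpen Ω) (hΩb : Bornology.IsBounded Ω) (hl : 0 < l)
    (hΩ : ∀ x ∈ Ω, x 0 ∈ Ioo 0 l) (hT : 0 < T) (hW : ∀ x ∈ W, x 0 = 0)
    {f : Fin (d + 1) → ℝ → ℝ} (hf0 : ∀ y, f 0 y = 0)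
    (hf : ∀ i, MemLp (f i) 2 (volume.restrict (Ioo 0 l))) :
    ∃ u p, IsTrajectory Ω W T (fun x i => f i (x 0)) u p ∧ ∀ x ∈ closure Ω, u T x = 0 := by
  refine finish hΩo hΩb hΩ hT (W₀ := {y | y / l ∈ ({0} : Set ℝ)}) (fun x hx => ?_) hf0 fun i => ?_
  · show x 0 / l ∈ ({0} : Set ℝ)
    rw [hW x hx, zero_div]; rfl
  · have hσ : 0 < T / (2 * l ^ 2) := by positivity
    have h1 := (profileA (scale_mem hl (hf i)) hσ).scale hl
    have e1 : l ^ 2 * (2 * (T / (2 * l ^ 2))) = T := by field_simp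
    rw [e1] at h1
    refine ⟨_, _, _, _, _, h1, fun y _ => ?_⟩
    show f i (l * (y / l)) = f i y
    rw [mul_div_cancel₀ _ hl.ne']

/-- two parallel walls -/
theorem two_walls (hΩo : IsOpen Ω) (hΩb : Bornology.IsBounded Ω) (hl : 0 < l)
    (hΩ : ∀ x ∈ Ω, x 0 ∈ Ioo 0 l) (hT : 0 < T) (hW : ∀ x ∈ W, x 0 = 0 ∨ x 0 = l)
    {f : Fin (d + 1) → ℝ → ℝ} (hf0 : ∀ y, f 0 y = 0)
    (hf : ∀ i, ∃ g : ℝ → ℝ, MemLp g 2 (volume.restrict (Ioo 0 l)) ∧
      (∀ y ∈ Ioo 0 l, g (l - y) = -g y) ∧ ∀ y ∈ Ioo 0 l, f i y = ∫ s in (0:ℝ)..y, g s) :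
    ∃ u p, IsTrajectory Ω W T (fun x i => f i (x 0)) u p ∧ ∀ x ∈ closure Ω, u T x = 0 := by
  refine finish hΩo hΩb hΩ hT (W₀ := {y | y / l ∈ ({0, 1} : Set ℝ)}) (fun x hx => ?_) hf0
    fun i => ?_
  · show x 0 / l ∈ ({0, 1} : Set ℝ)
    rcases hW x hx with h | h
    · rw [h, zero_div]; exact Or.inl rfl
    · rw [h, div_self hl.ne']; exact Or.inr rfl
  · obtain ⟨g, hg, ho, hfg⟩ := hf i
    have hσ : 0 < 2 * T / l ^ 2 := by positivity
    have hg1 : MemLp (fun s => l * g (l * s)) 2 mu := (scale_mem hl hg).const_mul l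
    have ho1 : ∀ s ∈ Ioo (0:ℝ) 1, (fun s => l * g (l * s)) (1 - s) = -(fun s => l * g (l * s)) s := by
      intro s hs
      have h2 := ho (l * s) ⟨mul_pos hl hs.1, by nlinarith [hs.2]⟩
      show l * g (l * (1 - s)) = -(l * g (l * s))
      rw [mul_sub, mul_one, h2]; ring
    have h1 := (profileB hg1 ho1 hσ).scale hl
    have e1 : l ^ 2 * (2 * T / l ^ 2 / 2) = T := by field_simp
    rw [e1] at h1
    refine ⟨_, _, _, _, _, h1, fun y hy => ?_⟩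
    show ∫ s in (0:ℝ)..(y / l), l * g (l * s) = f i y
    rw [hfg y hy, intervalIntegral.integral_const_mul, intervalIntegral.mul_integral_comp_mul_left,
      mul_zero, mul_div_cancel₀ _ hl.ne']

end Pool.Agent.V5helper93.NS
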