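import Pool.Agent.V5helper93.NS.Defs

/-! # Shear flows as trajectories -/

set_option autoImplicit false
set_option linter.all false

open MeasureTheory Set Filter Topology
open scoped ENNReal

namespace Pool.Agent.V5helper93.NS

/-- a solution `v` of `v_t = v_yy + P(t)` on `(0, T] × (0, ℓ)`, with `v = 0` on `W₀`, initial value
`f` and final value `0` -/
structure Profile (ℓ T : ℝ) (W₀ : Set ℝ) (f : ℝ → ℝ) (v vy vyy : ℝ → ℝ → ℝ) (P : ℝ → ℝ) :
    Prop where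
  cont : ContinuousOn (fun q : ℝ × ℝ => v q.1 q.2) (Ioc 0 T ×ˢ Icc 0 ℓ)
  dy : ∀ t ∈ Ioc 0 T, ∀ y ∈ Ioo 0 ℓ, HasDerivAt (v t) (vy t y) y
  dyy : ∀ t ∈ Ioc 0 T, ∀ y ∈ Ioo 0 ℓ, HasDerivAt (vy t) (vyy t y) y
  cyy : ∀ t ∈ Ioc 0 T, ContinuousOn (vyy t) (Ioo 0 ℓ)
  dt : ∀ t ∈ Ioc 0 T, ∀ y ∈ Ioo 0 ℓ, HasDerivAt (fun s => v s y) (vyy t y + P t) t
  wall : ∀ t ∈ Ioc 0 T, ∀ y ∈ W₀, v t y = 0
  init : Tendsto (fun t => ∫⁻ y in Ioo 0 ℓ, ENNReal.ofReal ((v t y - f y) ^ 2)) (𝓝[>] 0) (𝓝 0)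
  fin : ∀ y ∈ Icc 0 ℓ, v T y = 0
  energy : IntegrableOn (fun q : ℝ × ℝ => vy q.1 q.2 ^ 2) (Ioo 0 T ×ˢ Ioo 0 ℓ)
  meas : AEMeasurable f (volume.restrict (Ioo 0 ℓ))

lemma Profile.zero (ℓ T : ℝ) (W₀ : Set ℝ) : Profile ℓ T W₀ (fun _ => 0) (fun _ _ => 0)
    (fun _ _ => 0) (fun _ _ => 0) (fun _ => 0) where
  cont := continuousOn_const
  dy := fun t _ y _ => hasDerivAt_const y _
  dyy := fun t _ y _ => hasDerivAt_const y _
  cyy := fun t _ => continuousOn_const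
  dt := fun t _ y _ => by simpa using hasDerivAt_const t (0:ℝ)
  wall := fun t _ y _ => rfl
  init := by simp
  fin := fun y _ => rfl
  energy := by simp [IntegrableOn]
  meas := aemeasurable_const

variable {d : ℕ}

lemma pd_comp {g : ℝ → ℝ} {g' : ℝ} {x : Sp (d + 1)} (h : HasDerivAt g g' (x 0)) (j : Fin (d + 1)) :
    pd j (fun y => g (y 0)) x = if j = 0 then g' else 0 := by
  have h1 : HasFDerivAt (fun y : Sp (d + 1) => g (y 0)) (g' • ContinuousLinearMap.proj (R := ℝ)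
      (φ := fun _ : Fin (d + 1) => ℝ) 0) x :=
    h.comp_hasFDerivAt x (hasFDerivAt_apply 0 x)
  unfold pd
  rw [h1.fderiv]
  simp only [ContinuousLinearMap.smul_apply, ContinuousLinearMap.proj_apply, smul_eq_mul,
    Pi.single_apply]
  by_cases hj : j = 0
  · subst hj; simp
  · rw [if_neg hj, if_neg (Ne.symm hj), mul_zero]

lemma pd_lin (a : Fin (d + 1) → ℝ) (x : Sp (d + 1)) (i : Fin (d + 1)) :
    HasFDerivAt (fun x : Sp (d + 1) => -∑ k, a k * x k)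
      (-∑ k, a k • ContinuousLinearMap.proj (R := ℝ) (φ := fun _ : Fin (d + 1) => ℝ) k) x ∧
    pd i (fun x : Sp (d + 1) => -∑ k, a k * x k) x = -a i := by
  have h1 : HasFDerivAt (fun x : Sp (d + 1) => -∑ k, a k * x k)
      (-∑ k, a k • ContinuousLinearMap.proj (R := ℝ) (φ := fun _ : Fin (d + 1) => ℝ) k) x :=
    (HasFDerivAt.fun_sum fun k _ => (hasFDerivAt_apply k x).const_mul (a k)).neg
  refine ⟨h1, ?_⟩
  unfold pd
  rw [h1.fderiv]
  simp [ContinuousLinearMap.sum_apply, Pi.single_apply]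

lemma cd2 {g g1 g2 : ℝ → ℝ} {s : Set ℝ} (hs : IsOpen s) (h1 : ∀ x ∈ s, HasDerivAt g (g1 x) x)
    (h2 : ∀ x ∈ s, HasDerivAt g1 (g2 x) x) (h3 : ContinuousOn g2 s) : ContDiffOn ℝ 2 g s := by
  have a1 : ContDiffOn ℝ 1 g1 s := by
    rw [show (1 : WithTop ℕ∞) = 0 + 1 from rfl, contDiffOn_succ_iff_deriv_of_isOpen hs]
    refine ⟨fun x hx => (h2 x hx).differentiableAt.differentiableWithinAt, by simp, ?_⟩
    rw [contDiffOn_zero]
    exact h3.congr fun x hx => (h2 x hx).deriv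
  rw [show (2 : WithTop ℕ∞) = 1 + 1 from rfl, contDiffOn_succ_iff_deriv_of_isOpen hs]
  refine ⟨fun x hx => (h1 x hx).differentiableAt.differentiableWithinAt, by simp, ?_⟩
  exact a1.congr fun x hx => (h1 x hx).deriv

/-- the box -/
def box (d : ℕ) (ℓ R : ℝ) : Set (Sp (d + 1)) :=
  (MeasurableEquiv.piFinSuccAbove (fun _ : Fin (d + 1) => ℝ) 0) ⁻¹'
    (Ioo 0 ℓ ×ˢ (univ.pi fun _ => Icc (-R) R))

lemma mem_box {ℓ R : ℝ} {x : Sp (d + 1)} (h0 : x 0 ∈ Ioo 0 ℓ) (h : ∀ i, |x i| ≤ R) :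
    x ∈ box d ℓ R := by
  refine ⟨h0, fun i _ => ?_⟩
  exact abs_le.1 (h _)

lemma box_vol (R : ℝ) : volume (univ.pi fun _ : Fin d => Icc (-R) R) ≠ ⊤ :=
  (isCompact_univ_pi fun _ => isCompact_Icc).measure_lt_top.ne

lemma lint_box {ℓ R : ℝ} {Ω : Set (Sp (d + 1))} (hΩ : Ω ⊆ box d ℓ R) (g : ℝ → ℝ≥0∞) :
    ∫⁻ x in Ω, g (x 0) ≤ (∫⁻ y in Ioo 0 ℓ, g y) * volume (univ.pi fun _ : Fin d => Icc (-R) R) := by
  refine (lintegral_mono_set hΩ).trans ?_
  have h1 := (volume_preserving_piFinSuccAbove (fun _ : Fin (d + 1) => ℝ)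
    0).setLIntegral_comp_preimage_emb (MeasurableEquiv.measurableEmbedding _)
    (fun p : ℝ × (Fin d → ℝ) => g p.1) (Ioo 0 ℓ ×ˢ (univ.pi fun _ => Icc (-R) R))
  have h2 : ∫⁻ x in box d ℓ R, g (x 0) =
      ∫⁻ p in Ioo 0 ℓ ×ˢ (univ.pi fun _ : Fin d => Icc (-R) R), g p.1 := h1
  rw [h2, Measure.volume_eq_prod, ← Measure.prod_restrict]
  refine (lintegral_prod_le _).trans ?_
  simp only [lintegral_const, Measure.restrict_apply MeasurableSet.univ, univ_inter]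
  rw [lintegral_mul_const' _ _ (box_vol R)]

lemma int_box {ℓ R T : ℝ} {Ω : Set (Sp (d + 1))} (hΩ : Ω ⊆ box d ℓ R) {G : ℝ × ℝ → ℝ}
    (hG : IntegrableOn G (Ioo 0 T ×ˢ Ioo 0 ℓ)) :
    IntegrableOn (fun q : ℝ × Sp (d + 1) => G (q.1, q.2 0)) (Ioo 0 T ×ˢ Ω) := by
  have hB : IntegrableOn (fun q : ℝ × Sp (d + 1) => G (q.1, q.2 0)) (Ioo 0 T ×ˢ box d ℓ R) := by
    set K : Set (Fin d → ℝ) := univ.pi fun _ => Icc (-R) R with hK
    have hfin : IsFiniteMeasure (volume.restrict K) := by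
      constructor
      rw [Measure.restrict_apply_univ]
      exact (box_vol R).lt_top
    -- step 1: on (ℝ × ℝ) × rest
    have s1 : IntegrableOn (fun p : (ℝ × ℝ) × (Fin d → ℝ) => G p.1) ((Ioo 0 T ×ˢ Ioo 0 ℓ) ×ˢ K) := by
      unfold IntegrableOn
      rw [Measure.volume_eq_prod, ← Measure.prod_restrict]
      exact Integrable.comp_fst hG _
    -- step 2: reassociate
    have s2 : IntegrableOn (fun p : ℝ × (ℝ × (Fin d → ℝ)) => G (p.1, p.2.1))
        (Ioo 0 T ×ˢ (Ioo 0 ℓ ×ˢ K)) := by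
      have e := (volume_preserving_prodAssoc (α₁ := ℝ) (β₁ := ℝ) (γ₁ := Fin d → ℝ))
      rw [← e.integrableOn_comp_preimage (MeasurableEquiv.measurableEmbedding _)]
      have hset : (MeasurableEquiv.prodAssoc : (ℝ × ℝ) × (Fin d → ℝ) ≃ᵐ _) ⁻¹'
          (Ioo 0 T ×ˢ (Ioo 0 ℓ ×ˢ K)) = (Ioo 0 T ×ˢ Ioo 0 ℓ) ×ˢ K := by
        ext ⟨⟨a, b⟩, z⟩
        simp [MeasurableEquiv.prodAssoc, and_assoc]
      rw [hset]
      exact s1
    -- step 3: coordinates
    have e3 := (MeasurePreserving.id (volume : Measure ℝ)).prod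
      (volume_preserving_piFinSuccAbove (fun _ : Fin (d + 1) => ℝ) 0)
    have emb : MeasurableEmbedding (Prod.map (id : ℝ → ℝ)
        (MeasurableEquiv.piFinSuccAbove (fun _ : Fin (d + 1) => ℝ) 0)) :=
      ((MeasurableEquiv.refl ℝ).prodCongr (MeasurableEquiv.piFinSuccAbove
        (fun _ : Fin (d + 1) => ℝ) 0)).measurableEmbedding
    have s3 := (e3.integrableOn_comp_preimage emb
      (f := fun p : ℝ × (ℝ × (Fin d → ℝ)) => G (p.1, p.2.1))
      (s := Ioo 0 T ×ˢ (Ioo 0 ℓ ×ˢ K))).2 s2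
    exact s3
  exact hB.mono_set (prod_mono le_rfl hΩ)

/-- **Shear flows are trajectories.** -/
theorem traj {Ω W : Set (Sp (d + 1))} {ℓ T : ℝ} {W₀ : Set ℝ} (hΩo : IsOpen Ω)
    (hΩb : Bornology.IsBounded Ω) (hΩ : ∀ x ∈ Ω, x 0 ∈ Ioo 0 ℓ) (hW : ∀ x ∈ W, x 0 ∈ W₀)
    {f : Fin (d + 1) → ℝ → ℝ} {v vy vyy : Fin (d + 1) → ℝ → ℝ → ℝ} {P : Fin (d + 1) → ℝ → ℝ}
    (h : ∀ i, Profile ℓ T W₀ (f i) (v i) (vy i) (vyy i) (P i))
    (hv0 : ∀ t y, v 0 t y = 0) (hT : 0 < T) :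
    IsTrajectory Ω W T (fun x i => f i (x 0)) (fun t x i => v i t (x 0))
      (fun t x => -∑ k, P k t * x k) ∧
    ∀ x ∈ closure Ω, ∀ i, v i T (x 0) = 0 := by
  have hcl : ∀ x ∈ closure Ω, x 0 ∈ Icc 0 ℓ := by
    intro x hx
    have hc : IsClosed {x : Sp (d + 1) | x 0 ∈ Icc 0 ℓ} :=
      isClosed_Icc.preimage (continuous_apply 0)
    have hsub : Ω ⊆ {x : Sp (d + 1) | x 0 ∈ Icc 0 ℓ} := fun y hy =>
      Ioo_subset_Icc_self (hΩ y hy)
    exact closure_minimal hsub hc hx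
  obtain ⟨R, hR⟩ := hΩb.exists_norm_le
  have hbox : Ω ⊆ box d ℓ R := fun x hx => mem_box (hΩ x hx) fun i =>
    (norm_le_pi_norm x i).trans (hR x hx)
  have hpd : ∀ i j, ∀ t ∈ Ioc 0 T, ∀ x ∈ Ω,
      pd j (fun y : Sp (d + 1) => v i t (y 0)) x = if j = 0 then vy i t (x 0) else 0 :=
    fun i j t ht x hx => pd_comp ((h i).dy t ht _ (hΩ x hx)) j
  refine ⟨⟨?_, ?_, ?_, ?_, ?_, ?_, ?_, ?_, ?_⟩, fun x hx i => (h i).fin _ (hcl x hx)⟩
  · rw [continuousOn_pi]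
    intro i
    exact (h i).cont.comp (f := fun q : ℝ × Sp (d + 1) => (q.1, q.2 0)) (by fun_prop)
      fun q hq => ⟨hq.1, hcl _ hq.2⟩
  · intro t ht
    rw [contDiffOn_pi]
    intro i
    exact (cd2 isOpen_Ioo ((h i).dy t ht) ((h i).dyy t ht) ((h i).cyy t ht)).comp
      (contDiff_apply ℝ ℝ 0).contDiffOn fun x hx => hΩ x hx
  · intro t ht x hx
    rw [differentiableAt_pi]
    exact fun i => ((h i).dt t ht _ (hΩ x hx)).differentiableAt
  · intro t ht x hx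
    exact (pd_lin (fun k => P k t) x 0).1.differentiableAt.differentiableWithinAt
  · intro t ht x hx i
    have e1 := ((h i).dt t ht _ (hΩ x hx)).deriv
    rw [e1, (pd_lin (fun k => P k t) x i).2]
    have e2 : ∑ j, v j t (x 0) * pd j (fun y : Sp (d + 1) => v i t (y 0)) x = 0 := by
      refine Finset.sum_eq_zero fun j _ => ?_
      rw [hpd i j t ht x hx]
      by_cases hj : j = 0
      · rw [hj, hv0, zero_mul]
      · rw [if_neg hj, mul_zero]
    have e3 : ∑ j, pd j (pd j fun y : Sp (d + 1) => v i t (y 0)) x = vyy i t (x 0) := by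
      rw [Finset.sum_eq_single 0]
      · have e4 : (pd 0 fun y : Sp (d + 1) => v i t (y 0)) =ᶠ[𝓝 x] fun y => vy i t (y 0) := by
          filter_upwards [hΩo.mem_nhds hx] with y hy
          rw [hpd i 0 t ht y hy, if_pos rfl]
        have e5 := pd_comp ((h i).dyy t ht _ (hΩ x hx)) 0
        rw [if_pos rfl] at e5
        rw [← e5]
        unfold pd at e4 ⊢
        rw [e4.fderiv_eq]
      · intro j _ hj
        have e4 : (pd j fun y : Sp (d + 1) => v i t (y 0)) =ᶠ[𝓝 x] fun _ => 0 := by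
          filter_upwards [hΩo.mem_nhds hx] with y hy
          rw [hpd i j t ht y hy, if_neg hj]
        unfold pd at e4 ⊢
        rw [e4.fderiv_eq]
        simp
      · intro h0; exact absurd (Finset.mem_univ _) h0
    show (vyy i t (x 0) + P i t) + ∑ j, v j t (x 0) * pd j (fun y : Sp (d + 1) => v i t (y 0)) x
      - ∑ j, pd j (pd j fun y : Sp (d + 1) => v i t (y 0)) x + -P i t = 0
    rw [e2, e3]; ring
  · intro t ht x hx
    refine Finset.sum_eq_zero fun j _ => ?_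
    rw [hpd j j t ht x hx]
    by_cases hj : j = 0
    · subst hj
      rw [if_pos rfl]
      have e1 := (h 0).dy t ht _ (hΩ x hx)
      have e2 : HasDerivAt (v 0 t) 0 (x 0) := by
        have : v 0 t = fun _ => 0 := by funext y; exact hv0 t y
        rw [this]; exact hasDerivAt_const _ _
      exact e1.unique e2
    · rw [if_neg hj]
  · intro t ht x hx
    funext i
    exact (h i).wall t ht _ (hW x hx)
  · have h1 : ∀ t ∈ Ioc 0 T, ∫⁻ x in Ω, ENNReal.ofReal (∑ i, (v i t (x 0) - f i (x 0)) ^ 2) ≤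
        ∑ i, (∫⁻ y in Ioo 0 ℓ, ENNReal.ofReal ((v i t y - f i y) ^ 2)) *
          volume (univ.pi fun _ : Fin d => Icc (-R) R) := by
      intro t ht
      have h2 := lint_box hbox fun y => ∑ i, ENNReal.ofReal ((v i t y - f i y) ^ 2)
      have hsum : ∫⁻ y in Ioo 0 ℓ, ∑ i, ENNReal.ofReal ((v i t y - f i y) ^ 2) =
          ∑ i, ∫⁻ y in Ioo 0 ℓ, ENNReal.ofReal ((v i t y - f i y) ^ 2) := by
        refine lintegral_finset_sum' _ fun i _ => ?_
        have a1 : ContinuousOn (v i t) (Ioo 0 ℓ) := by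
          refine ((h i).cont.comp (f := fun y : ℝ => (t, y)) (by fun_prop)
            fun y hy => ⟨ht, Ioo_subset_Icc_self hy⟩)
        have a2 := a1.aemeasurable (μ := volume) measurableSet_Ioo
        exact ((a2.sub (h i).meas).pow_const 2).ennreal_ofReal
      rw [hsum, Finset.sum_mul] at h2
      refine le_trans (le_of_eq ?_) h2
      refine lintegral_congr fun x => ?_
      rw [ENNReal.ofReal_sum_of_nonneg fun i _ => sq_nonneg _]
    have h3 : Tendsto (fun t => ∑ i, (∫⁻ y in Ioo 0 ℓ, ENNReal.ofReal ((v i t y - f i y) ^ 2)) *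
        volume (univ.pi fun _ : Fin d => Icc (-R) R)) (𝓝[>] 0) (𝓝 (∑ i : Fin (d + 1), 0 *
        volume (univ.pi fun _ : Fin d => Icc (-R) R))) :=
      tendsto_finsetSum _ fun i _ => ENNReal.Tendsto.mul_const (h i).init (Or.inr (box_vol R))
    simp only [zero_mul, Finset.sum_const_zero] at h3
    refine tendsto_of_tendsto_of_tendsto_of_le_of_le' tendsto_const_nhds h3
      (Eventually.of_forall fun _ => bot_le) ?_
    filter_upwards [Ioc_mem_nhdsGT hT] with t ht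
    exact h1 t ht
  · intro i j
    by_cases hj : j = 0
    · have h1 := int_box hbox (h i).energy
      refine h1.congr_fun ?_ (measurableSet_Ioo.prod hΩo.measurableSet)
      intro q hq
      show vy i q.1 (q.2 0) ^ 2 = pd j (fun y : Sp (d + 1) => v i q.1 (y 0)) q.2 ^ 2
      rw [hpd i j q.1 (Ioo_subset_Ioc_self hq.1) q.2 hq.2, if_pos hj]
    · have h1 : IntegrableOn (fun _ : ℝ × Sp (d + 1) => (0:ℝ)) (Ioo 0 T ×ˢ Ω) := by
        simp [IntegrableOn]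
      refine h1.congr_fun ?_ (measurableSet_Ioo.prod hΩo.measurableSet)
      intro q hq
      show 0 = pd j (fun y : Sp (d + 1) => v i q.1 (y 0)) q.2 ^ 2
      rw [hpd i j q.1 (Ioo_subset_Ioc_self hq.1) q.2 hq.2, if_neg hj]
      norm_num

end Pool.Agent.V5helper93.NS
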