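import Pool.Agent.V5helper93.NS.Poly
import Pool.Agent.V5helper93.NS.Shear

/-! # Flows along pipes with round cross-section -/

set_option autoImplicit false
set_option linter.all false

open MeasureTheory Set Filter Topology
open scoped ENNReal

namespace Pool.Agent.V5helper93.NS

open Pool.Agent.Y308.BC

variable {n : ℕ}

/-- the sum of the squares of the coordinates in `J` -/
def rho (J : Finset (Fin n)) (x : Sp n) : ℝ := ∑ j ∈ J, x j ^ 2

lemma rho_nonneg (J : Finset (Fin n)) (x : Sp n) : 0 ≤ rho J x :=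
  Finset.sum_nonneg fun j _ => sq_nonneg _

lemma rho_contDiff (J : Finset (Fin n)) : ContDiff ℝ 2 (rho J) := by
  unfold rho
  exact ContDiff.sum fun j _ => (contDiff_apply ℝ ℝ j).pow 2

lemma rho_cont (J : Finset (Fin n)) : Continuous (rho J) := (rho_contDiff J).continuous

lemma rho_fd (J : Finset (Fin n)) (x : Sp n) : HasFDerivAt (rho J)
    (∑ j ∈ J, (2 * x j) • ContinuousLinearMap.proj (R := ℝ) (φ := fun _ : Fin n => ℝ) j) x := by
  unfold rho
  refine HasFDerivAt.fun_sum fun j _ => ?_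
  refine ((hasFDerivAt_apply (𝕜 := ℝ) j x).pow 2).congr_fderiv ?_
  ext v
  simp
  try ring

lemma pd_rho (J : Finset (Fin n)) {g : ℝ → ℝ} {g' : ℝ} {x : Sp n} (h : HasDerivAt g g' (rho J x))
    (j : Fin n) : HasFDerivAt (fun y => g (rho J y)) (g' • ∑ j ∈ J, (2 * x j) •
      ContinuousLinearMap.proj (R := ℝ) (φ := fun _ : Fin n => ℝ) j) x ∧
    pd j (fun y => g (rho J y)) x = if j ∈ J then g' * (2 * x j) else 0 := by
  have h1 : HasFDerivAt (fun y => g (rho J y)) (g' • ∑ j ∈ J, (2 * x j) •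
      ContinuousLinearMap.proj (R := ℝ) (φ := fun _ : Fin n => ℝ) j) x :=
    h.comp_hasFDerivAt x (rho_fd J x)
  refine ⟨h1, ?_⟩
  unfold pd
  rw [h1.fderiv]
  simp only [ContinuousLinearMap.smul_apply, ContinuousLinearMap.sum_apply,
    ContinuousLinearMap.proj_apply, smul_eq_mul, Pi.single_apply, mul_ite, mul_one, mul_zero]
  rw [Finset.sum_ite_eq' J j]
  split_ifs <;> ring

lemma pd_rho2 (J : Finset (Fin n)) {g : ℝ → ℝ} {g' : ℝ} {x : Sp n}
    (h : HasDerivAt g g' (rho J x)) {j : Fin n} (hj : j ∈ J) :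
    pd j (fun y => g (rho J y) * (2 * y j)) x = 4 * x j ^ 2 * g' + 2 * g (rho J x) := by
  have h1 := (pd_rho J h j).1
  have h2 : HasFDerivAt (fun y : Sp n => 2 * y j)
      ((2:ℝ) • ContinuousLinearMap.proj (R := ℝ) (φ := fun _ : Fin n => ℝ) j) x :=
    (hasFDerivAt_apply j x).const_mul 2
  have h3 := h1.mul h2
  have h4 : fderiv ℝ (fun y : Sp n => g (rho J y) * (2 * y j)) x = _ := h3.fderiv
  unfold pd
  rw [h4]
  simp only [ContinuousLinearMap.add_apply, ContinuousLinearMap.smul_apply,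
    ContinuousLinearMap.sum_apply, ContinuousLinearMap.proj_apply, smul_eq_mul, Pi.single_apply,
    mul_ite, mul_one, mul_zero, if_true]
  rw [Finset.sum_ite_eq' J j, if_pos hj]
  ring

lemma pd_const (j : Fin n) (a : ℝ) (x : Sp n) : pd j (fun _ => a) x = 0 := by
  unfold pd; simp

lemma pd_lin2 (a : Fin n → ℝ) (x : Sp n) (i : Fin n) :
    HasFDerivAt (fun x : Sp n => -∑ k, a k * x k)
      (-∑ k, a k • ContinuousLinearMap.proj (R := ℝ) (φ := fun _ : Fin n => ℝ) k) x ∧
    pd i (fun x : Sp n => -∑ k, a k * x k) x = -a i := by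
  have h1 : HasFDerivAt (fun x : Sp n => -∑ k, a k * x k)
      (-∑ k, a k • ContinuousLinearMap.proj (R := ℝ) (φ := fun _ : Fin n => ℝ) k) x :=
    (HasFDerivAt.fun_sum fun k _ => (hasFDerivAt_apply k x).const_mul (a k)).neg
  refine ⟨h1, ?_⟩
  unfold pd
  rw [h1.fderiv]
  simp [ContinuousLinearMap.sum_apply, Pi.single_apply]

/-- **Flows along round pipes.** -/
theorem pipe (J : Finset (Fin n)) (hJ : 1 ≤ J.card) {Ω W : Set (Sp n)} (hΩo : IsOpen Ω)
    (hΩb : Bornology.IsBounded Ω) {B T : ℝ} (hB : 0 < B) (hT : 0 < T)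
    (hΩ : ∀ x ∈ Ω, rho J x < B) (hW : ∀ x ∈ W, rho J x = B) (q : Fin n → Polynomial ℝ)
    (hq : ∀ i, (q i).eval B = 0) :
    ∃ u p, IsTrajectory Ω W T (fun x i => if i ∈ J then 0 else (q i).eval (rho J x)) u p ∧
      ∀ x, u T x = 0 := by
  classical
  set m := J.card with hm
  set S := B + 1 with hS
  have hS1 : 1 ≤ S := by linarith
  set I : Set ℝ := Ioo (-1) (T + 1) with hI
  have hIT : Icc 0 T ⊆ I := fun t ht => ⟨by linarith [ht.1], by linarith [ht.2]⟩
  have hIT' : Ioc 0 T ⊆ I := fun t ht => hIT ⟨ht.1.le, ht.2⟩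
  choose K D hK hD hb using fun i => al2_bound m (q i) hT
  set α : Fin n → ℕ → ℝ → ℝ := fun i => al2 m (q i) T with hα
  have hb' : ∀ i k, ∀ t ∈ I, |α i k t| ≤ K i * wD (D i) k := hb
  have hd : ∀ i k, ∀ t ∈ I, HasDerivAt (α i k) (α i (k + 1) t) t := fun i k t _ => al2_deriv _ _ _ _ _
  have hc : ∀ i k, ContinuousOn (α i k) I := fun i k t ht => (hd i k t ht).continuousAt.continuousWithinAt
  have hcl : ∀ x ∈ closure Ω, rho J x ∈ Icc 0 B := by
    intro x hx
    have hc : IsClosed {x : Sp n | rho J x ∈ Icc 0 B} := isClosed_Icc.preimage (rho_cont J)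
    have hsub : Ω ⊆ {x : Sp n | rho J x ∈ Icc 0 B} := fun y hy =>
      ⟨rho_nonneg J y, (hΩ y hy).le⟩
    exact closure_minimal hsub hc hx
  have hBS : |B| ≤ S := by rw [abs_of_pos hB]; linarith
  have hrS : ∀ s ∈ Icc 0 B, |s| < S := fun s hs => by rw [abs_of_nonneg hs.1]; linarith [hs.2]
  set G : Fin n → ℝ → ℝ → ℝ := fun i t s => g0 m (α i) t s - g0 m (α i) t B with hG
  have G_ds : ∀ i, ∀ t ∈ I, ∀ s ∈ Ioo (-S) S, HasDerivAt (G i t) (g1 m (α i) t s) s :=
    fun i t ht s hs => (g0_ds hJ (hD i) (hK i) hS1 (hb' i) ht (abs_lt.2 hs)).sub_const _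
  have G1_ds : ∀ i, ∀ t ∈ I, ∀ s ∈ Ioo (-S) S,
      HasDerivAt (g1 m (α i) t) (g2 m (α i) t s) s :=
    fun i t ht s hs => g1_ds hJ (hD i) (hK i) hS1 (hb' i) ht (abs_lt.2 hs)
  have G_dt : ∀ i, ∀ t ∈ I, ∀ s, |s| ≤ S → HasDerivAt (fun t => G i t s)
      (gt m (α i) t s - gt m (α i) t B) t := fun i t ht s hs =>
    (g0_dt hJ (hD i) (hK i) hS1 (hb' i) isOpen_Ioo isPreconnected_Ioo (hd i) ht hs).sub
      (g0_dt hJ (hD i) (hK i) hS1 (hb' i) isOpen_Ioo isPreconnected_Ioo (hd i) ht hBS)
  have hr : ∀ x ∈ Ω, rho J x ∈ Ioo (-S) S := fun x hx =>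
    abs_lt.1 (hrS _ (hcl x (subset_closure hx)))
  -- partial derivatives
  have hpd : ∀ i j, ∀ t ∈ I, ∀ x ∈ Ω, pd j (fun y : Sp n => G i t (rho J y)) x =
      if j ∈ J then g1 m (α i) t (rho J x) * (2 * x j) else 0 :=
    fun i j t ht x hx => (pd_rho J (G_ds i t ht _ (hr x hx)) j).2
  set u : ℝ → Sp n → Sp n := fun t x i => if i ∈ J then 0 else G i t (rho J x) with hu
  set P : Fin n → ℝ → ℝ := fun i t => if i ∈ J then 0 else -gt m (α i) t B with hP
  have hui : ∀ i, i ∈ J → ∀ t, (fun y : Sp n => u t y i) = fun _ => 0 := by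
    intro i hi t; funext y; simp only [hu, if_pos hi]
  have hui' : ∀ i, i ∉ J → ∀ t, (fun y : Sp n => u t y i) = fun y => G i t (rho J y) := by
    intro i hi t; funext y; simp only [hu, if_neg hi]
  have hcontG : ∀ i, ContinuousOn (fun q : ℝ × Sp n => G i q.1 (rho J q.2))
      (Icc 0 T ×ˢ closure Ω) := by
    intro i
    have c1 := g0_cont hJ (hD i) (hK i) hS1 (hb' i) (hc i)
    have c2 : ContinuousOn (fun q : ℝ × Sp n => g0 m (α i) q.1 (rho J q.2))
        (Icc 0 T ×ˢ closure Ω) :=
      c1.comp (f := fun q : ℝ × Sp n => (q.1, rho J q.2))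
        (continuous_fst.prodMk ((rho_cont J).comp continuous_snd)).continuousOn
        fun q hq => ⟨hIT hq.1, abs_le.1 (hrS _ (hcl _ hq.2)).le⟩
    have c3 : ContinuousOn (fun q : ℝ × Sp n => g0 m (α i) q.1 B) (Icc 0 T ×ˢ closure Ω) :=
      c1.comp (f := fun q : ℝ × Sp n => (q.1, B))
        (continuous_fst.prodMk continuous_const).continuousOn
        fun q hq => ⟨hIT hq.1, abs_le.1 hBS⟩
    exact c2.sub c3
  refine ⟨u, fun t x => -∑ k, P k t * x k, ⟨?_, ?_, ?_, ?_, ?_, ?_, ?_, ?_, ?_⟩, ?_⟩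
  · rw [continuousOn_pi]
    intro i
    by_cases hi : i ∈ J
    · have : (fun y : ℝ × Sp n => u y.1 y.2 i) = fun _ => 0 := by
        funext y; simp only [hu, if_pos hi]
      rw [this]; exact continuousOn_const
    · have : (fun y : ℝ × Sp n => u y.1 y.2 i) = fun y => G i y.1 (rho J y.2) := by
        funext y; simp only [hu, if_neg hi]
      rw [this]
      exact (hcontG i).mono (prod_mono (fun t ht => ⟨ht.1.le, ht.2⟩) le_rfl)
  · intro t ht
    rw [contDiffOn_pi]
    intro i
    by_cases hi : i ∈ J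
    · rw [hui i hi t]; exact contDiffOn_const
    · rw [hui' i hi t]
      refine (cd2 isOpen_Ioo (G_ds i t (hIT' ht)) (G1_ds i t (hIT' ht)) ?_).comp
        (rho_contDiff J).contDiffOn hr
      exact (g2_cont hJ (hD i) (hK i) hS1 (hb' i) (hc i)).comp (f := fun s : ℝ => (t, s))
        (by fun_prop) fun s hs => ⟨hIT' ht, Ioo_subset_Icc_self hs⟩
  · intro t ht x hx
    rw [differentiableAt_pi]
    intro i
    by_cases hi : i ∈ J
    · have : (fun s => u s x i) = fun _ => 0 := by funext s; simp only [hu, if_pos hi]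
      rw [this]; exact differentiableAt_const _
    · have : (fun s => u s x i) = fun s => G i s (rho J x) := by
        funext s; simp only [hu, if_neg hi]
      rw [this]
      exact (G_dt i t (hIT' ht) _ (abs_lt.2 (hr x hx)).le).differentiableAt
  · intro t ht x hx
    obtain ⟨i0, _⟩ := Finset.card_pos.1 (lt_of_lt_of_le one_pos hJ)
    exact (pd_lin2 (fun k => P k t) x i0).1.differentiableAt.differentiableWithinAt
  · intro t ht x hx i
    rw [(pd_lin2 (fun k => P k t) x i).2]
    by_cases hi : i ∈ J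
    · have e0 : (fun s => u s x i) = fun _ => 0 := by funext s; simp only [hu, if_pos hi]
      rw [e0, hui i hi t]
      have e1 : ∀ j, pd j (fun _ : Sp n => (0:ℝ)) = fun _ => 0 := by
        intro j; funext y; exact pd_const j 0 y
      simp_rw [e1]
      simp only [pd_const, mul_zero, Finset.sum_const_zero, deriv_const, hP, if_pos hi]
      norm_num
    · have e0 : (fun s => u s x i) = fun s => G i s (rho J x) := by
        funext s; simp only [hu, if_neg hi]
      rw [e0, hui' i hi t, (G_dt i t (hIT' ht) _ (abs_lt.2 (hr x hx)).le).deriv]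
      have e2 : ∑ j, u t x j * pd j (fun y : Sp n => G i t (rho J y)) x = 0 := by
        refine Finset.sum_eq_zero fun j _ => ?_
        rw [hpd i j t (hIT' ht) x hx]
        by_cases hj : j ∈ J
        · simp only [hu, if_pos hj, zero_mul]
        · rw [if_neg hj, mul_zero]
      have e3 : ∑ j, pd j (pd j fun y : Sp n => G i t (rho J y)) x =
          gt m (α i) t (rho J x) := by
        have e4 : ∀ j, pd j (pd j fun y : Sp n => G i t (rho J y)) x = if j ∈ J then
            4 * x j ^ 2 * g2 m (α i) t (rho J x) + 2 * g1 m (α i) t (rho J x) else 0 := by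
          intro j
          by_cases hj : j ∈ J
          · rw [if_pos hj, ← pd_rho2 J (G1_ds i t (hIT' ht) _ (hr x hx)) hj]
            have e5 : (pd j fun y : Sp n => G i t (rho J y)) =ᶠ[𝓝 x]
                fun y => g1 m (α i) t (rho J y) * (2 * y j) := by
              filter_upwards [hΩo.mem_nhds hx] with y hy
              rw [hpd i j t (hIT' ht) y hy, if_pos hj]
            unfold pd at e5 ⊢
            rw [e5.fderiv_eq]
          · rw [if_neg hj]
            have e5 : (pd j fun y : Sp n => G i t (rho J y)) =ᶠ[𝓝 x] fun _ => 0 := by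
              filter_upwards [hΩo.mem_nhds hx] with y hy
              rw [hpd i j t (hIT' ht) y hy, if_neg hj]
            unfold pd at e5 ⊢
            rw [e5.fderiv_eq]
            simp
        simp_rw [e4]
        rw [Finset.sum_ite_mem, Finset.univ_inter, Finset.sum_add_distrib, Finset.sum_const,
          nsmul_eq_mul]
        rw [← radial hJ (hD i) (hK i) hS1 (hb' i) (hIT' ht) (abs_lt.2 (hr x hx)).le]
        have e6 : ∑ j ∈ J, 4 * x j ^ 2 * g2 m (α i) t (rho J x) =
            4 * rho J x * g2 m (α i) t (rho J x) := by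
          unfold rho
          rw [Finset.mul_sum, Finset.sum_mul]
        rw [e6]
        ring
      rw [e2, e3]
      simp only [hP, if_neg hi]
      ring
  · intro t ht x hx
    refine Finset.sum_eq_zero fun j _ => ?_
    by_cases hj : j ∈ J
    · rw [hui j hj t]; exact pd_const j 0 x
    · rw [hui' j hj t, hpd j j t (hIT' ht) x hx, if_neg hj]
  · intro t ht x hx
    funext i
    by_cases hi : i ∈ J
    · simp only [hu, if_pos hi]; rfl
    · simp only [hu, if_neg hi, hG, hW x hx, sub_self]; rfl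
  · -- the initial value
    have hM : ∀ i, ∃ M : ℝ, 0 ≤ M ∧ ∀ t ∈ Icc 0 T, ∀ s ∈ Icc 0 B,
        (G i t s - (q i).eval s) ^ 2 ≤ (M * t) ^ 2 := by
      intro i
      set M0 := ∑' k, 4 * m * K i * maj (4 * S * D i) (k + 1) with hM0
      have hgt : ∀ t ∈ I, ∀ s, |s| ≤ S → |gt m (α i) t s| ≤ M0 := fun t ht s hs =>
        gt_bound hJ (hD i) (hK i) hS1 (hb' i) ht hs
      have hM00 : 0 ≤ M0 := (abs_nonneg _).trans (hgt 0 (hIT ⟨le_rfl, hT.le⟩) B hBS)
      refine ⟨2 * M0, by positivity, fun t ht s hs => ?_⟩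
      have h0 : G i 0 s = (q i).eval s := by
        simp only [hG, hα]
        rw [g0_init hJ, g0_init hJ, hq i, sub_zero]
      have h1 := (convex_Icc (0:ℝ) T).norm_image_sub_le_of_norm_hasDerivWithin_le
        (f := fun t => G i t s) (f' := fun t => gt m (α i) t s - gt m (α i) t B) (C := 2 * M0)
        (x := 0) (y := t)
        (fun t ht => (G_dt i t (hIT ht) s (hrS s hs).le).hasDerivWithinAt)
        (fun t ht => by
          refine (norm_sub_le _ _).trans ?_
          have a1 := hgt t (hIT ht) s (hrS s hs).le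
          have a2 := hgt t (hIT ht) B hBS
          rw [Real.norm_eq_abs, Real.norm_eq_abs]; linarith)
        ⟨le_rfl, hT.le⟩ ht
      simp only [h0, sub_zero, Real.norm_eq_abs, abs_of_nonneg ht.1] at h1
      rw [sq_le_sq]
      refine h1.trans (le_abs_self _)
    choose M hM0 hM using hM
    have hvol : volume Ω ≠ ⊤ := hΩb.measure_lt_top.ne
    have h1 : ∀ t ∈ Ioc 0 T, ∫⁻ x in Ω, ENNReal.ofReal
        (∑ i, (u t x i - if i ∈ J then 0 else (q i).eval (rho J x)) ^ 2) ≤
        ENNReal.ofReal (∑ i, (M i * t) ^ 2) * volume Ω := by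
      intro t ht
      rw [← setLIntegral_const]
      refine setLIntegral_mono measurable_const fun x hx => ?_
      refine ENNReal.ofReal_le_ofReal (Finset.sum_le_sum fun i _ => ?_)
      by_cases hi : i ∈ J
      · simp only [hu, if_pos hi, sub_self]
        rw [zero_pow two_ne_zero]
        positivity
      · simp only [hu, if_neg hi]
        exact hM i t ⟨ht.1.le, ht.2⟩ _ (hcl x (subset_closure hx))
    have h2 : Tendsto (fun t : ℝ => ENNReal.ofReal (∑ i, (M i * t) ^ 2) * volume Ω) (𝓝[>] 0)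
        (𝓝 (ENNReal.ofReal (∑ i, (M i * 0) ^ 2) * volume Ω)) := by
      refine ENNReal.Tendsto.mul_const (ENNReal.tendsto_ofReal ?_) (Or.inr hvol)
      have : Continuous fun t : ℝ => ∑ i, (M i * t) ^ 2 := by fun_prop
      exact (this.tendsto 0).mono_left nhdsWithin_le_nhds
    simp only [mul_zero, ne_eq, OfNat.ofNat_ne_zero, not_false_eq_true, zero_pow,
      Finset.sum_const_zero, ENNReal.ofReal_zero, zero_mul] at h2
    refine tendsto_of_tendsto_of_tendsto_of_le_of_le' tendsto_const_nhds h2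
      (Eventually.of_forall fun _ => bot_le) ?_
    filter_upwards [Ioc_mem_nhdsGT hT] with t ht
    exact h1 t ht
  · intro i j
    have hz : IntegrableOn (fun _ : ℝ × Sp n => (0:ℝ)) (Ioo 0 T ×ˢ Ω) := by simp [IntegrableOn]
    by_cases hi : i ∈ J
    · refine hz.congr_fun ?_ (measurableSet_Ioo.prod hΩo.measurableSet)
      intro p hp
      show (0:ℝ) = pd j (fun y => u p.1 y i) p.2 ^ 2
      rw [hui i hi, pd_const]; norm_num
    · by_cases hj : j ∈ J
      · have c1 : ContinuousOn (fun p : ℝ × Sp n => (g1 m (α i) p.1 (rho J p.2) * (2 * p.2 j)) ^ 2)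
            (Icc 0 T ×ˢ closure Ω) := by
          refine ContinuousOn.pow (ContinuousOn.mul ?_ (by fun_prop)) 2
          exact (g1_cont hJ (hD i) (hK i) hS1 (hb' i) (hc i)).comp
            (f := fun q : ℝ × Sp n => (q.1, rho J q.2))
            (continuous_fst.prodMk ((rho_cont J).comp continuous_snd)).continuousOn
            fun q hq => ⟨hIT hq.1, abs_le.1 (hrS _ (hcl _ hq.2)).le⟩
        have c2 := c1.integrableOn_compact (μ := volume)
          (isCompact_Icc.prod hΩb.isCompact_closure)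
        have c3 := c2.mono_set (prod_mono Ioo_subset_Icc_self subset_closure)
        refine c3.congr_fun ?_ (measurableSet_Ioo.prod hΩo.measurableSet)
        intro p hp
        show _ = pd j (fun y => u p.1 y i) p.2 ^ 2
        rw [hui' i hi, hpd i j p.1 (hIT' (Ioo_subset_Ioc_self hp.1)) p.2 hp.2, if_pos hj]
      · refine hz.congr_fun ?_ (measurableSet_Ioo.prod hΩo.measurableSet)
        intro p hp
        show (0:ℝ) = pd j (fun y => u p.1 y i) p.2 ^ 2
        rw [hui' i hi, hpd i j p.1 (hIT' (Ioo_subset_Ioc_self hp.1)) p.2 hp.2, if_neg hj]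
        norm_num
  · intro x
    funext i
    by_cases hi : i ∈ J
    · simp only [hu, if_pos hi]; rfl
    · simp only [hu, if_neg hi, hG, hα]
      rw [g0_end _ _ hT, g0_end _ _ hT, sub_self]; rfl

end Pool.Agent.V5helper93.NS
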