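import Pool.Agent.V5helper93.NS.Entire
import Pool.Agent.V5helper93.NS.Pipe

/-! # Flows along pipes with round cross-section: entire profiles -/

set_option autoImplicit false
set_option linter.all false

open MeasureTheory Set Filter Topology
open scoped ENNReal

namespace Pool.Agent.V5helper93.NS

open Pool.Agent.Y308.BC

variable {n : ℕ}

/-- **Flows along round pipes.** -/
theorem pipe2 (J : Finset (Fin n)) (hJ : 1 ≤ J.card) {Ω W : Set (Sp n)} (hΩo : IsOpen Ω)
    (hΩb : Bornology.IsBounded Ω) {B T : ℝ} (hB : 0 < B) (hT : 0 < T)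
    (hΩ : ∀ x ∈ Ω, rho J x < B) (hW : ∀ x ∈ W, rho J x = B) (a : Fin n → ℕ → ℝ) {C r : ℝ}
    (hC : 0 ≤ C) (hrr : 0 ≤ r) (ha : ∀ i l, |a i l| ≤ C * r ^ l / l.factorial)
    (ha0 : ∀ i, ∑' l, a i l * B ^ l = 0) :
    ∃ u p, IsTrajectory Ω W T (fun x i => if i ∈ J then 0 else ∑' l, a i l * rho J x ^ l) u p ∧
      ∀ x, u T x = 0 := by
  classical
  set m := J.card with hm
  set S := B + 1 with hS
  have hS1 : 1 ≤ S := by linarith
  set D0 : ℝ := 4 * m * r + 1 with hD0
  have hD0p : 0 < D0 := by positivity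
  have hβ : ∀ i l, |a i l * cc m l| ≤ C * (D0 ^ l * l.factorial) := by
    intro i l
    have h1 := cc_le hJ l
    have h2 := cc_pos hJ l
    have h3 : (0:ℝ) < l.factorial := by positivity
    rw [abs_mul, abs_of_pos h2]
    calc |a i l| * cc m l ≤ (C * r ^ l / l.factorial) *
        ((4 * m) ^ l * ((l.factorial : ℝ) * l.factorial)) := by
          have := ha i l
          gcongr
      _ = C * ((4 * m * r) ^ l * l.factorial) := by
          rw [mul_pow (4 * (m:ℝ)) r]; field_simp
      _ ≤ _ := by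
          gcongr
          rw [hD0]; linarith
  choose α K D hK hD hb' hd hα0 hαT using fun i => exists_tower hC hD0p (hβ i) hT
  set I : Set ℝ := Ioo (-(min T (1 / (8 * D0)))) (T + 1) with hI
  have hI0 : 0 < min T (1 / (8 * D0)) := lt_min hT (by positivity)
  have hIT : Icc 0 T ⊆ I := fun t ht => ⟨by linarith [ht.1], by linarith [ht.2]⟩
  have hIT' : Ioc 0 T ⊆ I := fun t ht => hIT ⟨ht.1.le, ht.2⟩
  have g0i : ∀ i s, g0 m (α i) 0 s = ∑' l, a i l * s ^ l := by
    intro i s
    unfold g0
    refine tsum_congr fun l => ?_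
    rw [hα0]
    have := cc_pos hJ l
    field_simp
  have g0e : ∀ i s, g0 m (α i) T s = 0 := by
    intro i s
    unfold g0
    simp_rw [hαT]
    simp
  have hc : ∀ i k, ContinuousOn (α i k) I := fun i k t ht => (hd i k t ht).continuousAt.continuousWithinAt
  have hcl : ∀ x ∈ closure Ω, rho J x ∈ Icc 0 B := by
    intro x hx
    have hc : IsClosed {x : Sp n | rho J x ∈ Icc 0 B} := isClosed_Icc.preimage (rho_cont J)
    have hsub : Ω ⊆ {x : Sp n | rho J x ∈ Icc 0 B} := fun y hy =>
      ⟨rho_nonneg J y, (hΩ y hy).le⟩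
    exact closure_minimal hsub hc hx
  have hBS : |B| ≤ S := by rw [abs_of_pos hB]; linarith
  have hrS : ∀ s ∈ Icc 0 B, |s| < S := fun s hs => by rw [abs_of_nonneg hs.1]; linarith [hs.2]
  set G : Fin n → ℝ → ℝ → ℝ := fun i t s => g0 m (α i) t s - g0 m (α i) t B with hG
  have G_ds : ∀ i, ∀ t ∈ I, ∀ s ∈ Ioo (-S) S, HasDerivAt (G i t) (g1 m (α i) t s) s :=
    fun i t ht s hs => (g0_ds hJ (hD i) (hK i) hS1 (hb' i) ht (abs_lt.2 hs)).sub_const _
  have G1_ds : ∀ i, ∀ t ∈ I, ∀ s ∈ Ioo (-S) S,
      HasDerivAt (g1 m (α i) t) (g2 m (α i) t s) s :=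
    fun i t ht s hs => g1_ds hJ (hD i) (hK i) hS1 (hb' i) ht (abs_lt.2 hs)
  have G_dt : ∀ i, ∀ t ∈ I, ∀ s, |s| ≤ S → HasDerivAt (fun t => G i t s)
      (gt m (α i) t s - gt m (α i) t B) t := fun i t ht s hs =>
    (g0_dt hJ (hD i) (hK i) hS1 (hb' i) isOpen_Ioo isPreconnected_Ioo (hd i) ht hs).sub
      (g0_dt hJ (hD i) (hK i) hS1 (hb' i) isOpen_Ioo isPreconnected_Ioo (hd i) ht hBS)
  have hr : ∀ x ∈ Ω, rho J x ∈ Ioo (-S) S := fun x hx =>
    abs_lt.1 (hrS _ (hcl x (subset_closure hx)))
  -- partial derivatives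
  have hpd : ∀ i j, ∀ t ∈ I, ∀ x ∈ Ω, pd j (fun y : Sp n => G i t (rho J y)) x =
      if j ∈ J then g1 m (α i) t (rho J x) * (2 * x j) else 0 :=
    fun i j t ht x hx => (pd_rho J (G_ds i t ht _ (hr x hx)) j).2
  set u : ℝ → Sp n → Sp n := fun t x i => if i ∈ J then 0 else G i t (rho J x) with hu
  set P : Fin n → ℝ → ℝ := fun i t => if i ∈ J then 0 else -gt m (α i) t B with hP
  have hui : ∀ i, i ∈ J → ∀ t, (fun y : Sp n => u t y i) = fun _ => 0 := by
    intro i hi t; funext y; simp only [hu, if_pos hi]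
  have hui' : ∀ i, i ∉ J → ∀ t, (fun y : Sp n => u t y i) = fun y => G i t (rho J y) := by
    intro i hi t; funext y; simp only [hu, if_neg hi]
  have hcontG : ∀ i, ContinuousOn (fun q : ℝ × Sp n => G i q.1 (rho J q.2))
      (Icc 0 T ×ˢ closure Ω) := by
    intro i
    have c1 := g0_cont hJ (hD i) (hK i) hS1 (hb' i) (hc i)
    have c2 : ContinuousOn (fun q : ℝ × Sp n => g0 m (α i) q.1 (rho J q.2))
        (Icc 0 T ×ˢ closure Ω) :=
      c1.comp (f := fun q : ℝ × Sp n => (q.1, rho J q.2))
        (continuous_fst.prodMk ((rho_cont J).comp continuous_snd)).continuousOn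
        fun q hq => ⟨hIT hq.1, abs_le.1 (hrS _ (hcl _ hq.2)).le⟩
    have c3 : ContinuousOn (fun q : ℝ × Sp n => g0 m (α i) q.1 B) (Icc 0 T ×ˢ closure Ω) :=
      c1.comp (f := fun q : ℝ × Sp n => (q.1, B))
        (continuous_fst.prodMk continuous_const).continuousOn
        fun q hq => ⟨hIT hq.1, abs_le.1 hBS⟩
    exact c2.sub c3
  refine ⟨u, fun t x => -∑ k, P k t * x k, ⟨?_, ?_, ?_, ?_, ?_, ?_, ?_, ?_, ?_⟩, ?_⟩
  · rw [continuousOn_pi]
    intro i
    by_cases hi : i ∈ J
    · have : (fun y : ℝ × Sp n => u y.1 y.2 i) = fun _ => 0 := by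
        funext y; simp only [hu, if_pos hi]
      rw [this]; exact continuousOn_const
    · have : (fun y : ℝ × Sp n => u y.1 y.2 i) = fun y => G i y.1 (rho J y.2) := by
        funext y; simp only [hu, if_neg hi]
      rw [this]
      exact (hcontG i).mono (prod_mono (fun t ht => ⟨ht.1.le, ht.2⟩) le_rfl)
  · intro t ht
    rw [contDiffOn_pi]
    intro i
    by_cases hi : i ∈ J
    · rw [hui i hi t]; exact contDiffOn_const
    · rw [hui' i hi t]
      refine (cd2 isOpen_Ioo (G_ds i t (hIT' ht)) (G1_ds i t (hIT' ht)) ?_).comp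
        (rho_contDiff J).contDiffOn hr
      exact (g2_cont hJ (hD i) (hK i) hS1 (hb' i) (hc i)).comp (f := fun s : ℝ => (t, s))
        (by fun_prop) fun s hs => ⟨hIT' ht, Ioo_subset_Icc_self hs⟩
  · intro t ht x hx
    rw [differentiableAt_pi]
    intro i
    by_cases hi : i ∈ J
    · have : (fun s => u s x i) = fun _ => 0 := by funext s; simp only [hu, if_pos hi]
      rw [this]; exact differentiableAt_const _
    · have : (fun s => u s x i) = fun s => G i s (rho J x) := by
        funext s; simp only [hu, if_neg hi]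
      rw [this]
      exact (G_dt i t (hIT' ht) _ (abs_lt.2 (hr x hx)).le).differentiableAt
  · intro t ht x hx
    obtain ⟨i0, _⟩ := Finset.card_pos.1 (lt_of_lt_of_le one_pos hJ)
    exact (pd_lin2 (fun k => P k t) x i0).1.differentiableAt.differentiableWithinAt
  · intro t ht x hx i
    rw [(pd_lin2 (fun k => P k t) x i).2]
    by_cases hi : i ∈ J
    · have e0 : (fun s => u s x i) = fun _ => 0 := by funext s; simp only [hu, if_pos hi]
      rw [e0, hui i hi t]
      have e1 : ∀ j, pd j (fun _ : Sp n => (0:ℝ)) = fun _ => 0 := by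
        intro j; funext y; exact pd_const j 0 y
      simp_rw [e1]
      simp only [pd_const, mul_zero, Finset.sum_const_zero, deriv_const, hP, if_pos hi]
      norm_num
    · have e0 : (fun s => u s x i) = fun s => G i s (rho J x) := by
        funext s; simp only [hu, if_neg hi]
      rw [e0, hui' i hi t, (G_dt i t (hIT' ht) _ (abs_lt.2 (hr x hx)).le).deriv]
      have e2 : ∑ j, u t x j * pd j (fun y : Sp n => G i t (rho J y)) x = 0 := by
        refine Finset.sum_eq_zero fun j _ => ?_
        rw [hpd i j t (hIT' ht) x hx]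
        by_cases hj : j ∈ J
        · simp only [hu, if_pos hj, zero_mul]
        · rw [if_neg hj, mul_zero]
      have e3 : ∑ j, pd j (pd j fun y : Sp n => G i t (rho J y)) x =
          gt m (α i) t (rho J x) := by
        have e4 : ∀ j, pd j (pd j fun y : Sp n => G i t (rho J y)) x = if j ∈ J then
            4 * x j ^ 2 * g2 m (α i) t (rho J x) + 2 * g1 m (α i) t (rho J x) else 0 := by
          intro j
          by_cases hj : j ∈ J
          · rw [if_pos hj, ← pd_rho2 J (G1_ds i t (hIT' ht) _ (hr x hx)) hj]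
            have e5 : (pd j fun y : Sp n => G i t (rho J y)) =ᶠ[𝓝 x]
                fun y => g1 m (α i) t (rho J y) * (2 * y j) := by
              filter_upwards [hΩo.mem_nhds hx] with y hy
              rw [hpd i j t (hIT' ht) y hy, if_pos hj]
            unfold pd at e5 ⊢
            rw [e5.fderiv_eq]
          · rw [if_neg hj]
            have e5 : (pd j fun y : Sp n => G i t (rho J y)) =ᶠ[𝓝 x] fun _ => 0 := by
              filter_upwards [hΩo.mem_nhds hx] with y hy
              rw [hpd i j t (hIT' ht) y hy, if_neg hj]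
            unfold pd at e5 ⊢
            rw [e5.fderiv_eq]
            simp
        simp_rw [e4]
        rw [Finset.sum_ite_mem, Finset.univ_inter, Finset.sum_add_distrib, Finset.sum_const,
          nsmul_eq_mul]
        rw [← radial hJ (hD i) (hK i) hS1 (hb' i) (hIT' ht) (abs_lt.2 (hr x hx)).le]
        have e6 : ∑ j ∈ J, 4 * x j ^ 2 * g2 m (α i) t (rho J x) =
            4 * rho J x * g2 m (α i) t (rho J x) := by
          unfold rho
          rw [Finset.mul_sum, Finset.sum_mul]
        rw [e6]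
        ring
      rw [e2, e3]
      simp only [hP, if_neg hi]
      ring
  · intro t ht x hx
    refine Finset.sum_eq_zero fun j _ => ?_
    by_cases hj : j ∈ J
    · rw [hui j hj t]; exact pd_const j 0 x
    · rw [hui' j hj t, hpd j j t (hIT' ht) x hx, if_neg hj]
  · intro t ht x hx
    funext i
    by_cases hi : i ∈ J
    · simp only [hu, if_pos hi]; rfl
    · simp only [hu, if_neg hi, hG, hW x hx, sub_self]; rfl
  · -- the initial value
    have hM : ∀ i, ∃ M : ℝ, 0 ≤ M ∧ ∀ t ∈ Icc 0 T, ∀ s ∈ Icc 0 B,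
        (G i t s - ∑' l, a i l * s ^ l) ^ 2 ≤ (M * t) ^ 2 := by
      intro i
      set M0 := ∑' k, 4 * m * K i * maj (4 * S * D i) (k + 1) with hM0
      have hgt : ∀ t ∈ I, ∀ s, |s| ≤ S → |gt m (α i) t s| ≤ M0 := fun t ht s hs =>
        gt_bound hJ (hD i) (hK i) hS1 (hb' i) ht hs
      have hM00 : 0 ≤ M0 := (abs_nonneg _).trans (hgt 0 (hIT ⟨le_rfl, hT.le⟩) B hBS)
      refine ⟨2 * M0, by positivity, fun t ht s hs => ?_⟩
      have h0 : G i 0 s = ∑' l, a i l * s ^ l := by
        simp only [hG]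
        rw [g0i, g0i, ha0 i, sub_zero]
      have h1 := (convex_Icc (0:ℝ) T).norm_image_sub_le_of_norm_hasDerivWithin_le
        (f := fun t => G i t s) (f' := fun t => gt m (α i) t s - gt m (α i) t B) (C := 2 * M0)
        (x := 0) (y := t)
        (fun t ht => (G_dt i t (hIT ht) s (hrS s hs).le).hasDerivWithinAt)
        (fun t ht => by
          refine (norm_sub_le _ _).trans ?_
          have a1 := hgt t (hIT ht) s (hrS s hs).le
          have a2 := hgt t (hIT ht) B hBS
          rw [Real.norm_eq_abs, Real.norm_eq_abs]; linarith)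
        ⟨le_rfl, hT.le⟩ ht
      simp only [h0, sub_zero, Real.norm_eq_abs, abs_of_nonneg ht.1] at h1
      rw [sq_le_sq]
      refine h1.trans (le_abs_self _)
    choose M hM0 hM using hM
    have hvol : volume Ω ≠ ⊤ := hΩb.measure_lt_top.ne
    have h1 : ∀ t ∈ Ioc 0 T, ∫⁻ x in Ω, ENNReal.ofReal
        (∑ i, (u t x i - if i ∈ J then 0 else ∑' l, a i l * rho J x ^ l) ^ 2) ≤
        ENNReal.ofReal (∑ i, (M i * t) ^ 2) * volume Ω := by
      intro t ht
      rw [← setLIntegral_const]
      refine setLIntegral_mono measurable_const fun x hx => ?_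
      refine ENNReal.ofReal_le_ofReal (Finset.sum_le_sum fun i _ => ?_)
      by_cases hi : i ∈ J
      · simp only [hu, if_pos hi, sub_self]
        rw [zero_pow two_ne_zero]
        positivity
      · simp only [hu, if_neg hi]
        exact hM i t ⟨ht.1.le, ht.2⟩ _ (hcl x (subset_closure hx))
    have h2 : Tendsto (fun t : ℝ => ENNReal.ofReal (∑ i, (M i * t) ^ 2) * volume Ω) (𝓝[>] 0)
        (𝓝 (ENNReal.ofReal (∑ i, (M i * 0) ^ 2) * volume Ω)) := by
      refine ENNReal.Tendsto.mul_const (ENNReal.tendsto_ofReal ?_) (Or.inr hvol)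
      have : Continuous fun t : ℝ => ∑ i, (M i * t) ^ 2 := by fun_prop
      exact (this.tendsto 0).mono_left nhdsWithin_le_nhds
    simp only [mul_zero, ne_eq, OfNat.ofNat_ne_zero, not_false_eq_true, zero_pow,
      Finset.sum_const_zero, ENNReal.ofReal_zero, zero_mul] at h2
    refine tendsto_of_tendsto_of_tendsto_of_le_of_le' tendsto_const_nhds h2
      (Eventually.of_forall fun _ => bot_le) ?_
    filter_upwards [Ioc_mem_nhdsGT hT] with t ht
    exact h1 t ht
  · intro i j
    have hz : IntegrableOn (fun _ : ℝ × Sp n => (0:ℝ)) (Ioo 0 T ×ˢ Ω) := by simp [IntegrableOn]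
    by_cases hi : i ∈ J
    · refine hz.congr_fun ?_ (measurableSet_Ioo.prod hΩo.measurableSet)
      intro p hp
      show (0:ℝ) = pd j (fun y => u p.1 y i) p.2 ^ 2
      rw [hui i hi, pd_const]; norm_num
    · by_cases hj : j ∈ J
      · have c1 : ContinuousOn (fun p : ℝ × Sp n => (g1 m (α i) p.1 (rho J p.2) * (2 * p.2 j)) ^ 2)
            (Icc 0 T ×ˢ closure Ω) := by
          refine ContinuousOn.pow (ContinuousOn.mul ?_ (by fun_prop)) 2
          exact (g1_cont hJ (hD i) (hK i) hS1 (hb' i) (hc i)).comp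
            (f := fun q : ℝ × Sp n => (q.1, rho J q.2))
            (continuous_fst.prodMk ((rho_cont J).comp continuous_snd)).continuousOn
            fun q hq => ⟨hIT hq.1, abs_le.1 (hrS _ (hcl _ hq.2)).le⟩
        have c2 := c1.integrableOn_compact (μ := volume)
          (isCompact_Icc.prod hΩb.isCompact_closure)
        have c3 := c2.mono_set (prod_mono Ioo_subset_Icc_self subset_closure)
        refine c3.congr_fun ?_ (measurableSet_Ioo.prod hΩo.measurableSet)
        intro p hp
        show _ = pd j (fun y => u p.1 y i) p.2 ^ 2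
        rw [hui' i hi, hpd i j p.1 (hIT' (Ioo_subset_Ioc_self hp.1)) p.2 hp.2, if_pos hj]
      · refine hz.congr_fun ?_ (measurableSet_Ioo.prod hΩo.measurableSet)
        intro p hp
        show (0:ℝ) = pd j (fun y => u p.1 y i) p.2 ^ 2
        rw [hui' i hi, hpd i j p.1 (hIT' (Ioo_subset_Ioc_self hp.1)) p.2 hp.2, if_neg hj]
        norm_num
  · intro x
    funext i
    by_cases hi : i ∈ J
    · simp only [hu, if_pos hi]; rfl
    · simp only [hu, if_neg hi, hG]
      rw [g0e, g0e, sub_self]; rfl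

end Pool.Agent.V5helper93.NS
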