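import Pool.Agent.V5helper93.NS.Pipe2
import Pool.Agent.V5helper93.NS.Channel

/-! # Flows along pipes with round cross-section: general towers -/

set_option autoImplicit false
set_option linter.all false

open MeasureTheory Set Filter Topology
open scoped ENNReal

namespace Pool.Agent.V5helper93.NS

open Pool.Agent.Y308.BC

variable {n : ℕ}

/-- **Flows along round pipes.** -/
theorem pipe_gen (J : Finset (Fin n)) (hJ : 1 ≤ J.card) {Ω W : Set (Sp n)} (hΩo : IsOpen Ω)
    (hΩb : Bornology.IsBounded Ω) {B T : ℝ} (hB : 0 < B) (hT : 0 < T)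
    (hΩ : ∀ x ∈ Ω, rho J x < B) (hW : ∀ x ∈ W, rho J x = B) (α : Fin n → ℕ → ℝ → ℝ)
    (hbd : ∀ i, ∀ t0 : ℝ, 0 < t0 → ∃ K D : ℝ, 0 ≤ K ∧ 0 ≤ D ∧
      ∀ k, ∀ t ∈ Ioi t0, |α i k t| ≤ K * wD D k)
    (hd : ∀ i k t, 0 < t → HasDerivAt (α i k) (α i (k + 1) t) t)
    (hend : ∀ i k, α i k T = 0) (F : Fin n → ℝ → ℝ)
    {σ0 : ℝ} (hσ0 : 0 < σ0)
    (hinit : ∀ i, ∃ M : ℝ → ℝ, Tendsto M (𝓝[>] 0) (𝓝 0) ∧ ∀ t ∈ Ioc 0 σ0, ∀ s ∈ Icc 0 B,
      |g0 J.card (α i) t s - g0 J.card (α i) t B - F i s| ≤ M t)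
    (hen : ∀ i, ∃ H : ℝ → ℝ, IntegrableOn H (Ioo 0 T) ∧ ∀ t ∈ Ioo 0 T, ∀ s ∈ Icc 0 B,
      4 * s * g1 J.card (α i) t s ^ 2 ≤ H t) :
    ∃ u p, IsTrajectory Ω W T (fun x i => if i ∈ J then 0 else F i (rho J x)) u p ∧
      ∀ x, u T x = 0 := by
  classical
  set m := J.card with hm
  set S := B + 1 with hS
  have hS1 : 1 ≤ S := by linarith
  have ht2 : ∀ t : ℝ, 0 < t → t ∈ Ioi (t / 2) := fun t ht => by simp only [mem_Ioi]; linarith
  have hcl : ∀ x ∈ closure Ω, rho J x ∈ Icc 0 B := by
    intro x hx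
    have hc : IsClosed {x : Sp n | rho J x ∈ Icc 0 B} := isClosed_Icc.preimage (rho_cont J)
    have hsub : Ω ⊆ {x : Sp n | rho J x ∈ Icc 0 B} := fun y hy =>
      ⟨rho_nonneg J y, (hΩ y hy).le⟩
    exact closure_minimal hsub hc hx
  have hBS : |B| ≤ S := by rw [abs_of_pos hB]; linarith
  have hrS : ∀ s ∈ Icc 0 B, |s| < S := fun s hs => by rw [abs_of_nonneg hs.1]; linarith [hs.2]
  set G : Fin n → ℝ → ℝ → ℝ := fun i t s => g0 m (α i) t s - g0 m (α i) t B with hG
  have G_ds : ∀ i, ∀ t, 0 < t → ∀ s ∈ Ioo (-S) S, HasDerivAt (G i t) (g1 m (α i) t s) s := by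
    intro i t ht s hs
    obtain ⟨K, D, hK, hD, hb⟩ := hbd i (t / 2) (half_pos ht)
    exact (g0_ds hJ hD hK hS1 hb (ht2 t ht) (abs_lt.2 hs)).sub_const _
  have G1_ds : ∀ i, ∀ t, 0 < t → ∀ s ∈ Ioo (-S) S,
      HasDerivAt (g1 m (α i) t) (g2 m (α i) t s) s := by
    intro i t ht s hs
    obtain ⟨K, D, hK, hD, hb⟩ := hbd i (t / 2) (half_pos ht)
    exact g1_ds hJ hD hK hS1 hb (ht2 t ht) (abs_lt.2 hs)
  have G_dt : ∀ i, ∀ t, 0 < t → ∀ s, |s| ≤ S → HasDerivAt (fun t => G i t s)
      (gt m (α i) t s - gt m (α i) t B) t := by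
    intro i t ht s hs
    obtain ⟨K, D, hK, hD, hb⟩ := hbd i (t / 2) (half_pos ht)
    have hd' : ∀ k, ∀ t' ∈ Ioi (t / 2), HasDerivAt (α i k) (α i (k + 1) t') t' := fun k t' ht' =>
      hd i k t' (lt_trans (half_pos ht) ht')
    exact (g0_dt hJ hD hK hS1 hb isOpen_Ioi isPreconnected_Ioi hd' (ht2 t ht) hs).sub
      (g0_dt hJ hD hK hS1 hb isOpen_Ioi isPreconnected_Ioi hd' (ht2 t ht) hBS)
  have rad : ∀ i, ∀ t, 0 < t → ∀ s, |s| ≤ S →
      4 * s * g2 m (α i) t s + 2 * m * g1 m (α i) t s = gt m (α i) t s := by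
    intro i t ht s hs
    obtain ⟨K, D, hK, hD, hb⟩ := hbd i (t / 2) (half_pos ht)
    exact radial hJ hD hK hS1 hb (ht2 t ht) hs
  have hcc : ∀ i (t0 : ℝ), 0 < t0 → ∀ k, ContinuousOn (α i k) (Ioi t0) := fun i t0 ht0 k t ht =>
    (hd i k t (lt_trans ht0 ht)).continuousAt.continuousWithinAt
  have c0 : ∀ i, ContinuousOn (fun q : ℝ × ℝ => g0 m (α i) q.1 q.2) (Ioi 0 ×ˢ Icc (-S) S) := by
    intro i
    refine glue' fun t0 ht0 => ?_
    obtain ⟨K, D, hK, hD, hb⟩ := hbd i t0 ht0
    exact g0_cont hJ hD hK hS1 hb (hcc i t0 ht0)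
  have c1 : ∀ i, ContinuousOn (fun q : ℝ × ℝ => g1 m (α i) q.1 q.2) (Ioi 0 ×ˢ Icc (-S) S) := by
    intro i
    refine glue' fun t0 ht0 => ?_
    obtain ⟨K, D, hK, hD, hb⟩ := hbd i t0 ht0
    exact g1_cont hJ hD hK hS1 hb (hcc i t0 ht0)
  have c2 : ∀ i, ContinuousOn (fun q : ℝ × ℝ => g2 m (α i) q.1 q.2) (Ioi 0 ×ˢ Icc (-S) S) := by
    intro i
    refine glue' fun t0 ht0 => ?_
    obtain ⟨K, D, hK, hD, hb⟩ := hbd i t0 ht0
    exact g2_cont hJ hD hK hS1 hb (hcc i t0 ht0)
  have hr : ∀ x ∈ Ω, rho J x ∈ Ioo (-S) S := fun x hx =>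
    abs_lt.1 (hrS _ (hcl x (subset_closure hx)))
  -- partial derivatives
  have hpd : ∀ i j, ∀ t, 0 < t → ∀ x ∈ Ω, pd j (fun y : Sp n => G i t (rho J y)) x =
      if j ∈ J then g1 m (α i) t (rho J x) * (2 * x j) else 0 :=
    fun i j t ht x hx => (pd_rho J (G_ds i t ht _ (hr x hx)) j).2
  set u : ℝ → Sp n → Sp n := fun t x i => if i ∈ J then 0 else G i t (rho J x) with hu
  set P : Fin n → ℝ → ℝ := fun i t => if i ∈ J then 0 else -gt m (α i) t B with hP
  have hui : ∀ i, i ∈ J → ∀ t, (fun y : Sp n => u t y i) = fun _ => 0 := by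
    intro i hi t; funext y; simp only [hu, if_pos hi]
  have hui' : ∀ i, i ∉ J → ∀ t, (fun y : Sp n => u t y i) = fun y => G i t (rho J y) := by
    intro i hi t; funext y; simp only [hu, if_neg hi]
  have hcontG : ∀ i, ContinuousOn (fun q : ℝ × Sp n => G i q.1 (rho J q.2))
      (Ioi 0 ×ˢ closure Ω) := by
    intro i
    have c2 : ContinuousOn (fun q : ℝ × Sp n => g0 m (α i) q.1 (rho J q.2))
        (Ioi 0 ×ˢ closure Ω) :=
      (c0 i).comp (f := fun q : ℝ × Sp n => (q.1, rho J q.2))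
        (continuous_fst.prodMk ((rho_cont J).comp continuous_snd)).continuousOn
        fun q hq => ⟨hq.1, abs_le.1 (hrS _ (hcl _ hq.2)).le⟩
    have c3 : ContinuousOn (fun q : ℝ × Sp n => g0 m (α i) q.1 B) (Ioi 0 ×ˢ closure Ω) :=
      (c0 i).comp (f := fun q : ℝ × Sp n => (q.1, B))
        (continuous_fst.prodMk continuous_const).continuousOn
        fun q hq => ⟨hq.1, abs_le.1 hBS⟩
    exact c2.sub c3
  refine ⟨u, fun t x => -∑ k, P k t * x k, ⟨?_, ?_, ?_, ?_, ?_, ?_, ?_, ?_, ?_⟩, ?_⟩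
  · rw [continuousOn_pi]
    intro i
    by_cases hi : i ∈ J
    · have : (fun y : ℝ × Sp n => u y.1 y.2 i) = fun _ => 0 := by
        funext y; simp only [hu, if_pos hi]
      rw [this]; exact continuousOn_const
    · have : (fun y : ℝ × Sp n => u y.1 y.2 i) = fun y => G i y.1 (rho J y.2) := by
        funext y; simp only [hu, if_neg hi]
      rw [this]
      exact (hcontG i).mono (prod_mono (fun t ht => ht.1) le_rfl)
  · intro t ht
    rw [contDiffOn_pi]
    intro i
    by_cases hi : i ∈ J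
    · rw [hui i hi t]; exact contDiffOn_const
    · rw [hui' i hi t]
      refine (cd2 isOpen_Ioo (G_ds i t ht.1) (G1_ds i t ht.1) ?_).comp
        (rho_contDiff J).contDiffOn hr
      exact (c2 i).comp (f := fun s : ℝ => (t, s))
        (by fun_prop) fun s hs => ⟨ht.1, Ioo_subset_Icc_self hs⟩
  · intro t ht x hx
    rw [differentiableAt_pi]
    intro i
    by_cases hi : i ∈ J
    · have : (fun s => u s x i) = fun _ => 0 := by funext s; simp only [hu, if_pos hi]
      rw [this]; exact differentiableAt_const _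
    · have : (fun s => u s x i) = fun s => G i s (rho J x) := by
        funext s; simp only [hu, if_neg hi]
      rw [this]
      exact (G_dt i t ht.1 _ (abs_lt.2 (hr x hx)).le).differentiableAt
  · intro t ht x hx
    obtain ⟨i0, _⟩ := Finset.card_pos.1 (lt_of_lt_of_le one_pos hJ)
    exact (pd_lin2 (fun k => P k t) x i0).1.differentiableAt.differentiableWithinAt
  · intro t ht x hx i
    rw [(pd_lin2 (fun k => P k t) x i).2]
    by_cases hi : i ∈ J
    · have e0 : (fun s => u s x i) = fun _ => 0 := by funext s; simp only [hu, if_pos hi]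
      rw [e0, hui i hi t]
      have e1 : ∀ j, pd j (fun _ : Sp n => (0:ℝ)) = fun _ => 0 := by
        intro j; funext y; exact pd_const j 0 y
      simp_rw [e1]
      simp only [pd_const, mul_zero, Finset.sum_const_zero, deriv_const, hP, if_pos hi]
      norm_num
    · have e0 : (fun s => u s x i) = fun s => G i s (rho J x) := by
        funext s; simp only [hu, if_neg hi]
      rw [e0, hui' i hi t, (G_dt i t ht.1 _ (abs_lt.2 (hr x hx)).le).deriv]
      have e2 : ∑ j, u t x j * pd j (fun y : Sp n => G i t (rho J y)) x = 0 := by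
        refine Finset.sum_eq_zero fun j _ => ?_
        rw [hpd i j t ht.1 x hx]
        by_cases hj : j ∈ J
        · simp only [hu, if_pos hj, zero_mul]
        · rw [if_neg hj, mul_zero]
      have e3 : ∑ j, pd j (pd j fun y : Sp n => G i t (rho J y)) x =
          gt m (α i) t (rho J x) := by
        have e4 : ∀ j, pd j (pd j fun y : Sp n => G i t (rho J y)) x = if j ∈ J then
            4 * x j ^ 2 * g2 m (α i) t (rho J x) + 2 * g1 m (α i) t (rho J x) else 0 := by
          intro j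
          by_cases hj : j ∈ J
          · rw [if_pos hj, ← pd_rho2 J (G1_ds i t ht.1 _ (hr x hx)) hj]
            have e5 : (pd j fun y : Sp n => G i t (rho J y)) =ᶠ[𝓝 x]
                fun y => g1 m (α i) t (rho J y) * (2 * y j) := by
              filter_upwards [hΩo.mem_nhds hx] with y hy
              rw [hpd i j t ht.1 y hy, if_pos hj]
            unfold pd at e5 ⊢
            rw [e5.fderiv_eq]
          · rw [if_neg hj]
            have e5 : (pd j fun y : Sp n => G i t (rho J y)) =ᶠ[𝓝 x] fun _ => 0 := by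
              filter_upwards [hΩo.mem_nhds hx] with y hy
              rw [hpd i j t ht.1 y hy, if_neg hj]
            unfold pd at e5 ⊢
            rw [e5.fderiv_eq]
            simp
        simp_rw [e4]
        rw [Finset.sum_ite_mem, Finset.univ_inter, Finset.sum_add_distrib, Finset.sum_const,
          nsmul_eq_mul]
        rw [← rad i t ht.1 _ (abs_lt.2 (hr x hx)).le]
        have e6 : ∑ j ∈ J, 4 * x j ^ 2 * g2 m (α i) t (rho J x) =
            4 * rho J x * g2 m (α i) t (rho J x) := by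
          unfold rho
          rw [Finset.mul_sum, Finset.sum_mul]
        rw [e6]
        ring
      rw [e2, e3]
      simp only [hP, if_neg hi]
      ring
  · intro t ht x hx
    refine Finset.sum_eq_zero fun j _ => ?_
    by_cases hj : j ∈ J
    · rw [hui j hj t]; exact pd_const j 0 x
    · rw [hui' j hj t, hpd j j t ht.1 x hx, if_neg hj]
  · intro t ht x hx
    funext i
    by_cases hi : i ∈ J
    · simp only [hu, if_pos hi]; rfl
    · simp only [hu, if_neg hi, hG, hW x hx, sub_self]; rfl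
  · -- the initial value
    choose M hM0 hM using hinit
    have hvol : volume Ω ≠ ⊤ := hΩb.measure_lt_top.ne
    have h1 : ∀ t ∈ Ioc 0 σ0, ∫⁻ x in Ω, ENNReal.ofReal
        (∑ i, (u t x i - if i ∈ J then 0 else F i (rho J x)) ^ 2) ≤
        ENNReal.ofReal (∑ i, (M i t) ^ 2) * volume Ω := by
      intro t ht
      rw [← setLIntegral_const]
      refine setLIntegral_mono measurable_const fun x hx => ?_
      refine ENNReal.ofReal_le_ofReal (Finset.sum_le_sum fun i _ => ?_)
      by_cases hi : i ∈ J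
      · simp only [hu, if_pos hi, sub_self]
        rw [zero_pow two_ne_zero]
        positivity
      · simp only [hu, if_neg hi]
        have h5 := hM i t ht _ (hcl x (subset_closure hx))
        rw [sq_le_sq]
        exact h5.trans (le_abs_self _)
    have h2 : Tendsto (fun t : ℝ => ENNReal.ofReal (∑ i, (M i t) ^ 2) * volume Ω) (𝓝[>] 0)
        (𝓝 (ENNReal.ofReal (∑ i : Fin n, (0:ℝ) ^ 2) * volume Ω)) := by
      refine ENNReal.Tendsto.mul_const (ENNReal.tendsto_ofReal ?_) (Or.inr hvol)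
      exact tendsto_finset_sum _ fun i _ => (hM0 i).pow 2
    simp only [ne_eq, OfNat.ofNat_ne_zero, not_false_eq_true, zero_pow,
      Finset.sum_const_zero, ENNReal.ofReal_zero, zero_mul] at h2
    refine tendsto_of_tendsto_of_tendsto_of_le_of_le' tendsto_const_nhds h2
      (Eventually.of_forall fun _ => bot_le) ?_
    filter_upwards [Ioc_mem_nhdsGT hσ0] with t ht
    exact h1 t ht
  · intro i j
    have hz : IntegrableOn (fun _ : ℝ × Sp n => (0:ℝ)) (Ioo 0 T ×ˢ Ω) := by simp [IntegrableOn]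
    by_cases hi : i ∈ J
    · refine hz.congr_fun ?_ (measurableSet_Ioo.prod hΩo.measurableSet)
      intro p hp
      show (0:ℝ) = pd j (fun y => u p.1 y i) p.2 ^ 2
      rw [hui i hi, pd_const]; norm_num
    · by_cases hj : j ∈ J
      · obtain ⟨H, hH, hHb⟩ := hen i
        have hvol : volume Ω < ⊤ := hΩb.measure_lt_top
        haveI : IsFiniteMeasure (volume.restrict Ω) := ⟨by rwa [Measure.restrict_apply_univ]⟩
        have h5 := Integrable.comp_fst hH (volume.restrict Ω)
        have m1 : ContinuousOn (fun p : ℝ × Sp n => (g1 m (α i) p.1 (rho J p.2) * (2 * p.2 j)) ^ 2)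
            (Ioi 0 ×ˢ closure Ω) := by
          refine ContinuousOn.pow (ContinuousOn.mul ?_ (by fun_prop)) 2
          exact (c1 i).comp
            (f := fun q : ℝ × Sp n => (q.1, rho J q.2))
            (continuous_fst.prodMk ((rho_cont J).comp continuous_snd)).continuousOn
            fun q hq => ⟨hq.1, abs_le.1 (hrS _ (hcl _ hq.2)).le⟩
        have m2 : AEStronglyMeasurable
            (fun p : ℝ × Sp n => (g1 m (α i) p.1 (rho J p.2) * (2 * p.2 j)) ^ 2)
            ((volume.restrict (Ioo 0 T)).prod (volume.restrict Ω)) := by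
          rw [Measure.prod_restrict]
          exact (m1.mono (prod_mono Ioo_subset_Ioi_self subset_closure)).aestronglyMeasurable
            (measurableSet_Ioo.prod hΩo.measurableSet)
        have c3 : IntegrableOn
            (fun p : ℝ × Sp n => (g1 m (α i) p.1 (rho J p.2) * (2 * p.2 j)) ^ 2)
            (Ioo 0 T ×ˢ Ω) := by
          unfold IntegrableOn
          rw [Measure.volume_eq_prod, ← Measure.prod_restrict]
          refine Integrable.mono' h5 m2 ?_
          rw [Measure.prod_restrict]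
          refine ae_restrict_of_forall_mem (measurableSet_Ioo.prod hΩo.measurableSet) fun q hq => ?_
          rw [Real.norm_eq_abs, abs_of_nonneg (sq_nonneg _)]
          refine le_trans ?_ (hHb q.1 hq.1 _ (hcl _ (subset_closure hq.2)))
          have h7 : q.2 j ^ 2 ≤ rho J q.2 :=
            Finset.single_le_sum (f := fun j => q.2 j ^ 2) (fun k _ => sq_nonneg _) hj
          have h8 := sq_nonneg (g1 m (α i) q.1 (rho J q.2))
          nlinarith [mul_le_mul_of_nonneg_left h7 h8]
        refine c3.congr_fun ?_ (measurableSet_Ioo.prod hΩo.measurableSet)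
        intro p hp
        show _ = pd j (fun y => u p.1 y i) p.2 ^ 2
        rw [hui' i hi, hpd i j p.1 hp.1.1 p.2 hp.2, if_pos hj]
      · refine hz.congr_fun ?_ (measurableSet_Ioo.prod hΩo.measurableSet)
        intro p hp
        show (0:ℝ) = pd j (fun y => u p.1 y i) p.2 ^ 2
        rw [hui' i hi, hpd i j p.1 hp.1.1 p.2 hp.2, if_neg hj]
        norm_num
  · intro x
    funext i
    have g0e : ∀ s, g0 m (α i) T s = 0 := by
      intro s
      unfold g0
      simp_rw [hend]
      simp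
    by_cases hi : i ∈ J
    · simp only [hu, if_pos hi]; rfl
    · simp only [hu, if_neg hi, hG]
      rw [g0e, g0e, sub_self]; rfl

end Pool.Agent.V5helper93.NS
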