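import Pool.Agent.V5helper93.NS.Tower

/-! # Towers with polynomial initial values -/

set_option autoImplicit false
set_option linter.all false

open MeasureTheory Set Filter Topology Polynomial
open scoped ENNReal

namespace Pool.Agent.V5helper93.NS

open Pool.Agent.Y308.BC

/-- the derivatives of a polynomial -/
noncomputable def bp (p : ℝ[X]) (l : ℕ) (t : ℝ) : ℝ := (derivative^[l] p).eval t

lemma bp_deriv (p : ℝ[X]) (l : ℕ) (t : ℝ) : HasDerivAt (bp p l) (bp p (l + 1) t) t := by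
  unfold bp
  rw [Function.iterate_succ']
  exact (derivative^[l] p).hasDerivAt t

lemma bp_zero (p : ℝ[X]) (l : ℕ) : bp p l 0 = l.factorial * p.coeff l := by
  unfold bp
  rw [← coeff_zero_eq_eval_zero, coeff_iterate_derivative, zero_add, Nat.descFactorial_self,
    nsmul_eq_mul]

lemma bp_bound (p : ℝ[X]) (a b : ℝ) : ∃ C : ℝ, 0 ≤ C ∧ ∀ l, ∀ t ∈ Icc a b, |bp p l t| ≤ C := by
  have h1 : ∀ l, ∃ C : ℝ, 0 ≤ C ∧ ∀ t ∈ Icc a b, |bp p l t| ≤ C := by
    intro l
    obtain ⟨C, hC⟩ := (isCompact_Icc (a := a) (b := b)).exists_bound_of_continuousOn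
      (f := bp p l) ((derivative^[l] p).continuous.continuousOn)
    exact ⟨|C|, abs_nonneg _, fun t ht => (hC t ht).trans (le_abs_self _)⟩
  choose C hC0 hC using h1
  refine ⟨∑ l ∈ Finset.range (p.natDegree + 1), C l, Finset.sum_nonneg fun l _ => hC0 l,
    fun l t ht => ?_⟩
  by_cases hl : l ∈ Finset.range (p.natDegree + 1)
  · exact (hC l t ht).trans (Finset.single_le_sum (f := C) (fun k _ => hC0 k) hl)
  · have h2 : p.natDegree < l := by
      rw [Finset.mem_range] at hl; omega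
    have h3 : bp p l t = 0 := by
      unfold bp
      rw [iterate_derivative_eq_zero h2, eval_zero]
    rw [h3, abs_zero]
    exact Finset.sum_nonneg fun l _ => hC0 l

/-- the polynomial whose derivatives at zero are `q.coeff k * cc m k` -/
noncomputable def pq (m : ℕ) (q : ℝ[X]) : ℝ[X] :=
  ∑ k ∈ Finset.range (q.natDegree + 1), monomial k (q.coeff k * cc m k / k.factorial)

lemma pq_coeff (m : ℕ) (q : ℝ[X]) (k : ℕ) :
    (pq m q).coeff k = q.coeff k * cc m k / k.factorial := by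
  unfold pq
  rw [finset_sum_coeff]
  simp_rw [coeff_monomial]
  rw [Finset.sum_ite_eq' (Finset.range (q.natDegree + 1)) k]
  split_ifs with h
  · rfl
  · rw [Finset.mem_range, not_lt] at h
    rw [coeff_eq_zero_of_natDegree_lt (by omega)]
    simp

/-- the tower -/
noncomputable def al2 (m : ℕ) (q : ℝ[X]) (T : ℝ) : ℕ → ℝ → ℝ := tw (bp (pq m q)) T

lemma al2_deriv (m : ℕ) (q : ℝ[X]) (T : ℝ) (i : ℕ) (t : ℝ) :
    HasDerivAt (al2 m q T i) (al2 m q T (i + 1) t) t :=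
  tw_deriv (bp_deriv _) T i t

lemma al2_end (m : ℕ) (q : ℝ[X]) {T : ℝ} (hT : 0 < T) (i : ℕ) : al2 m q T i T = 0 :=
  tw_end _ hT i le_rfl

lemma al2_bound (m : ℕ) (q : ℝ[X]) {T : ℝ} (hT : 0 < T) : ∃ K D : ℝ, 0 ≤ K ∧ 0 ≤ D ∧
    ∀ i, ∀ t ∈ Ioo (-1) (T + 1), |al2 m q T i t| ≤ K * wD D i := by
  obtain ⟨C, hC0, hC⟩ := bp_bound (pq m q) (-1) (T + 1)
  set D := max (7 / T) 1 with hD
  have hD1 : 1 ≤ D := le_max_right _ _
  refine ⟨Cc * C, D, by have := Cc_pos; positivity, by linarith, fun i t ht => ?_⟩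
  refine tw_le hT hC0 (le_max_left _ _) (fun l => ?_) i
  refine (hC l t (Ioo_subset_Icc_self ht)).trans ?_
  have h1 : (1:ℝ) ≤ l.factorial := by exact_mod_cast Nat.one_le_iff_ne_zero.2 (Nat.factorial_ne_zero l)
  have h2 : (1:ℝ) ≤ D ^ l := one_le_pow₀ hD1
  nlinarith [mul_nonneg (sub_nonneg.2 h1) (sub_nonneg.2 h2)]

lemma g0_init {m : ℕ} (hm : 1 ≤ m) (q : ℝ[X]) (T s : ℝ) : g0 m (al2 m q T) 0 s = q.eval s := by
  unfold g0 al2
  have h1 : ∀ i, tw (bp (pq m q)) T i 0 * (s ^ i / cc m i) = q.coeff i * s ^ i := by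
    intro i
    rw [tw_zero, bp_zero, pq_coeff]
    have := cc_pos hm i
    have h2 : (i.factorial : ℝ) ≠ 0 := by positivity
    field_simp
  simp_rw [h1]
  rw [eval_eq_sum_range]
  refine tsum_eq_sum fun i hi => ?_
  rw [Finset.mem_range, not_lt] at hi
  rw [coeff_eq_zero_of_natDegree_lt (by omega), zero_mul]

lemma g0_end (m : ℕ) (q : ℝ[X]) {T : ℝ} (hT : 0 < T) (s : ℝ) : g0 m (al2 m q T) T s = 0 := by
  unfold g0
  simp_rw [al2_end m q hT]
  simp

end Pool.Agent.V5helper93.NS
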