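import Pool.Agent.V5helper93.NS.Shear
import Pool.Agent.V5helper93.NS.Heat3

/-! # Scaling of profiles; profiles near one wall -/

set_option autoImplicit false
set_option linter.all false

open MeasureTheory Set Filter Topology
open scoped ENNReal

namespace Pool.Agent.V5helper93.NS

open Pool.Agent.Y308.BC

lemma mp_div {l : ℝ} (hl : 0 < l) (b : ℝ) :
    MeasurePreserving (fun y : ℝ => y / l) (volume.restrict (Ioo 0 (l * b)))
      (ENNReal.ofReal l • volume.restrict (Ioo 0 b)) := by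
  have hemb : MeasurableEmbedding (fun y : ℝ => l⁻¹ * y) :=
    (MeasurableEquiv.mulLeft₀ l⁻¹ (inv_ne_zero hl.ne')).measurableEmbedding
  have h1 := Real.map_volume_mul_left (a := l⁻¹) (inv_ne_zero hl.ne')
  have hpre : (fun y : ℝ => l⁻¹ * y) ⁻¹' (Ioo 0 b) = Ioo 0 (l * b) := by
    ext y
    simp only [mem_preimage, mem_Ioo]
    constructor
    · rintro ⟨h2, h3⟩
      have h4 := mul_lt_mul_of_pos_left h3 hl
      have h5 := mul_pos hl h2
      rw [mul_inv_cancel_left₀ hl.ne'] at h4 h5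
      exact ⟨h5, h4⟩
    · rintro ⟨h2, h3⟩
      refine ⟨by positivity, ?_⟩
      rw [inv_mul_lt_iff₀ hl]; exact h3
  have h2 := hemb.restrict_map volume (Ioo 0 b)
  rw [hpre, h1, inv_inv, abs_of_pos hl, Measure.restrict_smul] at h2
  have hfun : (fun y : ℝ => y / l) = fun y => l⁻¹ * y := by
    funext y; rw [div_eq_inv_mul]
  rw [hfun]
  exact ⟨hemb.measurable, h2.symm⟩

lemma emb_div {l : ℝ} (hl : 0 < l) : MeasurableEmbedding (fun y : ℝ => y / l) := by
  have hfun : (fun y : ℝ => y / l) = fun y => l⁻¹ * y := by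
    funext y; rw [div_eq_inv_mul]
  rw [hfun]
  exact (MeasurableEquiv.mulLeft₀ l⁻¹ (inv_ne_zero hl.ne')).measurableEmbedding

lemma Profile.scale {T : ℝ} {W₀ : Set ℝ} {f : ℝ → ℝ} {v vy vyy : ℝ → ℝ → ℝ} {P : ℝ → ℝ}
    (h : Profile 1 T W₀ f v vy vyy P) {l : ℝ} (hl : 0 < l) :
    Profile l (l ^ 2 * T) {y | y / l ∈ W₀} (fun y => f (y / l))
      (fun t y => v (t / l ^ 2) (y / l)) (fun t y => vy (t / l ^ 2) (y / l) / l)
      (fun t y => vyy (t / l ^ 2) (y / l) / l ^ 2) (fun t => P (t / l ^ 2) / l ^ 2) := by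
  have hl2 : 0 < l ^ 2 := by positivity
  have ht : ∀ t ∈ Ioc 0 (l ^ 2 * T), t / l ^ 2 ∈ Ioc 0 T := fun t ht =>
    ⟨div_pos ht.1 hl2, (div_le_iff₀' hl2).2 ht.2⟩
  have hy : ∀ y ∈ Ioo 0 l, y / l ∈ Ioo (0:ℝ) 1 := fun y hy =>
    ⟨div_pos hy.1 hl, (div_lt_one hl).2 hy.2⟩
  have hy' : ∀ y ∈ Icc 0 l, y / l ∈ Icc (0:ℝ) 1 := fun y hy =>
    ⟨div_nonneg hy.1 hl.le, (div_le_one hl).2 hy.2⟩
  have dl : ∀ y : ℝ, HasDerivAt (fun y => y / l) (1 / l) y := fun y => (hasDerivAt_id y).div_const l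
  have dl2 : ∀ y : ℝ, HasDerivAt (fun y => y / l ^ 2) (1 / l ^ 2) y :=
    fun y => (hasDerivAt_id y).div_const _
  refine ⟨?_, ?_, ?_, ?_, ?_, ?_, ?_, ?_, ?_, ?_⟩
  · exact h.cont.comp (f := fun q : ℝ × ℝ => (q.1 / l ^ 2, q.2 / l)) (by fun_prop)
      fun q hq => ⟨ht _ hq.1, hy' _ hq.2⟩
  · intro t ht1 y hy1
    have := HasDerivAt.comp y (h := fun y => y / l) (h.dy _ (ht t ht1) _ (hy y hy1)) (dl y)
    exact this.congr_deriv (by ring)
  · intro t ht1 y hy1
    have := (HasDerivAt.comp y (h := fun y => y / l) (h.dyy _ (ht t ht1) _ (hy y hy1))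
      (dl y)).div_const l
    exact this.congr_deriv (by ring)
  · intro t ht1
    exact ((h.cyy _ (ht t ht1)).comp (f := fun y : ℝ => y / l) (by fun_prop) hy).div_const _
  · intro t ht1 y hy1
    have := HasDerivAt.comp t (h := fun t => t / l ^ 2) (h.dt _ (ht t ht1) _ (hy y hy1)) (dl2 t)
    exact this.congr_deriv (by ring)
  · intro t ht1 y hy1
    exact h.wall _ (ht t ht1) _ hy1
  · have e1 : ∀ t, ∫⁻ y in Ioo 0 l, ENNReal.ofReal ((v (t / l ^ 2) (y / l) - f (y / l)) ^ 2) =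
        ENNReal.ofReal l * ∫⁻ x in Ioo (0:ℝ) 1, ENNReal.ofReal ((v (t / l ^ 2) x - f x) ^ 2) := by
      intro t
      have m := mp_div hl 1
      rw [mul_one] at m
      rw [← smul_eq_mul, ← lintegral_smul_measure, ← m.map_eq, (emb_div hl).lintegral_map]
    simp_rw [e1]
    have e2 : Tendsto (fun t : ℝ => t / l ^ 2) (𝓝[>] 0) (𝓝[>] 0) := by
      refine tendsto_nhdsWithin_iff.2 ⟨?_, ?_⟩
      · have : Tendsto (fun t : ℝ => t / l ^ 2) (𝓝 0) (𝓝 (0 / l ^ 2)) :=
          (continuous_id.div_const _).tendsto 0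
        rw [zero_div] at this
        exact this.mono_left nhdsWithin_le_nhds
      · filter_upwards [self_mem_nhdsWithin] with t ht
        exact div_pos ht hl2
    have e3 := ENNReal.Tendsto.const_mul (a := ENNReal.ofReal l) (h.init.comp e2)
      (Or.inr ENNReal.ofReal_ne_top)
    rw [mul_zero] at e3
    exact e3
  · intro y hy1
    show v (l ^ 2 * T / l ^ 2) (y / l) = 0
    rw [mul_div_cancel_left₀ _ hl2.ne']
    exact h.fin _ (hy' y hy1)
  · have m1 := mp_div hl2 T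
    have m2 := mp_div hl 1
    rw [mul_one] at m2
    have m := m1.prod m2
    have e := (emb_div hl2).prodMap (emb_div hl)
    have h1 : Integrable (fun q : ℝ × ℝ => vy q.1 q.2 ^ 2 / l ^ 2)
        ((ENNReal.ofReal (l ^ 2) • volume.restrict (Ioo 0 T)).prod
          (ENNReal.ofReal l • volume.restrict (Ioo (0:ℝ) 1))) := by
      rw [Measure.prod_smul_left, Measure.prod_smul_right, Measure.prod_restrict]
      exact ((h.energy.div_const _).smul_measure ENNReal.ofReal_ne_top).smul_measure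
        ENNReal.ofReal_ne_top
    have h2 := (m.integrable_comp_emb e).2 h1
    rw [Measure.prod_restrict] at h2
    refine h2.congr (Eventually.of_forall fun q => ?_)
    simp only [Function.comp, Prod.map]
    ring
  · have m := mp_div hl 1
    rw [mul_one] at m
    have h1 : AEMeasurable f (ENNReal.ofReal l • volume.restrict (Ioo (0:ℝ) 1)) :=
      h.meas.smul_measure _
    exact AEMeasurable.comp_quasiMeasurePreserving h1 m.quasiMeasurePreserving

lemma init_of {g : ℝ → ℝ} (hg : MemLp g 2 mu) :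
    ∫⁻ y in Ioo (0:ℝ) 1, ENNReal.ofReal (g y ^ 2) = ENNReal.ofReal (∫ y in (0:ℝ)..1, g y ^ 2) := by
  rw [ii_mu, ofReal_integral_eq_lintegral_ofReal (sq_int hg)
    (Eventually.of_forall fun y => sq_nonneg _)]

/-- one wall -/
lemma profileA {c : ℝ → ℝ} (hcM : MemLp c 2 mu) {σ : ℝ} (hσ : 0 < σ) :
    Profile 1 (2 * σ) {0} c (w c σ) (wx c σ) (wxx c σ) (fun _ => 0) := by
  obtain ⟨B, hB, hb⟩ := cf_bdd hcM
  have hx : ∀ y ∈ Ioo (0:ℝ) 1, |y| < 2 := fun y hy => by
    rw [abs_of_pos hy.1]; linarith [hy.2]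
  refine ⟨?_, ?_, ?_, ?_, ?_, ?_, ?_, ?_, ?_, ?_⟩
  · exact (w_cont hB hb hσ).mono (prod_mono Ioc_subset_Ioi_self le_rfl)
  · exact fun t ht y hy => w_dx hB hb hσ ht.1 (hx y hy)
  · exact fun t ht y hy => w_dxx hB hb hσ ht.1 (hx y hy)
  · exact fun t ht => (slice (wxx_cont hB hb hσ) (S := Ioi 0) ht.1).mono Ioo_subset_Icc_self
  · exact fun t ht y hy => by simpa using w_dt hB hb hσ ht.1 (hx y hy).le
  · intro t ht y hy
    rw [mem_singleton_iff.1 hy]
    exact w_zero c σ t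
  · have h1 := ENNReal.tendsto_ofReal (w_init hσ hcM)
    rw [ENNReal.ofReal_zero] at h1
    refine h1.congr' ?_
    filter_upwards [self_mem_nhdsWithin] with t ht
    exact (init_of ((memLp_cont (w_slice hcM hσ ht)).sub hcM)).symm
  · exact fun y _ => w_late c hσ le_rfl y
  · exact energy hcM hσ _
  · exact hcM.1.aemeasurable

end Pool.Agent.V5helper93.NS
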