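import Pool.Agent.V5helper93.NS.Heat1

/-! # Cut-off towers and radial series -/

set_option autoImplicit false
set_option linter.all false

open MeasureTheory Set Filter Topology
open scoped ENNReal

namespace Pool.Agent.V5helper93.NS

open Pool.Agent.Y308.BC

/-- the derivatives of `cut (t / σ) * b (t)` -/
noncomputable def tw (b : ℕ → ℝ → ℝ) (σ : ℝ) (i : ℕ) (t : ℝ) : ℝ :=
  ∑ ij ∈ Finset.HasAntidiagonal.antidiagonal i, (i.choose ij.1 : ℝ) *
    (((σ⁻¹) ^ ij.1 * cut ij.1 (t / σ)) * b ij.2 t)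

lemma tw_deriv {b : ℕ → ℝ → ℝ} (hb : ∀ l t, HasDerivAt (b l) (b (l + 1) t) t) (σ : ℝ) (i : ℕ)
    (t : ℝ) : HasDerivAt (tw b σ i) (tw b σ (i + 1) t) t := by
  set f : ℕ → ℕ → ℝ := fun a l => ((σ⁻¹) ^ a * cut a (t / σ)) * b l t with hf
  have h1 : ∀ ij ∈ Finset.HasAntidiagonal.antidiagonal i, HasDerivAt (fun t => (i.choose ij.1 : ℝ) *
      (((σ⁻¹) ^ ij.1 * cut ij.1 (t / σ)) * b ij.2 t))
      ((i.choose ij.1 : ℝ) * (f (ij.1 + 1) ij.2 + f ij.1 (ij.2 + 1))) t := by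
    intro ij _
    have e1 : HasDerivAt (fun t => t / σ) (1 / σ) t := (hasDerivAt_id t).div_const σ
    have e2 : HasDerivAt (fun t => cut ij.1 (t / σ)) (cut (ij.1 + 1) (t / σ) * (1 / σ)) t :=
      HasDerivAt.comp t (h := fun t => t / σ) (cut_deriv ij.1 (t / σ)) e1
    refine (((e2.const_mul ((σ⁻¹) ^ ij.1)).mul (hb ij.2 t)).const_mul
      (i.choose ij.1 : ℝ)).congr_deriv ?_
    simp only [hf]
    rw [pow_succ]; ring
  have h2 := HasDerivAt.fun_sum h1
  refine h2.congr_deriv ?_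
  have h4 : tw b σ (i + 1) t = ∑ ij ∈ Finset.HasAntidiagonal.antidiagonal (i + 1),
    ((i + 1).choose ij.1 : ℝ) * f ij.1 ij.2 := rfl
  rw [h4, Finset.sum_antidiagonal_choose_succ_mul, ← Finset.sum_add_distrib]
  refine Finset.sum_congr rfl fun ij hij => ?_
  have h5 : i.choose ij.2 = i.choose ij.1 := by
    rw [Finset.HasAntidiagonal.mem_antidiagonal] at hij
    exact (Nat.choose_symm_of_eq_add hij.symm).symm
  rw [h5]; ring

lemma tw_le {b : ℕ → ℝ → ℝ} {σ C D : ℝ} (hσ : 0 < σ) (hC : 0 ≤ C) (hD : 7 / σ ≤ D) {t : ℝ}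
    (hb : ∀ l, |b l t| ≤ C * (l.factorial * D ^ l)) (i : ℕ) :
    |tw b σ i t| ≤ (Cc * C) * wD D i := by
  unfold tw
  refine (Finset.abs_sum_le_sum_abs _ _).trans ?_
  have hCc := Cc_pos
  have hD0 : 0 ≤ D := le_trans (by positivity) hD
  have h1 : ∀ ij ∈ Finset.HasAntidiagonal.antidiagonal i, |(i.choose ij.1 : ℝ) *
      (((σ⁻¹) ^ ij.1 * cut ij.1 (t / σ)) * b ij.2 t)| ≤
      (Cc * C) * ((i.factorial * √(i.factorial)) * D ^ i) := by
    intro ij hij
    rw [Finset.HasAntidiagonal.mem_antidiagonal] at hij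
    rw [abs_mul, abs_mul, abs_mul, abs_of_nonneg (by positivity : (0:ℝ) ≤ (i.choose ij.1 : ℝ)),
      abs_of_nonneg (by positivity : (0:ℝ) ≤ (σ⁻¹) ^ ij.1)]
    have e1 := cut_bound ij.1 (t / σ)
    have e2 := hb ij.2
    have e3 : (i.choose ij.1 : ℝ) * ij.1.factorial * ij.2.factorial = i.factorial := by
      have h5 : ij.1 ≤ i := by omega
      have h6 := Nat.choose_mul_factorial_mul_factorial h5
      have h7 : i - ij.1 = ij.2 := by omega
      rw [h7] at h6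
      exact_mod_cast h6
    have e4 : √(ij.1.factorial : ℝ) ≤ √(i.factorial) := by
      apply Real.sqrt_le_sqrt
      exact_mod_cast Nat.factorial_le (by omega)
    have e7 : (7 * σ⁻¹) ^ ij.1 ≤ D ^ ij.1 :=
      pow_le_pow_left₀ (by positivity) (by rw [← div_eq_mul_inv]; exact hD) _
    have e6 : D ^ i = D ^ ij.1 * D ^ ij.2 := by
      rw [← pow_add, hij]
    calc (i.choose ij.1 : ℝ) * ((σ⁻¹) ^ ij.1 * |cut ij.1 (t / σ)| * |b ij.2 t|) ≤
        (i.choose ij.1 : ℝ) * ((σ⁻¹) ^ ij.1 *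
          (Cc * (7 ^ ij.1 * (ij.1.factorial * √(ij.1.factorial)))) *
          (C * (ij.2.factorial * D ^ ij.2))) := by
          gcongr
      _ ≤ (i.choose ij.1 : ℝ) * ((σ⁻¹) ^ ij.1 *
          (Cc * (7 ^ ij.1 * (ij.1.factorial * √(i.factorial)))) *
          (C * (ij.2.factorial * D ^ ij.2))) := by
          gcongr
      _ = (Cc * C) * (((i.choose ij.1 : ℝ) * ij.1.factorial * ij.2.factorial) *
          √(i.factorial) * (((7 * σ⁻¹) ^ ij.1) * D ^ ij.2)) := by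
          rw [mul_pow]; ring
      _ ≤ (Cc * C) * (((i.choose ij.1 : ℝ) * ij.1.factorial * ij.2.factorial) *
          √(i.factorial) * (D ^ ij.1 * D ^ ij.2)) := by
          gcongr
      _ = _ := by rw [e3, ← e6]
  refine (Finset.sum_le_sum h1).trans (le_of_eq ?_)
  rw [Finset.sum_const, Finset.Nat.card_antidiagonal, nsmul_eq_mul]
  unfold wD; push_cast; ring

lemma tw_zero (b : ℕ → ℝ → ℝ) (σ : ℝ) (i : ℕ) : tw b σ i 0 = b i 0 := by
  unfold tw
  rw [Finset.sum_eq_single (0, i)]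
  · simp [cut_left le_rfl]
  · rintro ⟨a, l⟩ hab hne
    rw [Finset.HasAntidiagonal.mem_antidiagonal] at hab
    simp only at hab
    have ha : a ≠ 0 := by
      rintro rfl
      apply hne
      rw [zero_add] at hab
      rw [hab]
    obtain ⟨a', rfl⟩ := Nat.exists_eq_succ_of_ne_zero ha
    simp only [zero_div]
    rw [cut_left' le_rfl]; ring
  · intro h
    exact absurd (Finset.HasAntidiagonal.mem_antidiagonal.2 (zero_add i)) h

lemma tw_end (b : ℕ → ℝ → ℝ) {σ : ℝ} (hσ : 0 < σ) (i : ℕ) {t : ℝ} (ht : σ ≤ t) :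
    tw b σ i t = 0 := by
  unfold tw
  refine Finset.sum_eq_zero fun ij _ => ?_
  rw [cut_right ((one_le_div hσ).2 ht)]; ring

/-- `2·m, 2·m·4·(m+2), …`: the constants with `Δ^i r^(2i) = cc m i` in dimension `m` -/
noncomputable def cc (m : ℕ) : ℕ → ℝ
  | 0 => 1
  | (i + 1) => cc m i * (2 * (i + 1) * (2 * i + m))

lemma cc_ge {m : ℕ} (hm : 1 ≤ m) (i : ℕ) : ((2 * i).factorial : ℝ) ≤ cc m i := by
  induction i with
  | zero => simp [cc]
  | succ i ih =>
    have e2 : ((2 * (i + 1)).factorial : ℝ) = (2 * i).factorial * (2 * (i + 1) * (2 * i + 1)) := by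
      have : 2 * (i + 1) = 2 * i + 1 + 1 := by ring
      rw [this, Nat.factorial_succ, Nat.factorial_succ]; push_cast; ring
    rw [e2]
    show _ ≤ cc m i * (2 * (i + 1) * (2 * i + m))
    have hm' : (1:ℝ) ≤ m := by exact_mod_cast hm
    have h0 : 0 ≤ cc m i := le_trans (by positivity) ih
    gcongr

lemma cc_pos {m : ℕ} (hm : 1 ≤ m) (i : ℕ) : 0 < cc m i :=
  lt_of_lt_of_le (by positivity) (cc_ge hm i)

/-- the radial series and its derivatives -/
noncomputable def g0 (m : ℕ) (α : ℕ → ℝ → ℝ) (t s : ℝ) : ℝ := ∑' i, α i t * (s ^ i / cc m i)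
noncomputable def g1 (m : ℕ) (α : ℕ → ℝ → ℝ) (t s : ℝ) : ℝ :=
  ∑' i, α i t * ((i : ℝ) * s ^ (i - 1) / cc m i)
noncomputable def g2 (m : ℕ) (α : ℕ → ℝ → ℝ) (t s : ℝ) : ℝ :=
  ∑' i, α i t * ((i : ℝ) * (((i - 1 : ℕ) : ℝ) * s ^ (i - 1 - 1)) / cc m i)
noncomputable def gt (m : ℕ) (α : ℕ → ℝ → ℝ) (t s : ℝ) : ℝ := ∑' i, α (i + 1) t * (s ^ i / cc m i)

section
variable {m : ℕ} (hm : 1 ≤ m) {α : ℕ → ℝ → ℝ} {K D S : ℝ} {I : Set ℝ} (hD : 0 ≤ D) (hK : 0 ≤ K)
  (hS : 1 ≤ S) (hb : ∀ i, ∀ t ∈ I, |α i t| ≤ K * wD D i)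

include hm hD hK hS hb

lemma r_aux {t : ℝ} (ht : t ∈ I) {a : ℝ} (i : ℕ) {q : ℝ} (hq : |a| ≤ q ^ i) (hq0 : 0 ≤ q) :
    |α i t * (a / cc m i)| ≤ K * maj (q * D) i := by
  rw [abs_mul, abs_div, abs_of_pos (cc_pos hm i)]
  have hw := wD_nonneg hD i
  calc |α i t| * (|a| / cc m i) ≤ (K * wD D i) * (q ^ i / (2 * i).factorial) := by
        have := hb i t ht
        have h2 := cc_ge hm i
        have h3 := cc_pos hm i
        gcongr
    _ = K * (maj D i * q ^ i) := by unfold maj; ring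
    _ = _ := by rw [maj_scale]

omit hm hD hK hb in
lemma pw {s : ℝ} (hs : |s| ≤ S) (j i : ℕ) (h : j ≤ i) : |s| ^ j ≤ S ^ i :=
  (pow_le_pow_left₀ (abs_nonneg _) hs j).trans (pow_le_pow_right₀ hS h)

omit hm hD hK hS hb in
lemma two_ge (i : ℕ) : (i : ℝ) ≤ 2 ^ i := by
  exact_mod_cast (Nat.lt_two_pow_self (n := i)).le

lemma r0 {t s : ℝ} (ht : t ∈ I) (hs : |s| ≤ S) (i : ℕ) :
    |α i t * (s ^ i / cc m i)| ≤ K * maj (4 * S * D) i := by
  refine r_aux hm hD hK hS hb ht i ?_ (by positivity)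
  rw [abs_pow]
  exact pow_le_pow_left₀ (abs_nonneg _) (hs.trans (by linarith)) i

lemma r1 {t s : ℝ} (ht : t ∈ I) (hs : |s| ≤ S) (i : ℕ) :
    |α i t * ((i : ℝ) * s ^ (i - 1) / cc m i)| ≤ K * maj (4 * S * D) i := by
  refine r_aux hm hD hK hS hb ht i ?_ (by positivity)
  rw [abs_mul, abs_pow, Nat.abs_cast]
  calc (i:ℝ) * |s| ^ (i - 1) ≤ 2 ^ i * S ^ i := by
        have := pw hS hs (i - 1) i (Nat.sub_le _ _)
        have := two_ge i
        gcongr
    _ ≤ 4 ^ i * S ^ i := by gcongr; norm_num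
    _ = _ := by rw [mul_pow]

lemma r2 {t s : ℝ} (ht : t ∈ I) (hs : |s| ≤ S) (i : ℕ) :
    |α i t * ((i : ℝ) * (((i - 1 : ℕ) : ℝ) * s ^ (i - 1 - 1)) / cc m i)| ≤
      K * maj (4 * S * D) i := by
  refine r_aux hm hD hK hS hb ht i ?_ (by positivity)
  rw [abs_mul, abs_mul, abs_pow, Nat.abs_cast, Nat.abs_cast]
  have h1 := pw hS hs (i - 1 - 1) i (by omega)
  have h2 := two_ge i
  have h3 : ((i - 1 : ℕ) : ℝ) ≤ 2 ^ i := le_trans (by exact_mod_cast Nat.sub_le i 1) h2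
  calc (i:ℝ) * (((i - 1 : ℕ) : ℝ) * |s| ^ (i - 1 - 1)) ≤ 2 ^ i * (2 ^ i * S ^ i) := by
        gcongr
    _ = 4 ^ i * S ^ i := by rw [← mul_assoc, ← mul_pow]; norm_num
    _ = _ := by rw [mul_pow]

lemma rt {t s : ℝ} (ht : t ∈ I) (hs : |s| ≤ S) (i : ℕ) :
    |α (i + 1) t * (s ^ i / cc m i)| ≤ 4 * m * K * maj (4 * S * D) (i + 1) := by
  have hm0 : (1:ℝ) ≤ m := by exact_mod_cast hm
  have e1 : s ^ i / cc m i = (2 * (i + 1) * (2 * i + m)) * (s ^ i / cc m (i + 1)) := by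
    show _ = (2 * (i + 1) * (2 * i + m)) * (s ^ i / (cc m i * (2 * (i + 1) * (2 * i + m))))
    have := cc_pos hm i
    field_simp
  have e2 : (2 * ((i:ℝ) + 1) * (2 * i + m)) ≤ 4 * m * 4 ^ (i + 1) := by
    have h1 := two_ge (i + 1)
    push_cast at h1
    have h2 : (2 * (i:ℝ) + m) ≤ 2 * m * (i + 1) := by nlinarith [Nat.cast_nonneg (α := ℝ) i]
    have h3 : (4:ℝ) ^ (i + 1) = 2 ^ (i + 1) * 2 ^ (i + 1) := by rw [← mul_pow]; norm_num
    rw [h3]
    calc (2 * ((i:ℝ) + 1) * (2 * i + m)) ≤ 2 * ((i:ℝ) + 1) * (2 * m * (i + 1)) := by gcongr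
      _ = 4 * m * (((i:ℝ) + 1) * (i + 1)) := by ring
      _ ≤ _ := by gcongr
  rw [abs_mul, e1, abs_mul, abs_div, abs_of_pos (cc_pos hm (i + 1)),
    abs_of_nonneg (by positivity : (0:ℝ) ≤ 2 * (i + 1) * (2 * i + m)), abs_pow]
  have hw := wD_nonneg hD (i + 1)
  have h2 := cc_ge hm (i + 1)
  have h4 := pw hS hs i (i + 1) (Nat.le_succ _)
  have h5 := hb (i + 1) t ht
  have h6 := cc_pos hm (i + 1)
  calc |α (i + 1) t| * ((2 * (i + 1) * (2 * i + m)) * (|s| ^ i / cc m (i + 1))) ≤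
      (K * wD D (i + 1)) * ((4 * m * 4 ^ (i + 1)) * (S ^ (i + 1) / (2 * (i + 1)).factorial)) := by
        gcongr
    _ = 4 * m * K * (maj D (i + 1) * (4 * S) ^ (i + 1)) := by unfold maj; rw [mul_pow]; ring
    _ = _ := by rw [maj_scale]

lemma sm : Summable fun i => K * maj (4 * S * D) i :=
  (maj_summable (by positivity : 0 ≤ 4 * S * D)).mul_left _

lemma smt : Summable fun i => 4 * m * K * maj (4 * S * D) (i + 1) :=
  ((summable_nat_add_iff 1).2 (maj_summable (by positivity : 0 ≤ 4 * S * D))).mul_left _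

lemma g0_ds {t s : ℝ} (ht : t ∈ I) (hs : |s| < S) : HasDerivAt (g0 m α t) (g1 m α t s) s := by
  have hsI : s ∈ Ioo (-S) S := abs_lt.1 hs
  unfold g0 g1
  refine hasDerivAt_tsum_of_isPreconnected (u := fun i => K * maj (4 * S * D) i)
    (g := fun i y => α i t * (y ^ i / cc m i))
    (g' := fun i y => α i t * ((i : ℝ) * y ^ (i - 1) / cc m i))
    (sm hm hD hK hS hb) isOpen_Ioo isPreconnected_Ioo (fun i y _ => ?_) (fun i y hy => ?_)
    (y₀ := 0) (by constructor <;> linarith) ?_ hsI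
  · exact ((hasDerivAt_pow i y).div_const _).const_mul _
  · exact r1 hm hD hK hS hb ht (abs_lt.2 hy).le i
  · exact Summable.of_norm_bounded (sm hm hD hK hS hb)
      (r0 hm hD hK hS hb ht (by rw [abs_zero]; linarith))

lemma g1_ds {t s : ℝ} (ht : t ∈ I) (hs : |s| < S) : HasDerivAt (g1 m α t) (g2 m α t s) s := by
  have hsI : s ∈ Ioo (-S) S := abs_lt.1 hs
  unfold g1 g2
  refine hasDerivAt_tsum_of_isPreconnected (u := fun i => K * maj (4 * S * D) i)
    (g := fun i y => α i t * ((i : ℝ) * y ^ (i - 1) / cc m i))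
    (g' := fun i y => α i t * ((i : ℝ) * (((i - 1 : ℕ) : ℝ) * y ^ (i - 1 - 1)) / cc m i))
    (sm hm hD hK hS hb) isOpen_Ioo isPreconnected_Ioo (fun i y _ => ?_) (fun i y hy => ?_)
    (y₀ := 0) (by constructor <;> linarith) ?_ hsI
  · exact (((hasDerivAt_pow (i - 1) y).const_mul (i:ℝ)).div_const _).const_mul _
  · exact r2 hm hD hK hS hb ht (abs_lt.2 hy).le i
  · exact Summable.of_norm_bounded (sm hm hD hK hS hb)
      (r1 hm hD hK hS hb ht (by rw [abs_zero]; linarith))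

lemma g0_dt (hI : IsOpen I) (hI' : IsPreconnected I)
    (hd : ∀ i, ∀ t ∈ I, HasDerivAt (α i) (α (i + 1) t) t) {t s : ℝ} (ht : t ∈ I)
    (hs : |s| ≤ S) : HasDerivAt (fun t => g0 m α t s) (gt m α t s) t := by
  unfold g0 gt
  exact hasDerivAt_tsum_of_isPreconnected (u := fun i => 4 * m * K * maj (4 * S * D) (i + 1))
    (g := fun i t => α i t * (s ^ i / cc m i))
    (g' := fun i t => α (i + 1) t * (s ^ i / cc m i))
    (smt hm hD hK hS hb) hI hI' (fun i t ht => (hd i t ht).mul_const _)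
    (fun i t ht => rt hm hD hK hS hb ht hs i) ht
    (Summable.of_norm_bounded (sm hm hD hK hS hb) (r0 hm hD hK hS hb ht hs)) ht

lemma g0_cont (hc : ∀ i, ContinuousOn (α i) I) :
    ContinuousOn (fun q : ℝ × ℝ => g0 m α q.1 q.2) (I ×ˢ Icc (-S) S) := by
  unfold g0
  refine continuousOn_tsum (u := fun i => K * maj (4 * S * D) i) (fun i => ?_)
    (sm hm hD hK hS hb) fun i q hq => r0 hm hD hK hS hb hq.1 (abs_le.2 hq.2) i
  exact ((hc i).comp continuousOn_fst fun q hq => hq.1).mul (by fun_prop)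

lemma g1_cont (hc : ∀ i, ContinuousOn (α i) I) :
    ContinuousOn (fun q : ℝ × ℝ => g1 m α q.1 q.2) (I ×ˢ Icc (-S) S) := by
  unfold g1
  refine continuousOn_tsum (u := fun i => K * maj (4 * S * D) i) (fun i => ?_)
    (sm hm hD hK hS hb) fun i q hq => r1 hm hD hK hS hb hq.1 (abs_le.2 hq.2) i
  exact ((hc i).comp continuousOn_fst fun q hq => hq.1).mul (by fun_prop)

lemma g2_cont (hc : ∀ i, ContinuousOn (α i) I) :
    ContinuousOn (fun q : ℝ × ℝ => g2 m α q.1 q.2) (I ×ˢ Icc (-S) S) := by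
  unfold g2
  refine continuousOn_tsum (u := fun i => K * maj (4 * S * D) i) (fun i => ?_)
    (sm hm hD hK hS hb) fun i q hq => r2 hm hD hK hS hb hq.1 (abs_le.2 hq.2) i
  exact ((hc i).comp continuousOn_fst fun q hq => hq.1).mul (by fun_prop)

lemma gt_bound {t s : ℝ} (ht : t ∈ I) (hs : |s| ≤ S) :
    |gt m α t s| ≤ ∑' i, 4 * m * K * maj (4 * S * D) (i + 1) := by
  unfold gt
  have h3 : Summable fun i => α (i + 1) t * (s ^ i / cc m i) :=
    Summable.of_norm_bounded (smt hm hD hK hS hb) fun i => rt hm hD hK hS hb ht hs i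
  have := norm_tsum_le_tsum_norm h3.norm
  exact this.trans (Summable.tsum_le_tsum (rt hm hD hK hS hb ht hs) h3.norm (smt hm hD hK hS hb))

/-- the radial heat equation -/
lemma radial {t s : ℝ} (ht : t ∈ I) (hs : |s| ≤ S) :
    4 * s * g2 m α t s + 2 * m * g1 m α t s = gt m α t s := by
  have s1 : Summable fun i => α i t * ((i : ℝ) * s ^ (i - 1) / cc m i) :=
    Summable.of_norm_bounded (sm hm hD hK hS hb) (r1 hm hD hK hS hb ht hs)
  have s2 : Summable fun i =>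
      α i t * ((i : ℝ) * (((i - 1 : ℕ) : ℝ) * s ^ (i - 1 - 1)) / cc m i) :=
    Summable.of_norm_bounded (sm hm hD hK hS hb) (r2 hm hD hK hS hb ht hs)
  unfold g1 g2 gt
  rw [← tsum_mul_left, ← tsum_mul_left, ← (s2.mul_left _).tsum_add (s1.mul_left _)]
  rw [((s2.mul_left _).add (s1.mul_left _)).tsum_eq_zero_add]
  simp only [Nat.cast_zero, zero_mul, zero_div, mul_zero, add_zero, zero_add]
  refine tsum_congr fun i => ?_
  have hc := cc_pos hm i
  have hm0 : (1:ℝ) ≤ m := by exact_mod_cast hm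
  rcases i with _ | i
  · simp [cc]; ring_nf; field_simp
  · have e1 : i + 1 + 1 - 1 = i + 1 := rfl
    have e2 : i + 1 - 1 = i := rfl
    rw [e1, e2]
    have e3 : cc m (i + 1 + 1) = cc m (i + 1) * (2 * ((i + 1 : ℕ) + 1) * (2 * (i + 1 : ℕ) + m)) := rfl
    rw [e3]
    have h4 : (2 * (((i + 1 : ℕ) : ℝ) + 1) * (2 * ((i + 1 : ℕ) : ℝ) + m)) ≠ 0 := by positivity
    push_cast at h4 ⊢
    field_simp
    ring

end

end Pool.Agent.V5helper93.NS
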